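import Mathlib
import Pool.Agent.H73.G.R8.Y685.Base
import Pool.Agent.H73.G.R8.Y685.Hol2

/-!
# Statements of further independent tasks
-/

set_option autoImplicit false

open Filter UpperHalfPlane
open scoped Topology PeriodPair

noncomputable section

namespace Pool.Agent.Y685

open H667R3 Pool.Agent.W245.EB

/-- I: the holomorphic implicit function theorem for functions of two variables which are
continuous and separately holomorphic (`SH`, see `Hol2.lean`; `SH.strict` gives the strict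
derivative) -/
def S_I : Prop := ∀ (f : ℂ → ℂ → ℂ) (p : ℂ × ℂ), H2.SH f p → f p.1 p.2 = 0 →
  deriv (f p.1) p.2 ≠ 0 → ∃ φ : ℂ → ℂ, φ p.1 = p.2 ∧ AnalyticAt ℂ φ p.1 ∧
    (∀ᶠ t in 𝓝 p.1, f t (φ t) = 0) ∧ ∀ᶠ q : ℂ × ℂ in 𝓝 p, f q.1 q.2 = 0 → q.2 = φ q.1

/-- C1: the invariants and the quasi-period of `1` are bounded near the cusp -/
def S_C1 : Prop := ∃ C : ℝ, ∀ t : ℂ, 1 ≤ t.im →
  ‖(LC t).g₂‖ ≤ C ∧ ‖(LC t).g₃‖ ≤ C ∧ ‖h1 t‖ ≤ C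

/-- C2: lower bounds for periodic functions near the cusp -/
def S_C2 : Prop := ∀ Φ : ℂ → ℂ, (∀ t : ℂ, 0 < t.im → DifferentiableAt ℂ Φ t) →
  (∀ t : ℂ, 0 < t.im → Φ (t + 1) = Φ t) → (∃ C : ℝ, ∀ t : ℂ, 1 ≤ t.im → ‖Φ t‖ ≤ C) →
  (∃ t : ℂ, 0 < t.im ∧ Φ t ≠ 0) →
  ∃ c n T : ℝ, 0 < c ∧ ∀ t : ℂ, T ≤ t.im → c * Real.exp (-(n * t.im)) ≤ ‖Φ t‖

end Pool.Agent.Y685
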