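import Mathlib
import Pool.Agent.H73.G.R8.Y685.Base
import Pool.Agent.H73.G.R8.Y685.Hol2

/-!
# The zeta function is holomorphic in the lattice and the point
-/

set_option autoImplicit false

open Filter Metric UpperHalfPlane
open scoped Topology Uniformity PeriodPair

noncomputable section

namespace Pool.Agent.Y685.H2

open H667R3 Pool.Agent.W245.EB Pool.Agent.Y685

/-- lattice points -/
def wx (x : Fin 2 → ℤ) (t : ℂ) : ℂ := x 0 * t + x 1

/-- terms of the series -/
def Tx (x : Fin 2 → ℤ) (t z : ℂ) : ℂ := 1 / (z - wx x t) + 1 / wx x t + z / wx x t ^ 2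

theorem wx_ne {x : Fin 2 → ℤ} (hx : x ≠ 0) {t : ℂ} (ht : 0 < t.im) : wx x t ≠ 0 := by
  intro h
  apply hx
  have him := congrArg Complex.im h
  have hre := congrArg Complex.re h
  simp [wx] at him hre
  have h0 : x 0 = 0 := by
    rcases him with h | h
    · exact_mod_cast h
    · exact absurd h ht.ne'
  rw [h0] at hre
  simp at hre
  funext i
  fin_cases i
  · exact h0
  · exact hre

theorem Tx_bound {x : Fin 2 → ℤ} {t z : ℂ} {R : ℝ} (hR : 0 < R) (hz : ‖z‖ ≤ R)
    (hw : 2 * R ≤ ‖wx x t‖) : ‖Tx x t z‖ ≤ 2 * R ^ 2 * (‖wx x t‖ ^ 3)⁻¹ := by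
  have hw0 : 0 < ‖wx x t‖ := by linarith
  have hw1 : wx x t ≠ 0 := norm_pos_iff.1 hw0
  have h1 : ‖wx x t‖ / 2 ≤ ‖z - wx x t‖ := by
    have := norm_sub_norm_le (wx x t) z
    rw [norm_sub_rev] at this
    linarith
  have h2 : 0 < ‖z - wx x t‖ := by linarith
  have h3 : z - wx x t ≠ 0 := norm_pos_iff.1 h2
  have h4 : Tx x t z = z ^ 2 / (wx x t ^ 2 * (z - wx x t)) := by
    unfold Tx
    field_simp
    ring
  rw [h4, norm_div, norm_mul, norm_pow, norm_pow, div_le_iff₀ (by positivity)]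
  have h5 : 2 * R ^ 2 * (‖wx x t‖ ^ 3)⁻¹ * (‖wx x t‖ ^ 2 * ‖z - wx x t‖) =
      2 * R ^ 2 * (‖z - wx x t‖ / ‖wx x t‖) := by
    field_simp
  rw [h5]
  have h6 : 1 / 2 ≤ ‖z - wx x t‖ / ‖wx x t‖ := by
    rw [le_div_iff₀ hw0]
    linarith
  have h7 : ‖z‖ ^ 2 ≤ R ^ 2 := pow_le_pow_left₀ (norm_nonneg _) hz 2
  nlinarith [sq_nonneg R]

theorem contAt_wx (x : Fin 2 → ℤ) (_ : ℂ) : Continuous fun t => wx x t := by
  unfold wx
  fun_prop

/-- uniform bounds near a point -/
theorem exists_bound {t₀ z₀ : ℂ} (ht : 0 < t₀.im) {S : Set (Fin 2 → ℤ)}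
    (hS : ∀ x ∈ S, z₀ ≠ wx x t₀) :
    ∃ u : (Fin 2 → ℤ) → ℝ, Summable u ∧ ∀ᶠ q : ℂ × ℂ in 𝓝 (t₀, z₀), 0 < q.1.im ∧
      ∀ x ∈ S, q.2 ≠ wx x q.1 ∧ ‖Tx x q.1 q.2‖ ≤ u x := by
  classical
  set A : ℝ := |t₀.re| + 1 with hA
  set B : ℝ := t₀.im / 2 with hB
  have hB0 : 0 < B := half_pos ht
  set ρ : ℝ := EisensteinSeries.r ⟨⟨A, B⟩, hB0⟩ with hρ
  have hρ0 : 0 < ρ := EisensteinSeries.r_pos _
  set R : ℝ := ‖z₀‖ + 1 with hR
  have hR0 : 0 < R := by positivity
  set F : Set (Fin 2 → ℤ) := {x | ‖x‖ ≤ 2 * R / ρ} with hF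
  have hFfin : F.Finite := by
    have : F = closedBall (0 : Fin 2 → ℤ) (2 * R / ρ) := by
      ext x
      simp [hF]
    rw [this]
    exact (isCompact_closedBall (0 : Fin 2 → ℤ) (2 * R / ρ)).finite_of_discrete
  set u : (Fin 2 → ℤ) → ℝ := fun x => 2 * R ^ 2 * ρ⁻¹ ^ 3 * ‖x‖ ^ (-3 : ℝ) +
    F.indicator (fun x => ‖Tx x t₀ z₀‖ + 1) x with hu
  have hbd : ∀ x ∉ F, ∀ t : ℂ, 0 < t.im → |t.re| ≤ A → B ≤ t.im →
      2 * R ≤ ‖wx x t‖ ∧ ρ * ‖x‖ ≤ ‖wx x t‖ := by
    intro x hx t ht0 h1 h2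
    have hx0 : x ≠ 0 := by
      rintro rfl
      apply hx
      simp only [hF, Set.mem_ofPred_eq, norm_zero]
      positivity
    have h3 := EisensteinSeries.r_mul_max_le ⟨t, ht0⟩ hx0
    have h4 := EisensteinSeries.r_lower_bound_on_verticalStrip (z := ⟨t, ht0⟩) hB0
      (A := A) (B := B) ⟨h1, h2⟩
    have h5 : ρ * ‖x‖ ≤ ‖wx x t‖ :=
      (mul_le_mul_of_nonneg_right h4 (norm_nonneg _)).trans h3
    refine ⟨?_, h5⟩
    have h6 : 2 * R / ρ < ‖x‖ := not_le.1 hx
    rw [div_lt_iff₀ hρ0] at h6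
    linarith
  refine ⟨u, ?_, ?_⟩
  · refine Summable.add ?_ ?_
    · exact (EisensteinSeries.summable_one_div_norm_rpow (k := 3) (by norm_num)).mul_left _
    · exact summable_of_hasFiniteSupport (hFfin.subset (Set.support_indicator_subset))
  · have e1 : ∀ᶠ q : ℂ × ℂ in 𝓝 (t₀, z₀), |q.1.re| < A := by
      have hc : Continuous fun q : ℂ × ℂ => |q.1.re| :=
        (Complex.continuous_re.comp continuous_fst).abs
      exact hc.continuousAt.eventually (gt_mem_nhds (by simp only [hA]; linarith))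
    have e2 : ∀ᶠ q : ℂ × ℂ in 𝓝 (t₀, z₀), B < q.1.im := by
      have hc : Continuous fun q : ℂ × ℂ => q.1.im := Complex.continuous_im.comp continuous_fst
      exact hc.continuousAt.eventually (lt_mem_nhds (by simp only [hB]; linarith))
    have e3 : ∀ᶠ q : ℂ × ℂ in 𝓝 (t₀, z₀), ‖q.2‖ < R := by
      have hc : Continuous fun q : ℂ × ℂ => ‖q.2‖ := continuous_snd.norm
      exact hc.continuousAt.eventually (gt_mem_nhds (by simp only [hR]; linarith))
    have e4 : ∀ x ∈ F, ∀ᶠ q : ℂ × ℂ in 𝓝 (t₀, z₀), x ∈ S → q.2 ≠ wx x q.1 ∧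
        ‖Tx x q.1 q.2‖ ≤ ‖Tx x t₀ z₀‖ + 1 := by
      intro x _
      by_cases hxS : x ∈ S
      · have c1 : ContinuousAt (fun q : ℂ × ℂ => wx x q.1) (t₀, z₀) :=
          ((contAt_wx x t₀).comp continuous_fst).continuousAt
        have hne : z₀ - wx x t₀ ≠ 0 := sub_ne_zero.2 (hS x hxS)
        have n1 : ∀ᶠ q : ℂ × ℂ in 𝓝 (t₀, z₀), q.2 ≠ wx x q.1 := by
          filter_upwards [(continuousAt_snd.sub c1).eventually_ne hne] with q hq
          exact sub_ne_zero.1 hq
        have c2 : ContinuousAt (fun q : ℂ × ℂ => Tx x q.1 q.2) (t₀, z₀) := by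
          by_cases hx0 : x = 0
          · subst hx0
            have hz0 : z₀ ≠ 0 := by simpa [wx] using hne
            have : (fun q : ℂ × ℂ => Tx 0 q.1 q.2) = fun q => 1 / q.2 := by
              funext q
              simp [Tx, wx]
            rw [this]
            exact continuousAt_const.div continuousAt_snd hz0
          · have hw := wx_ne hx0 ht
            unfold Tx
            refine ((continuousAt_const.div (continuousAt_snd.sub c1) hne).add
              (continuousAt_const.div c1 hw)).add (continuousAt_snd.div (c1.pow 2)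
              (pow_ne_zero 2 hw))
        have n2 : ∀ᶠ q : ℂ × ℂ in 𝓝 (t₀, z₀), ‖Tx x q.1 q.2‖ < ‖Tx x t₀ z₀‖ + 1 :=
          c2.norm.eventually (gt_mem_nhds (by simp))
        filter_upwards [n1, n2] with q h1 h2 _
        exact ⟨h1, h2.le⟩
      · exact Eventually.of_forall (fun q h => absurd h hxS)
    have e5 := (hFfin.eventually_all).2 e4
    filter_upwards [e1, e2, e3, e5] with q h1 h2 h3 h4
    have him : 0 < q.1.im := hB0.trans h2
    refine ⟨him, fun x hx => ?_⟩
    by_cases hxF : x ∈ F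
    · refine ⟨(h4 x hxF hx).1, ?_⟩
      simp only [hu]
      rw [Set.indicator_of_mem hxF]
      have := (h4 x hxF hx).2
      have h5 : 0 ≤ 2 * R ^ 2 * ρ⁻¹ ^ 3 * ‖x‖ ^ (-3 : ℝ) := by positivity
      linarith
    · obtain ⟨h5, h6⟩ := hbd x hxF q.1 him h1.le h2.le
      refine ⟨?_, ?_⟩
      · intro h7
        rw [← h7] at h5
        linarith
      · simp only [hu]
        rw [Set.indicator_of_notMem hxF, add_zero]
        refine (Tx_bound hR0 h3.le h5).trans ?_
        have hx0 : 0 < ‖x‖ := by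
          have h6 : 2 * R / ρ < ‖x‖ := not_le.1 hxF
          have : 0 ≤ 2 * R / ρ := by positivity
          linarith
        have h8 : (‖wx x q.1‖ ^ 3)⁻¹ ≤ ((ρ * ‖x‖) ^ 3)⁻¹ := by
          apply inv_anti₀ (by positivity)
          exact pow_le_pow_left₀ (by positivity) h6 3
        have h9 : ((ρ * ‖x‖) ^ 3)⁻¹ = ρ⁻¹ ^ 3 * ‖x‖ ^ (-3 : ℝ) := by
          rw [mul_pow, mul_inv, inv_pow, Real.rpow_neg hx0.le]
          norm_cast
        rw [h9] at h8
        calc 2 * R ^ 2 * (‖wx x q.1‖ ^ 3)⁻¹ ≤ 2 * R ^ 2 * (ρ⁻¹ ^ 3 * ‖x‖ ^ (-3 : ℝ)) :=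
              mul_le_mul_of_nonneg_left h8 (by positivity)
          _ = _ := by ring

/-- the series over a subset of the lattice -/
def Zs (S : Set (Fin 2 → ℤ)) (t z : ℂ) : ℂ := ∑' x, S.indicator (fun x => Tx x t z) x

theorem diff_Tx_t {x : Fin 2 → ℤ} {t z : ℂ} (ht : 0 < t.im) (hz : z ≠ wx x t) :
    DifferentiableAt ℂ (fun t => Tx x t z) t := by
  have hd : DifferentiableAt ℂ (fun t => wx x t) t := by
    unfold wx
    fun_prop
  by_cases hx0 : x = 0
  · subst hx0
    have : (fun t : ℂ => Tx 0 t z) = fun _ => 1 / z := by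
      funext q
      simp [Tx, wx]
    rw [this]
    exact differentiableAt_const _
  · have hw := wx_ne hx0 ht
    unfold Tx
    refine (((differentiableAt_const _).fun_div ((differentiableAt_const _).fun_sub hd)
      (sub_ne_zero.2 hz)).fun_add ((differentiableAt_const _).fun_div hd hw)).fun_add
      ((differentiableAt_const _).fun_div (hd.fun_pow 2) (pow_ne_zero 2 hw))

theorem diff_Tx_z {x : Fin 2 → ℤ} {t z : ℂ} (hz : z ≠ wx x t) :
    DifferentiableAt ℂ (fun z => Tx x t z) z := by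
  unfold Tx
  have h1 : DifferentiableAt ℂ (fun z : ℂ => z - wx x t) z :=
    differentiableAt_fun_id.fun_sub (differentiableAt_const _)
  have h2 : DifferentiableAt ℂ (fun z : ℂ => z / wx x t ^ 2) z :=
    differentiableAt_fun_id.div_const _
  exact (((differentiableAt_const _).fun_div h1 (sub_ne_zero.2 hz)).fun_add
    (differentiableAt_const _)).fun_add h2

theorem SH_Zs {t₀ z₀ : ℂ} (ht : 0 < t₀.im) {S : Set (Fin 2 → ℤ)}
    (hS : ∀ x ∈ S, z₀ ≠ wx x t₀) : SH (Zs S) (t₀, z₀) := by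
  classical
  obtain ⟨u, hu, hev⟩ := exists_bound ht hS
  have hev0 := hev
  obtain ⟨r, hr, hb⟩ := Metric.eventually_nhds_iff_ball.1 hev
  rw [← ball_prod_same] at hb
  have hu0 : ∀ x, S.indicator (fun x => ‖Tx x t₀ z₀‖) x ≤ |u x| := by
    intro x
    by_cases hx : x ∈ S
    · rw [Set.indicator_of_mem hx]
      exact ((hev.self_of_nhds).2 x hx).2.trans (le_abs_self _)
    · rw [Set.indicator_of_notMem hx]
      exact abs_nonneg _
  have hle : ∀ x, ∀ q ∈ ball t₀ r ×ˢ ball z₀ r, ‖S.indicator (fun x => Tx x q.1 q.2) x‖ ≤ |u x| := by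
    intro x q hq
    by_cases hx : x ∈ S
    · rw [Set.indicator_of_mem hx]
      exact ((hb q hq).2 x hx).2.trans (le_abs_self _)
    · rw [Set.indicator_of_notMem hx, norm_zero]
      exact abs_nonneg _
  have hua : Summable fun x => |u x| := hu.abs
  have dt : ∀ x, ∀ q ∈ ball t₀ r ×ˢ ball z₀ r,
      DifferentiableAt ℂ (fun t => S.indicator (fun x => Tx x t q.2) x) q.1 := by
    intro x q hq
    by_cases hx : x ∈ S
    · simp only [Set.indicator_of_mem hx]
      exact diff_Tx_t (hb q hq).1 ((hb q hq).2 x hx).1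
    · simp only [Set.indicator_of_notMem hx]
      exact differentiableAt_const _
  have dz : ∀ x, ∀ q ∈ ball t₀ r ×ˢ ball z₀ r,
      DifferentiableAt ℂ (fun z => S.indicator (fun x => Tx x q.1 z) x) q.2 := by
    intro x q hq
    by_cases hx : x ∈ S
    · simp only [Set.indicator_of_mem hx]
      exact diff_Tx_z ((hb q hq).2 x hx).1
    · simp only [Set.indicator_of_notMem hx]
      exact differentiableAt_const _
  have hcx : ∀ x, ContinuousOn (fun q : ℂ × ℂ => S.indicator (fun x => Tx x q.1 q.2) x)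
      (ball t₀ r ×ˢ ball z₀ r) := by
    intro x q hq
    by_cases hx : x ∈ S
    · simp only [Set.indicator_of_mem hx]
      have hne := ((hb q hq).2 x hx).1
      have c1 : ContinuousAt (fun q : ℂ × ℂ => wx x q.1) q :=
        ((contAt_wx x t₀).comp continuous_fst).continuousAt
      apply ContinuousAt.continuousWithinAt
      by_cases hx0 : x = 0
      · subst hx0
        have hz0 : q.2 ≠ 0 := by simpa [wx] using hne
        have : (fun q : ℂ × ℂ => Tx 0 q.1 q.2) = fun q => 1 / q.2 := by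
          funext q
          simp [Tx, wx]
        rw [this]
        exact continuousAt_const.div continuousAt_snd hz0
      · have hw := wx_ne hx0 (hb q hq).1
        unfold Tx
        exact ((continuousAt_const.div (continuousAt_snd.sub c1) (sub_ne_zero.2 hne)).add
          (continuousAt_const.div c1 hw)).add (continuousAt_snd.div (c1.pow 2)
          (pow_ne_zero 2 hw))
    · simp only [Set.indicator_of_notMem hx]
      exact continuousWithinAt_const
  have hopen : IsOpen (ball t₀ r ×ˢ ball z₀ r) := isOpen_ball.prod isOpen_ball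
  have hcont : ContinuousOn (fun q : ℂ × ℂ => Zs S q.1 q.2) (ball t₀ r ×ˢ ball z₀ r) :=
    continuousOn_tsum hcx hua hle
  have hmem : ball t₀ r ×ˢ ball z₀ r ∈ 𝓝 (t₀, z₀) :=
    hopen.mem_nhds ⟨mem_ball_self hr, mem_ball_self hr⟩
  filter_upwards [hmem] with q hq
  refine ⟨hcont.continuousAt (hopen.mem_nhds hq), ?_, ?_⟩
  · have := Complex.differentiableOn_tsum_of_summable_norm (U := ball t₀ r)
      (F := fun x t => S.indicator (fun x => Tx x t q.2) x) hua
      (fun x t ht => (dt x (t, q.2) ⟨ht, hq.2⟩).differentiableWithinAt) isOpen_ball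
      (fun x t ht => hle x (t, q.2) ⟨ht, hq.2⟩)
    exact (this q.1 hq.1).differentiableAt (isOpen_ball.mem_nhds hq.1)
  · have := Complex.differentiableOn_tsum_of_summable_norm (U := ball z₀ r)
      (F := fun x z => S.indicator (fun x => Tx x q.1 z) x) hua
      (fun x z hz => (dz x (q.1, z) ⟨hq.1, hz⟩).differentiableWithinAt) isOpen_ball
      (fun x z hz => hle x (q.1, z) ⟨hq.1, hz⟩)
    exact (this q.2 hq.2).differentiableAt (isOpen_ball.mem_nhds hq.2)

end Pool.Agent.Y685.H2
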