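import Mathlib
import Pool.Agent.H73.G.R8.TH89.J2168
import Pool.Agent.H73.G.R8.Y685.Ser

/-!
# Quasi-periodicity of the derivative of zeta in the lattice
-/

set_option autoImplicit false

open Filter Metric UpperHalfPlane
open scoped Topology Uniformity PeriodPair

noncomputable section

namespace Pool.Agent.Y685.H2

open H667R3 Pool.Agent.W245.EB Pool.Agent.Y685

theorem hasDerivAt_wp'_all (L : PeriodPair) {z : ℂ} (hz : z ∉ L.lattice) :
    HasDerivAt ℘'[L] (6 * ℘[L] z ^ 2 - L.g₂ / 2) z := by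
  have hd : DifferentiableAt ℂ ℘'[L] z :=
    (L.differentiableOn_derivWeierstrassP z hz).differentiableAt ((isOpen_compl L).mem_nhds hz)
  have han : AnalyticAt ℂ ℘'[L] z := L.analyticOnNhd_derivWeierstrassP z hz
  have han2 : AnalyticAt ℂ ℘[L] z := L.analyticOnNhd_weierstrassP z hz
  have hc1 : ContinuousAt (deriv ℘'[L]) z := han.deriv.continuousAt
  have hc2 : ContinuousAt (fun u => 6 * ℘[L] u ^ 2 - L.g₂ / 2) z :=
    ((han2.pow 2).continuousAt.const_mul 6).sub continuousAt_const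
  have hev : ∀ᶠ u in 𝓝[≠] z, deriv ℘'[L] u = 6 * ℘[L] u ^ 2 - L.g₂ / 2 := by
    have h1 : ∀ᶠ u in 𝓝[≠] z, 2 * u ∉ L.lattice := by
      have h2 : ((L.lattice : Set ℂ) \ {2 * z})ᶜ ∈ 𝓝 (2 * z) :=
        L.compl_lattice_sdiff_singleton_mem_nhds (2 * z)
      have h3 : Tendsto (fun u : ℂ => 2 * u) (𝓝 z) (𝓝 (2 * z)) :=
        (by fun_prop : Continuous fun u : ℂ => 2 * u).tendsto z
      have h4 := h3.eventually h2
      filter_upwards [h4.filter_mono nhdsWithin_le_nhds, self_mem_nhdsWithin] with u hu hu'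
      intro h5
      apply hu
      refine ⟨h5, ?_⟩
      intro h6
      have h7 : 2 * u = 2 * z := h6
      exact hu' (mul_left_cancel₀ two_ne_zero h7)
    filter_upwards [h1] with u hu
    exact (hasDerivAt_wp' L hu).deriv
  have h5 : Tendsto (deriv ℘'[L]) (𝓝[≠] z) (𝓝 (deriv ℘'[L] z)) :=
    hc1.tendsto.mono_left nhdsWithin_le_nhds
  have h6 : Tendsto (deriv ℘'[L]) (𝓝[≠] z) (𝓝 (6 * ℘[L] z ^ 2 - L.g₂ / 2)) :=
    (hc2.tendsto.mono_left nhdsWithin_le_nhds).congr' (hev.mono fun u hu => hu.symm)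
  rw [← tendsto_nhds_unique h5 h6]
  exact hd.hasDerivAt

variable {t : ℂ}

/-- lattice points as pairs of integers -/
def eqv (_ : 0 < t.im) : (Fin 2 → ℤ) ≃ (LC t).lattice :=
  ((finTwoArrowEquiv ℤ).trans (Equiv.prodComm ℤ ℤ)).trans (LC t).latticeEquivProd.symm.toEquiv

theorem eqv_apply (ht : 0 < t.im) (x : Fin 2 → ℤ) : ((eqv ht x : (LC t).lattice) : ℂ) = wx x t := by
  change (((LC t).latticeEquivProd.symm (x 1, x 0) : (LC t).lattice) : ℂ) = _
  rw [PeriodPair.latticeEquiv_symm_apply, LC_ω₂ ht, LC_ω₁, wx]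
  simp
  ring

theorem notMem_iff (ht : 0 < t.im) {z : ℂ} : z ∉ (LC t).lattice ↔ ∀ x, z ≠ wx x t := by
  constructor
  · intro h x hx
    apply h
    rw [hx, ← eqv_apply ht]
    exact Subtype.prop _
  · intro h hz
    obtain ⟨x, hx⟩ := (eqv ht).surjective ⟨z, hz⟩
    apply h x
    rw [← eqv_apply ht, hx]

theorem zeta_eq (ht : 0 < t.im) (z : ℂ) : zeta (LC t) z = Zs Set.univ t z := by
  unfold zeta Zs
  rw [← (eqv ht).tsum_eq]
  refine tsum_congr (fun x => ?_)
  rw [Set.indicator_of_mem (Set.mem_univ x), eqv_apply, Tx]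

theorem SH_zeta (ht : 0 < t.im) {z : ℂ} (hz : z ∉ (LC t).lattice) :
    SH (fun t z => zeta (LC t) z) (t, z) := by
  refine (SH_Zs ht (S := Set.univ) (fun x _ => (notMem_iff ht).1 hz x)).congr ?_
  have hc : Continuous fun q : ℂ × ℂ => q.1.im := Complex.continuous_im.comp continuous_fst
  filter_upwards [hc.continuousAt.eventually (lt_mem_nhds (b := (t, z).1.im) ht)] with q hq
  exact (zeta_eq hq _).symm

/-- the regular part of the zeta function -/
def Rg (t z : ℂ) : ℂ := Zs {x | x ≠ 0} t z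

theorem SH_Rg (ht : 0 < t.im) : SH Rg (t, 0) := by
  refine SH_Zs ht (S := {x | x ≠ 0}) (fun x hx h => ?_)
  exact wx_ne hx ht h.symm

theorem zeta_Rg (ht : 0 < t.im) {z : ℂ} (hz : z ∉ (LC t).lattice) :
    zeta (LC t) z = 1 / z + Rg t z := by
  classical
  obtain ⟨u, hu, hev⟩ := exists_bound ht (S := Set.univ) (z₀ := z)
    (fun x _ => (notMem_iff ht).1 hz x)
  have hs : Summable fun x => Tx x t z :=
    Summable.of_norm_bounded hu (fun x => (hev.self_of_nhds.2 x (Set.mem_univ x)).2)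
  rw [zeta_eq ht]
  unfold Zs Rg Zs
  simp only [Set.indicator_univ]
  rw [hs.tsum_eq_add_tsum_ite 0]
  congr 1
  · simp [Tx, wx]
  · refine tsum_congr (fun x => ?_)
    by_cases hx : x = 0
    · simp [hx]
    · rw [if_neg hx, Set.indicator_of_mem (by exact hx)]

theorem eventually_notMem (ht : 0 < t.im) {z : ℂ} (hz : z ∉ (LC t).lattice) :
    ∀ᶠ q : ℂ × ℂ in 𝓝 (t, z), 0 < q.1.im ∧ q.2 ∉ (LC q.1).lattice := by
  obtain ⟨u, hu, hev⟩ := exists_bound ht (S := Set.univ) (z₀ := z)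
    (fun x _ => (notMem_iff ht).1 hz x)
  filter_upwards [hev] with q hq
  exact ⟨hq.1, (notMem_iff hq.1).2 (fun x => (hq.2 x (Set.mem_univ x)).1)⟩

theorem eventually_notMem' (ht : 0 < t.im) {z : ℂ} (hz : z ∉ (LC t).lattice) :
    ∀ᶠ s : ℂ in 𝓝 t, 0 < s.im ∧ z ∉ (LC s).lattice := by
  have hc : ContinuousAt (fun s : ℂ => ((s, z) : ℂ × ℂ)) t := by fun_prop
  exact hc.eventually (eventually_notMem ht hz)

/-- the derivative in `t` -/
def Ht (t z : ℂ) : ℂ := deriv (fun s => zeta (LC s) z) t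

theorem hasDerivAt_t (ht : 0 < t.im) {z : ℂ} (hz : z ∉ (LC t).lattice) :
    HasDerivAt (fun s => zeta (LC s) z) (Ht t z) t :=
  (SH_zeta ht hz).d1.hasDerivAt

theorem fderiv_zeta (ht : 0 < t.im) {z : ℂ} (hz : z ∉ (LC t).lattice) :
    HasFDerivAt (fun q : ℂ × ℂ => zeta (LC q.1) q.2)
      (Ht t z • ContinuousLinearMap.fst ℂ ℂ ℂ + (-℘[LC t] z) • ContinuousLinearMap.snd ℂ ℂ ℂ)
      (t, z) := by
  have h1 := (SH_zeta ht hz).strict.hasFDerivAt
  refine h1.congr_fderiv ?_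
  have h2 : deriv (zeta (LC t)) z = -℘[LC t] z := (hasDerivAt_zeta (LC t) hz).deriv
  simp only
  rw [h2]
  rfl

/-- the derivative of `℘` in `t` -/
theorem hasDerivAt_wp_t (ht : 0 < t.im) {z : ℂ} (hz : z ∉ (LC t).lattice) :
    DifferentiableAt ℂ (Ht t) z ∧ HasDerivAt (fun s => ℘[LC s] z) (-deriv (Ht t) z) t := by
  obtain ⟨h1, h2⟩ := (SH_zeta ht hz).mixed
  refine ⟨h1, ?_⟩
  refine h2.fun_neg.congr_of_eventuallyEq ?_
  filter_upwards [eventually_notMem' ht hz] with s hs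
  have := (hasDerivAt_zeta (LC s) hs.2).deriv
  rw [this, neg_neg]

theorem SH_wp (ht : 0 < t.im) {z : ℂ} (hz : z ∉ (LC t).lattice) :
    SH (fun t z => ℘[LC t] z) (t, z) := by
  have h1 := (SH_zeta ht hz).deriv2
  have h2 : SH (fun t z => -deriv (fun z => zeta (LC t) z) z) (t, z) := by
    filter_upwards [h1] with q hq
    exact ⟨hq.1.neg, hq.2.1.neg, hq.2.2.neg⟩
  refine h2.congr ?_
  filter_upwards [eventually_notMem ht hz] with q hq
  have := (hasDerivAt_zeta (LC q.1) hq.2).deriv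
  rw [this, neg_neg]

/-- the derivative of `℘'` in `t` -/
theorem hasDerivAt_wp'_t (ht : 0 < t.im) {z : ℂ} (hz : z ∉ (LC t).lattice) :
    HasDerivAt (fun s => ℘'[LC s] z) (deriv (fun w => deriv (fun s => ℘[LC s] w) t) z) t := by
  have h2 := (SH_wp ht hz).mixed.2
  refine h2.congr_of_eventuallyEq ?_
  filter_upwards [eventually_notMem' ht hz] with s hs
  rw [(LC s).deriv_weierstrassP]

theorem SH_wp' (ht : 0 < t.im) {z : ℂ} (hz : z ∉ (LC t).lattice) :
    SH (fun t z => ℘'[LC t] z) (t, z) := by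
  refine (SH_wp ht hz).deriv2.congr ?_
  filter_upwards [eventually_notMem ht hz] with q hq
  rw [(LC q.1).deriv_weierstrassP]

theorem one_mem (ht : 0 < t.im) : (1 : ℂ) ∈ (LC t).lattice :=
  (mem_LC ht).2 ⟨1, 0, by simp⟩

theorem t_mem (ht : 0 < t.im) : t ∈ (LC t).lattice :=
  (mem_LC ht).2 ⟨0, 1, by simp⟩

theorem eta_mn (ht : 0 < t.im) (m n : ℤ) :
    eta (LC t) ((m : ℂ) + n * t) = m * h1 t + n * h2 t := by
  have e1 : (m : ℂ) = m * 1 := by ring
  have m1 : (m : ℂ) * 1 ∈ (LC t).lattice := (mem_LC ht).2 ⟨m, 0, by simp⟩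
  have m2 : (n : ℂ) * t ∈ (LC t).lattice := (mem_LC ht).2 ⟨0, n, by simp⟩
  rw [e1, eta_add _ m1 m2, eta_zsmul _ (one_mem ht), eta_zsmul _ (t_mem ht), h1, h2]
  ring

theorem exists_nm (L : PeriodPair) : ∃ z, z ∉ L.lattice := by
  obtain ⟨z, hz, -⟩ := exists_wp_eq L 0
  exact ⟨z, hz⟩

/-- the derivative of `ζ(z + m + n t)` -/
theorem hasDerivAt_shift (ht : 0 < t.im) {z : ℂ} (hz : z ∉ (LC t).lattice) (m n : ℤ) :
    HasDerivAt (fun s => zeta (LC s) (z + (m + n * s)))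
      (Ht t (z + (m + n * t)) - n * ℘[LC t] z) t := by
  have hm : (m : ℂ) + n * t ∈ (LC t).lattice := (mem_LC ht).2 ⟨m, n, rfl⟩
  have hz' : z + (m + n * t) ∉ (LC t).lattice := fun h => hz ((add_mem_iff _ hm).1 h)
  have h1 := fderiv_zeta ht hz'
  have h2 : HasDerivAt (fun s : ℂ => ((s, z + (m + n * s)) : ℂ × ℂ)) ((1, (n : ℂ)) : ℂ × ℂ) t := by
    refine (hasDerivAt_id t).prodMk ?_
    have := (((hasDerivAt_id t).const_mul (n : ℂ)).const_add (m : ℂ)).const_add z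
    simpa using this
  have h3 := h1.comp_hasDerivAt t h2
  refine h3.congr_deriv ?_
  have h4 : ℘[LC t] (z + (m + n * t)) = ℘[LC t] z :=
    (LC t).weierstrassP_add_coe z ⟨_, hm⟩
  simp only [_root_.add_apply, _root_.smul_apply,
    ContinuousLinearMap.coe_fst', ContinuousLinearMap.coe_snd', h4, smul_eq_mul]
  ring

theorem zeta_shift (ht : 0 < t.im) {z : ℂ} (hz : z ∉ (LC t).lattice) (m n : ℤ) :
    zeta (LC t) (z + (m + n * t)) = zeta (LC t) z + (m * h1 t + n * h2 t) := by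
  have hm : (m : ℂ) + n * t ∈ (LC t).lattice := (mem_LC ht).2 ⟨m, n, rfl⟩
  rw [zeta_add_coe _ hz hm, eta_mn ht]

theorem hasDerivAt_mn (ht : 0 < t.im) {z : ℂ} (hz : z ∉ (LC t).lattice) (m n : ℤ) :
    HasDerivAt (fun s => (m : ℂ) * h1 s + n * h2 s)
      (Ht t (z + (m + n * t)) - n * ℘[LC t] z - Ht t z) t := by
  have h3 := (hasDerivAt_shift ht hz m n).sub (hasDerivAt_t ht hz)
  refine h3.congr_of_eventuallyEq ?_
  filter_upwards [eventually_notMem' ht hz] with s hs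
  simp only [Pi.sub_apply]
  rw [zeta_shift hs.1 hs.2]
  ring

theorem diff_h1 (ht : 0 < t.im) : DifferentiableAt ℂ h1 t := by
  obtain ⟨z, hz⟩ := exists_nm (LC t)
  have := (hasDerivAt_mn ht hz 1 0).differentiableAt
  simpa using this

theorem diff_h2 (ht : 0 < t.im) : DifferentiableAt ℂ h2 t := by
  obtain ⟨z, hz⟩ := exists_nm (LC t)
  have := (hasDerivAt_mn ht hz 0 1).differentiableAt
  simpa using this

/-- **quasi-periodicity** -/
theorem Ht_shift (ht : 0 < t.im) {z : ℂ} (hz : z ∉ (LC t).lattice) (m n : ℤ) :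
    Ht t (z + (m + n * t)) = Ht t z + n * ℘[LC t] z + (m * deriv h1 t + n * deriv h2 t) := by
  have e1 := hasDerivAt_mn ht hz m n
  have e2 := (((diff_h1 ht).hasDerivAt.const_mul (m : ℂ)).add
    ((diff_h2 ht).hasDerivAt.const_mul (n : ℂ)))
  have e3 := e1.unique e2
  linear_combination e3

theorem Wc_ne (ht : 0 < t.im) : Wc t ≠ 0 := by
  have := Pool.Agent.TH813.Ell.leg_ne (LC t)
  rw [LC_ω₁, LC_ω₂ ht, one_mul] at this
  exact this

theorem Ht_neg (t z : ℂ) : Ht t (-z) = -Ht t z := by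
  unfold Ht
  have : (fun s => zeta (LC s) (-z)) = fun s => -zeta (LC s) z := by
    funext s
    exact zeta_neg (LC s) z
  rw [this, deriv.fun_neg]

end Pool.Agent.Y685.H2
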