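import Pool.Agent.H73.G.R8.Y685.Base

/-!
# Statements of the independent tasks
-/

set_option autoImplicit false

open Filter UpperHalfPlane
open scoped Topology PeriodPair

noncomputable section

namespace Pool.Agent.Y685

open H667R3 Pool.Agent.W245.EB

/-- A1: the derivative of `ζ` in the lattice and the point -/
def S_A1 : Prop := ∀ t z : ℂ, 0 < t.im → z ∉ (LC t).lattice →
  HasFDerivAt (fun p : ℂ × ℂ => zeta (LC p.1) p.2)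
    ((al t * (z * ℘[LC t] z - zeta (LC t) z) +
        be t * (℘'[LC t] z / 2 + zeta (LC t) z * ℘[LC t] z - (LC t).g₂ / 12 * z)) •
      ContinuousLinearMap.fst ℂ ℂ ℂ - ℘[LC t] z • ContinuousLinearMap.snd ℂ ℂ ℂ) (t, z)

/-- A2: the derivative of `℘` -/
def S_A2 : Prop := ∀ t z : ℂ, 0 < t.im → z ∉ (LC t).lattice →
  HasFDerivAt (fun p : ℂ × ℂ => ℘[LC p.1] p.2)
    ((-2 * al t * ℘[LC t] z + be t * ((LC t).g₂ / 3 - 2 * ℘[LC t] z ^ 2) -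
        (al t * z + be t * zeta (LC t) z) * ℘'[LC t] z) •
      ContinuousLinearMap.fst ℂ ℂ ℂ + ℘'[LC t] z • ContinuousLinearMap.snd ℂ ℂ ℂ) (t, z)

/-- A3: the derivative of `℘'` -/
def S_A3 : Prop := ∀ t z : ℂ, 0 < t.im → z ∉ (LC t).lattice →
  HasFDerivAt (fun p : ℂ × ℂ => ℘'[LC p.1] p.2)
    ((-3 * al t * ℘'[LC t] z - 3 * be t * (℘[LC t] z * ℘'[LC t] z) -
        (al t * z + be t * zeta (LC t) z) * (6 * ℘[LC t] z ^ 2 - (LC t).g₂ / 2)) •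
      ContinuousLinearMap.fst ℂ ℂ ℂ +
      (6 * ℘[LC t] z ^ 2 - (LC t).g₂ / 2) • ContinuousLinearMap.snd ℂ ℂ ℂ) (t, z)

/-- A4: the derivatives of the quasi-period of `1`, of `g₂`, `g₃`, and of Legendre's constant -/
def S_A4 : Prop := ∀ t : ℂ, 0 < t.im →
  HasDerivAt h1 (be t * h1 t ^ 2 - be t * (LC t).g₂ / 12) t ∧
  HasDerivAt (fun s => (LC s).g₂) (-4 * al t * (LC t).g₂ - 6 * be t * (LC t).g₃) t ∧
  HasDerivAt (fun s => (LC s).g₃) (-6 * al t * (LC t).g₃ - be t * (LC t).g₂ ^ 2 / 3) t ∧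
  HasDerivAt Wc 0 t ∧ Wc t ≠ 0

/-- D: Mahler's theorem, `τ, η₁, g₂, g₃` are algebraically independent functions -/
def S_D : Prop := ∀ P : MvPolynomial (Fin 4) ℂ, P ≠ 0 →
  ∃ τ : ℍ, MvPolynomial.eval ![(τ : ℂ), h1 τ, (LC τ).g₂, (LC τ).g₃] P ≠ 0

/-- E2: multivalued holomorphic modular forms of weight `-1` (their squares, of weight `-2`) of
moderate growth which do not take the values `± 1, ± 2, …` vanish -/
def S_E2 : Prop := ∀ (d : ℕ) (X : Set ℍ) (F : ℍ → Fin d → ℂ),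
  -- `X` is closed, discrete, stable and has bounded imaginary parts
  IsClosed X → (∀ τ : ℍ, ∀ᶠ t in 𝓝[≠] τ, t ∉ X) → (∀ (γ : Matrix.SpecialLinearGroup (Fin 2) ℤ),
    ∀ τ ∈ X, γ • τ ∈ X) → (∃ T : ℝ, ∀ τ ∈ X, τ.im ≤ T) →
  -- local branches: the values are squares of holomorphic functions
  (∀ τ₁ : ℍ, τ₁ ∉ X → ∃ φ : Fin d → ℂ → ℂ, (∀ i, AnalyticAt ℂ (φ i) (τ₁ : ℂ)) ∧
    ∀ᶠ t : ℍ in 𝓝 τ₁, ∃ e : Equiv.Perm (Fin d), ∀ i, F t (e i) = φ i t ^ 2) →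
  -- weight `-2` as unordered tuples
  (∀ (γ : Matrix.SpecialLinearGroup (Fin 2) ℤ) (τ : ℍ), τ ∉ X → ∃ e : Equiv.Perm (Fin d),
    ∀ i, F (γ • τ) (e i) = (denom γ τ) ^ (-2 : ℤ) * F τ i) →
  -- moderate growth at the points of `X` and at the cusp
  (∀ τ₁ ∈ X, ∃ (C : ℝ) (m : ℕ), ∀ᶠ t : ℍ in 𝓝[≠] τ₁, ∀ i,
    ‖F t i‖ ≤ C * ‖(t : ℂ) - τ₁‖ ^ (-(m : ℤ))) →
  (∃ C T : ℝ, ∀ τ : ℍ, T ≤ τ.im → ∀ i, ‖F τ i‖ ≤ Real.exp (C * τ.im)) →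
  -- omitted values
  (∀ τ : ℍ, τ ∉ X → ∀ i, ∀ M : ℕ, 0 < M → F τ i ≠ (M : ℂ) ^ 2) →
  ∀ τ : ℍ, τ ∉ X → ∀ i, F τ i = 0

end Pool.Agent.Y685
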