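import Mathlib
import Pool.Agent.H73.G.R8.Y685.TauA

/-!
# The derivative of zeta in the lattice
-/

set_option autoImplicit false

open Filter Metric UpperHalfPlane
open scoped Topology Uniformity PeriodPair

noncomputable section

namespace Pool.Agent.Y685.H2

open H667R3 Pool.Agent.W245.EB Pool.Agent.Y685

variable {t : ℂ}

/-- the expected derivative of `ζ` -/
def Kt (t z : ℂ) : ℂ := al t * (z * ℘[LC t] z - zeta (LC t) z) +
  be t * (℘'[LC t] z / 2 + zeta (LC t) z * ℘[LC t] z - (LC t).g₂ / 12 * z)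

/-- its derivative in `z` -/
def Kt' (t z : ℂ) : ℂ := al t * (2 * ℘[LC t] z + z * ℘'[LC t] z) +
  be t * (2 * ℘[LC t] z ^ 2 - (LC t).g₂ / 3 + zeta (LC t) z * ℘'[LC t] z)

/-- its second derivative in `z` -/
def Kt'' (t z : ℂ) : ℂ := al t * (3 * ℘'[LC t] z + z * (6 * ℘[LC t] z ^ 2 - (LC t).g₂ / 2)) +
  be t * (3 * (℘[LC t] z * ℘'[LC t] z) + zeta (LC t) z * (6 * ℘[LC t] z ^ 2 - (LC t).g₂ / 2))

theorem hasDerivAt_Kt {z : ℂ} (hz : z ∉ (LC t).lattice) : HasDerivAt (Kt t) (Kt' t z) z := by
  have a := hasDerivAt_zeta (LC t) hz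
  have b := hasDerivAt_weierstrassP (LC t) hz
  have c := hasDerivAt_wp'_all (LC t) hz
  have e := (((hasDerivAt_id z).mul b).sub a).const_mul (al t)
  have f := (((c.div_const 2).add (a.mul b)).sub
    ((hasDerivAt_id z).const_mul ((LC t).g₂ / 12))).const_mul (be t)
  refine (e.add f).congr_deriv ?_
  simp only [id_eq]
  unfold Kt'
  ring

theorem hasDerivAt_Kt' {z : ℂ} (hz : z ∉ (LC t).lattice) : HasDerivAt (Kt' t) (Kt'' t z) z := by
  have a := hasDerivAt_zeta (LC t) hz
  have b := hasDerivAt_weierstrassP (LC t) hz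
  have c := hasDerivAt_wp'_all (LC t) hz
  have e := ((b.const_mul 2).add ((hasDerivAt_id z).mul c)).const_mul (al t)
  have f := ((((b.fun_pow 2).const_mul 2).sub_const ((LC t).g₂ / 3)).add (a.mul c)).const_mul (be t)
  refine (e.add f).congr_deriv ?_
  simp only [id_eq]
  unfold Kt''
  push_cast
  ring

theorem albe (ht : 0 < t.im) (m n : ℤ) :
    al t * ((m : ℂ) + n * t) + be t * (m * h1 t + n * h2 t) = n := by
  have h0 := Wc_ne ht
  have e1 : be t * Wc t = 1 := by
    unfold be
    field_simp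
  have e2 : be t * (h2 t - t * h1 t) = 1 := e1
  unfold al
  linear_combination (n : ℂ) * e2

theorem Kt_shift (ht : 0 < t.im) {z : ℂ} (hz : z ∉ (LC t).lattice) (m n : ℤ) :
    Kt t (z + (m + n * t)) = Kt t z + n * ℘[LC t] z - al t * (m * h1 t + n * h2 t) -
      be t * ((LC t).g₂ / 12) * (m + n * t) := by
  have hm : (m : ℂ) + n * t ∈ (LC t).lattice := (mem_LC ht).2 ⟨m, n, rfl⟩
  have e1 : ℘[LC t] (z + (m + n * t)) = ℘[LC t] z := (LC t).weierstrassP_add_coe z ⟨_, hm⟩
  have e2 : ℘'[LC t] (z + (m + n * t)) = ℘'[LC t] z := (LC t).derivWeierstrassP_add_coe z ⟨_, hm⟩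
  unfold Kt
  rw [e1, e2, zeta_shift ht hz]
  linear_combination ℘[LC t] z * albe ht m n

/-- analytic extension at zero -/
theorem exists_ext (ht : 0 < t.im) : ∃ G₀ : ℂ → ℂ, (∀ᶠ z in 𝓝 (0 : ℂ), DifferentiableAt ℂ G₀ z) ∧
    ∀ᶠ z in 𝓝[≠] (0 : ℂ), Ht t z - Kt t z = G₀ z := by
  classical
  obtain ⟨r, hr, hb⟩ := (SH_Rg ht).ball
  have hnm : ∀ᶠ z in 𝓝[≠] (0 : ℂ), z ∉ (LC t).lattice := by
    filter_upwards [self_mem_nhdsWithin, mem_nhdsWithin_of_mem_nhds
      ((LC t).compl_lattice_sdiff_singleton_mem_nhds 0)] with w hw hw'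
    simp_all
  set R : ℂ → ℂ := Rg t with hR
  have hRd : DifferentiableOn ℂ R (ball 0 r) := fun z hz =>
    (hb t (mem_ball_self hr) z hz).d2.differentiableWithinAt
  have hR1 : DifferentiableOn ℂ (deriv R) (ball 0 r) := hRd.deriv isOpen_ball
  have hR2 : DifferentiableOn ℂ (deriv (deriv R)) (ball 0 r) := hR1.deriv isOpen_ball
  have hHR : DifferentiableOn ℂ (fun z => deriv (fun s => Rg s z) t) (ball 0 r) := fun z hz =>
    (hb t (mem_ball_self hr) z hz).mixed.1.differentiableWithinAt
  -- oddness of `R`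
  have hRodd : ∀ᶠ z in 𝓝[≠] (0 : ℂ), R (-z) = -R z := by
    filter_upwards [hnm] with z hz
    have e1 := zeta_Rg ht hz
    have hz' : -z ∉ (LC t).lattice := fun h => hz (by simpa using neg_mem h)
    have e2 := zeta_Rg ht hz'
    rw [zeta_neg, e1, div_neg] at e2
    linear_combination -e2
  have hR0 : R 0 = 0 := by
    have c1 : ContinuousAt R 0 :=
      (hRd.differentiableAt (ball_mem_nhds _ hr)).continuousAt
    have c2 : Tendsto (fun z => R (-z)) (𝓝[≠] (0 : ℂ)) (𝓝 (R 0)) := by
      have h1 : Tendsto (fun z : ℂ => -z) (𝓝[≠] (0 : ℂ)) (𝓝 0) := by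
        have : Tendsto (fun z : ℂ => -z) (𝓝 (0 : ℂ)) (𝓝 (-0)) := continuous_neg.tendsto 0
        rw [neg_zero] at this
        exact this.mono_left nhdsWithin_le_nhds
      exact c1.tendsto.comp h1
    have c3 : Tendsto (fun z => -R z) (𝓝[≠] (0 : ℂ)) (𝓝 (-R 0)) :=
      (c1.tendsto.mono_left nhdsWithin_le_nhds).neg
    have c4 := tendsto_nhds_unique (c2.congr' hRodd) c3
    linear_combination c4 / 2
  set T : ℂ → ℂ := dslope R 0 with hT
  have hTd : DifferentiableOn ℂ T (ball 0 r) :=
    (Complex.differentiableOn_dslope (ball_mem_nhds _ hr)).2 hRd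
  have hT1 : DifferentiableOn ℂ (deriv T) (ball 0 r) := hTd.deriv isOpen_ball
  refine ⟨fun z => deriv (fun s => Rg s z) t - (al t * (-(z * deriv R z) - R z) + be t *
    (-(deriv (deriv R) z) / 2 - deriv T z - R z * deriv R z - (LC t).g₂ / 12 * z)), ?_, ?_⟩
  · filter_upwards [ball_mem_nhds (0 : ℂ) hr] with z hz
    have hn := isOpen_ball.mem_nhds hz
    have a1 := hHR.differentiableAt hn
    have a2 := hRd.differentiableAt hn
    have a3 := hR1.differentiableAt hn
    have a4 := hR2.differentiableAt hn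
    have a5 := hT1.differentiableAt hn
    exact a1.fun_sub ((((differentiableAt_fun_id.fun_mul a3).fun_neg.fun_sub a2).const_mul _).fun_add
      ((((((a4.fun_neg).div_const 2).fun_sub a5).fun_sub (a2.fun_mul a3)).fun_sub
        (differentiableAt_fun_id.const_mul _)).const_mul _))
  · filter_upwards [hnm, mem_nhdsWithin_of_mem_nhds (ball_mem_nhds (0 : ℂ) hr),
      self_mem_nhdsWithin] with z hz hzb hz0
    have hz0 : z ≠ 0 := hz0
    have hn := isOpen_ball.mem_nhds hzb
    -- the derivative in `t`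
    have b1 : Ht t z = deriv (fun s => Rg s z) t := by
      unfold Ht
      have : (fun s => zeta (LC s) z) =ᶠ[𝓝 t] fun s => 1 / z + Rg s z := by
        filter_upwards [eventually_notMem' ht hz] with s hs
        exact zeta_Rg hs.1 hs.2
      rw [this.deriv_eq, deriv_const_add]
    -- local formulas
    have hnz : ∀ᶠ w in 𝓝 z, w ≠ 0 ∧ w ∉ (LC t).lattice := by
      have h1 := (isOpen_compl (LC t)).mem_nhds hz
      filter_upwards [h1, isOpen_ne.mem_nhds hz0] with w hw hw0
      exact ⟨hw0, hw⟩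
    have f1 : ∀ᶠ w in 𝓝 z, zeta (LC t) w = 1 / w + R w := by
      filter_upwards [hnz] with w hw
      exact zeta_Rg ht hw.2
    have hinv : ∀ w : ℂ, w ≠ 0 → HasDerivAt (fun w : ℂ => 1 / w) (-(1 / w ^ 2)) w := by
      intro w hw
      have := hasDerivAt_inv hw
      simp only [one_div]
      exact this
    have f2 : ∀ᶠ w in 𝓝 z, ℘[LC t] w = 1 / w ^ 2 - deriv R w := by
      filter_upwards [hnz, f1.eventually_nhds, hn] with w hw hw2 hwb
      have c1 := (hasDerivAt_zeta (LC t) hw.2).deriv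
      have c2 : deriv (zeta (LC t)) w = deriv (fun w => 1 / w + R w) w :=
        Filter.EventuallyEq.deriv_eq hw2
      have c3 := ((hinv w hw.1).add ((hRd.differentiableAt (isOpen_ball.mem_nhds hwb)).hasDerivAt))
      have c4 : deriv (fun w => 1 / w + R w) w = -(1 / w ^ 2) + deriv R w := c3.deriv
      rw [c1, c4] at c2
      linear_combination -c2
    have f3 : ℘'[LC t] z = -2 / z ^ 3 - deriv (deriv R) z := by
      have c2 : deriv ℘[LC t] z = deriv (fun w => 1 / w ^ 2 - deriv R w) z :=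
        Filter.EventuallyEq.deriv_eq f2
      have c5 : HasDerivAt (fun w : ℂ => 1 / w ^ 2) (-2 / z ^ 3) z := by
        have h5 := (hasDerivAt_pow 2 z).fun_inv (pow_ne_zero 2 hz0)
        simp only [one_div]
        refine h5.congr_deriv ?_
        field_simp
        push_cast
        ring
      have c3 := c5.sub ((hR1.differentiableAt hn).hasDerivAt)
      have c4 : deriv (fun w => 1 / w ^ 2 - deriv R w) z = -2 / z ^ 3 - deriv (deriv R) z :=
        c3.deriv
      rw [(LC t).deriv_weierstrassP, c4] at c2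
      exact c2
    have f4 : deriv T z = deriv R z / z - R z / z ^ 2 := by
      have c1 : T =ᶠ[𝓝 z] fun w => R w / w := by
        filter_upwards [hnz] with w hw
        rw [hT, dslope_of_ne _ hw.1, slope_def_field, hR0, sub_zero, sub_zero]
      rw [c1.deriv_eq]
      have c2 := ((hRd.differentiableAt hn).hasDerivAt).div (hasDerivAt_id z) hz0
      have c3 : deriv (fun w => R w / w) z = (deriv R z * z - R z * 1) / z ^ 2 := c2.deriv
      rw [c3]
      field_simp
    rw [b1, f4]
    unfold Kt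
    rw [f1.self_of_nhds, f2.self_of_nhds, f3]
    field_simp
    ring

/-- the derivative of `ζ` up to a linear function -/
theorem exists_kappa (ht : 0 < t.im) :
    ∃ κ : ℂ, ∀ z, z ∉ (LC t).lattice → Ht t z = Kt t z + κ * z := by
  set G : ℂ → ℂ := fun z => Ht t z - Kt t z with hG
  have hGd : ∀ z, z ∉ (LC t).lattice → DifferentiableAt ℂ G z := fun z hz =>
    (hasDerivAt_wp_t ht hz).1.sub (hasDerivAt_Kt hz).differentiableAt
  have hGon : DifferentiableOn ℂ G ((LC t).lattice : Set ℂ)ᶜ := fun z hz =>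
    (hGd z hz).differentiableWithinAt
  have hopen := isOpen_compl (LC t)
  have hG1 : DifferentiableOn ℂ (deriv G) ((LC t).lattice : Set ℂ)ᶜ := hGon.deriv hopen
  obtain ⟨G₀, hG₀, heq⟩ := exists_ext ht
  have hshift : ∀ l ∈ (LC t).lattice, ∃ c : ℂ, ∀ z, z ∉ (LC t).lattice → G (z + l) = G z + c := by
    intro l hl
    obtain ⟨m, n, rfl⟩ := (mem_LC ht).1 hl
    refine ⟨m * deriv h1 t + n * deriv h2 t + al t * (m * h1 t + n * h2 t) +
      be t * ((LC t).g₂ / 12) * (m + n * t), fun z hz => ?_⟩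
    simp only [hG]
    rw [Ht_shift ht hz, Kt_shift ht hz]
    ring
  have hper : ∀ z, z ∉ (LC t).lattice → ∀ l ∈ (LC t).lattice,
      deriv G (z + l) = deriv G z := by
    intro z hz l hl
    obtain ⟨c, hc⟩ := hshift l hl
    have hz' : z + l ∉ (LC t).lattice := fun h => hz ((add_mem_iff _ hl).1 h)
    have e1 : (fun w => G (w + l)) =ᶠ[𝓝 z] fun w => G w + c := by
      filter_upwards [hopen.mem_nhds hz] with w hw
      exact hc w hw
    have e2 := e1.deriv_eq
    rw [deriv_add_const] at e2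
    rw [← e2, deriv_comp_add_const]
  have hconst := eq_of_periodic (LC t) (deriv G)
    (fun z hz => (hG1 z hz).differentiableAt (hopen.mem_nhds hz)) hper (deriv G₀)
    (by
      obtain ⟨r, hr, hb⟩ := Metric.eventually_nhds_iff_ball.1 hG₀
      have : DifferentiableOn ℂ G₀ (ball 0 r) := fun z hz => (hb z hz).differentiableWithinAt
      exact (this.deriv isOpen_ball).differentiableAt (ball_mem_nhds _ hr))
    (by
      filter_upwards [eventually_eventually_nhdsWithin.2 heq, self_mem_nhdsWithin] with z hz hz0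
      have h1 : G =ᶠ[𝓝 z] G₀ := by
        rw [nhdsWithin_eq_nhds.2 (isOpen_compl_singleton.mem_nhds hz0)] at hz
        exact hz
      exact h1.deriv_eq)
  obtain ⟨z₀, hz₀⟩ := exists_nm (LC t)
  set κ := deriv G z₀ with hκ
  have hder : ∀ z, z ∉ (LC t).lattice → HasDerivAt (fun z => G z - κ * z) 0 z := by
    intro z hz
    have h1 := (hGd z hz).hasDerivAt
    rw [hconst z z₀ hz hz₀] at h1
    have h2 := h1.sub ((hasDerivAt_id z).const_mul κ)
    refine h2.congr_deriv ?_
    rw [← hκ]
    ring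
  have hc2 : ∀ z w, z ∉ (LC t).lattice → w ∉ (LC t).lattice → G z - κ * z = G w - κ * w := by
    intro z w hz hw
    exact hopen.is_const_of_deriv_eq_zero (isPreconnected_compl (LC t))
      (fun x hx => (hder x hx).differentiableAt.differentiableWithinAt)
      (fun x hx => (hder x hx).deriv) hz hw
  refine ⟨κ, fun z hz => ?_⟩
  have hz' : -z ∉ (LC t).lattice := fun h => hz (by simpa using neg_mem h)
  have hodd : G (-z) = -G z := by
    simp only [hG]
    rw [Ht_neg]
    unfold Kt
    rw [zeta_neg, (LC t).weierstrassP_neg, (LC t).derivWeierstrassP_neg]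
    ring
  have e1 := hc2 z (-z) hz hz'
  rw [hodd] at e1
  have e2 : G z = κ * z := by linear_combination e1 / 2
  simp only [hG] at e2
  linear_combination e2

end Pool.Agent.Y685.H2
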