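import Mathlib
import Pool.Agent.H73.G.R8.Y119.CB.Ext
import Pool.Agent.H73.G.R8.Y685.TauC

/-!
# Compatible derivations for all but countably many `τ`
-/

set_option autoImplicit false

open Filter UpperHalfPlane
open scoped Topology PeriodPair

noncomputable section

namespace Pool.Agent.Y685

open H667R3 Pool.Agent.W245.EB MvPolynomial

variable {n : ℕ}

section

variable (k : Type) [Field k] [CharZero k]

end

/-- the compatibility of a derivation with the functions at a point -/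
structure Cmp (k : Subfield ℂ) (τ : ℂ) {n : ℕ} (z : Fin n → ℂ) (D : Derivation ℚ ℂ ℂ) : Prop where
  hk : ∀ c ∈ k, D c = 0
  tau : D τ = 1
  h : D (h1 τ) = be τ * h1 τ ^ 2 - be τ * (LC τ).g₂ / 12
  g2 : D (LC τ).g₂ = -4 * al τ * (LC τ).g₂ - 6 * be τ * (LC τ).g₃
  g3 : D (LC τ).g₃ = -6 * al τ * (LC τ).g₃ - be τ * (LC τ).g₂ ^ 2 / 3
  b : D (be τ) = 0
  ze : ∀ i, D (zeta (LC τ) (z i)) = al τ * (z i * ℘[LC τ] (z i) - zeta (LC τ) (z i)) +
    be τ * (℘'[LC τ] (z i) / 2 + zeta (LC τ) (z i) * ℘[LC τ] (z i) - (LC τ).g₂ / 12 * z i) -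
    ℘[LC τ] (z i) * D (z i)
  wp : ∀ i, D (℘[LC τ] (z i)) = -2 * al τ * ℘[LC τ] (z i) +
    be τ * ((LC τ).g₂ / 3 - 2 * ℘[LC τ] (z i) ^ 2) -
    (al τ * z i + be τ * zeta (LC τ) (z i)) * ℘'[LC τ] (z i) + ℘'[LC τ] (z i) * D (z i)

theorem hasDerivAt_be {t : ℂ} (ht : 0 < t.im) : HasDerivAt be 0 t := by
  obtain ⟨-, -, -, h4, h5⟩ := H2.task_A4 t ht
  have := h4.fun_inv h5
  have h6 : HasDerivAt (fun y => (Wc y)⁻¹) 0 t := by
    refine this.congr_deriv ?_
    simp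
  have h7 : be = fun y => (Wc y)⁻¹ := by
    funext y
    unfold be
    rw [one_div]
  rw [h7]
  exact h6

end Pool.Agent.Y685
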