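import Mathlib
import Pool.Agent.H73.G.R8.TH813.EllCore
import Pool.Agent.H73.G.R8.Y685.Comp

/-!
# Flatness of the evaluation of derivations
-/

set_option autoImplicit false

open Filter
open scoped Topology PeriodPair

noncomputable section

namespace Pool.Agent.Y685

open H667R3 Pool.Agent.W245.EB Pool.Agent.TH813.Ell
open Pool.Agent.TH813.Rel (DF)

variable {L : PeriodPair} {D : Derivation ℚ ℂ ℂ}

/-- the constants of a derivation -/
def Cst (D : Derivation ℚ ℂ ℂ) : IntermediateField ℚ ℂ where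
  carrier := {x | D x = 0}
  mul_mem' := by
    intro a b ha hb
    rw [Set.mem_ofPred_eq] at ha hb ⊢
    rw [D_mul, ha, hb, mul_zero, mul_zero, add_zero]
  add_mem' := by
    intro a b ha hb
    rw [Set.mem_ofPred_eq] at ha hb ⊢
    rw [map_add, ha, hb, add_zero]
  algebraMap_mem' := fun r => D.map_algebraMap r
  inv_mem' := by
    intro a ha
    rw [Set.mem_ofPred_eq] at ha ⊢
    rw [Derivation.leibniz_inv, ha, smul_zero]

theorem mem_Cst {x : ℂ} : x ∈ Cst D ↔ D x = 0 := Iff.rfl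

/-- the coefficient of the connection -/
def aa (L : PeriodPair) : ℂ := 3 - L.g₂ / 6

/-- a derivation which is compatible with the variation of a lattice with `g₂ = g₃` -/
structure Nrm (L : PeriodPair) (D : Derivation ℚ ℂ ℂ) : Prop where
  g0 : L.g₂ ≠ 0
  hg : L.g₃ = L.g₂
  hD : D L.g₂ = -(18 - 2 / 3 * L.g₂) * L.g₂
  hω : ∀ ω ∈ L.lattice, D ω = aa L * ω + eta L ω
  hη : ∀ ω ∈ L.lattice, D (eta L ω) = -(aa L) * eta L ω - L.g₂ / 12 * ω

namespace Nrm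

variable (h : Nrm L D)

include h

theorem D2 : D L.g₂ = -4 * aa L * L.g₂ - 6 * 1 * L.g₃ := by
  rw [h.hg, h.hD, aa]
  ring

theorem D3 : D L.g₃ = -6 * aa L * L.g₃ - 1 * L.g₂ ^ 2 / 3 := by
  rw [h.hg, h.hD, aa]
  ring

end Nrm

/-- the points along which the derivation is compatible with the elliptic functions -/
def Cm (h : Nrm L D) : Submodule ℚ ℂ where
  carrier := {z | TT L D (aa L) 1 z = D z - aa L * z ∧ RR L D (aa L) 1 z = -(L.g₂ / 12) * z}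
  add_mem' := by
    rintro a b ⟨h1, h2⟩ ⟨h3, h4⟩
    refine ⟨?_, ?_⟩
    · rw [TT_add D h.D2 h.D3, h1, h3, map_add]; ring
    · rw [RR_add D h.D2 h.D3, h2, h4]; ring
  zero_mem' := by
    have e1 := TT_add D h.D2 h.D3 0 0
    have e2 := RR_add D h.D2 h.D3 0 0
    rw [add_zero] at e1 e2
    refine ⟨?_, ?_⟩
    · rw [map_zero]; linear_combination -e1
    · linear_combination -e2
  smul_mem' := by
    rintro q a ⟨h1, h2⟩
    let fT : ℂ →ₗ[ℚ] ℂ := (AddMonoidHom.mk' (TT L D (aa L) 1) (TT_add D h.D2 h.D3)).toRatLinearMap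
    let fR : ℂ →ₗ[ℚ] ℂ := (AddMonoidHom.mk' (RR L D (aa L) 1) (RR_add D h.D2 h.D3)).toRatLinearMap
    have e1 : TT L D (aa L) 1 (q • a) = q • TT L D (aa L) 1 a := fT.map_smul q a
    have e2 : RR L D (aa L) 1 (q • a) = q • RR L D (aa L) 1 a := fR.map_smul q a
    refine ⟨?_, ?_⟩
    · rw [e1, h1, D.map_smul, smul_sub, ← mul_smul_comm]
    · rw [e2, h2, ← mul_smul_comm]

theorem mem_Cm {h : Nrm L D} {z : ℂ} : z ∈ Cm h ↔
    TT L D (aa L) 1 z = D z - aa L * z ∧ RR L D (aa L) 1 z = -(L.g₂ / 12) * z := Iff.rfl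

theorem lattice_le_Cm (h : Nrm L D) {ω : ℂ} (hω : ω ∈ L.lattice) : ω ∈ Cm h := by
  have h2 := two_mem L hω
  refine ⟨?_, ?_⟩
  · rw [TT, vv_half D _ _ h2, zt_of_mem hω, h.hω ω hω]; ring
  · rw [RR, vv_half D _ _ h2, zt_of_mem hω, h.hη ω hω, wp'_of_half h2]; ring

/-- the derivative of a compatible point -/
theorem D_z {h : Nrm L D} {z : ℂ} (hz : z ∈ Cm h) :
    D z = aa L * z + vv L D (aa L) 1 z + zt L z := by
  have := hz.1
  rw [TT] at this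
  linear_combination -this

theorem D_zt {h : Nrm L D} {z : ℂ} (hz : z ∈ Cm h) :
    D (zt L z) = -(aa L) * zt L z + ℘'[L] z / 2 - vv L D (aa L) 1 z * ℘[L] z - L.g₂ / 12 * z := by
  have := hz.2
  rw [RR] at this
  linear_combination this

variable {δ : Derivation ℚ ℂ ℂ}

theorem δ_aa (h2 : δ L.g₂ = 0) : δ (aa L) = 0 := by
  have h2' : L.g₂ ∈ Cst δ := h2
  have : aa L ∈ Cst δ := sub_mem (ofNat_mem _ 3) (div_mem h2' (ofNat_mem _ 6))
  exact this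

theorem bracket_g (h : Nrm L D) (h2 : δ L.g₂ = 0) : ⁅D, δ⁆ L.g₂ = 0 := by
  have h2' : L.g₂ ∈ Cst δ := h2
  have h3 : -(18 - 2 / 3 * L.g₂) * L.g₂ ∈ Cst δ :=
    mul_mem (neg_mem (sub_mem (ofNat_mem _ 18) (mul_mem (div_mem (ofNat_mem _ 2) (ofNat_mem _ 3))
      h2'))) h2'
  rw [Derivation.commutator_apply, h2, map_zero, h.hD, mem_Cst.1 h3, sub_zero]

theorem g3_of (h : Nrm L D) (h2 : δ L.g₂ = 0) : δ L.g₃ = 0 := by rw [h.hg, h2]

theorem D_half (δ : Derivation ℚ ℂ ℂ) (x : ℂ) : δ (x / 2) = δ x / 2 := by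
  have hD2 : δ (2 : ℂ) = 0 := by exact_mod_cast DD_nat δ 2
  have h1 := congrArg δ (show x / 2 * 2 = x by ring)
  rw [D_mul, hD2] at h1
  linear_combination h1 / 2

theorem D_third (δ : Derivation ℚ ℂ ℂ) (x : ℂ) : δ (x / 3) = δ x / 3 := by
  have hD2 : δ (3 : ℂ) = 0 := by exact_mod_cast DD_nat δ 3
  have h1 := congrArg δ (show x / 3 * 3 = x by ring)
  rw [D_mul, hD2] at h1
  linear_combination h1 / 3

/-- the first flatness relation -/
theorem D_om (h : Nrm L D) (h2 : δ L.g₂ = 0) (z : ℂ) :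
    D (om L δ z) = om L ⁅D, δ⁆ z + aa L * om L δ z - ℘[L] z * om L δ z +
      δ (vv L D (aa L) 1 z) := by
  by_cases hz2 : 2 * z ∈ L.lattice
  · rw [om_of_two_mul_mem L δ hz2, om_of_two_mul_mem L _ hz2, vv_half D _ _ hz2]
    simp
  have hz := two_mul_notMem_of L hz2
  have hy := wp'_ne_zero L hz2
  obtain ⟨a1, a2⟩ := D_wp' D h.D2 h.D3 hz
  obtain ⟨b1, b2⟩ := TH813.Ell.D_wp L δ h2 (g3_of h h2) hz
  have c1 : ⁅D, δ⁆ (℘[L] z) = om L ⁅D, δ⁆ z * ℘'[L] z := by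
    unfold om
    rw [div_mul_cancel₀ _ hy]
  rw [Derivation.commutator_apply, b1, a1] at c1
  have hg3 := h.hg
  have e1 : δ (-2 * aa L * ℘[L] z + 1 * (L.g₂ / 3 - 2 * ℘[L] z ^ 2) +
      vv L D (aa L) 1 z * ℘'[L] z) = -2 * aa L * δ (℘[L] z) - 4 * ℘[L] z * δ (℘[L] z) +
        δ (vv L D (aa L) 1 z) * ℘'[L] z + vv L D (aa L) 1 z * δ (℘'[L] z) := by
    have hm2 : δ (-2 : ℂ) = 0 := by
      rw [map_neg]; have := DD_nat δ 2; push_cast at this; rw [this, neg_zero]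
    have h1 : δ (1 : ℂ) = 0 := by exact_mod_cast DD_nat δ 1
    have h22 : δ (2 : ℂ) = 0 := by exact_mod_cast DD_nat δ 2
    rw [map_add, map_add, D_mul, D_mul, hm2, δ_aa h2, D_mul, h1, map_sub, D_third, h2, D_mul, h22,
      D_pow, D_mul]
    push_cast
    ring
  rw [e1, b1, b2, D_mul, a2] at c1
  apply mul_right_cancel₀ hy
  linear_combination c1

theorem δ_wp' (h : Nrm L D) (h2 : δ L.g₂ = 0) (z : ℂ) :
    δ (℘'[L] z) = om L δ z * (6 * ℘[L] z ^ 2 - L.g₂ / 2) := by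
  by_cases hz2 : 2 * z ∈ L.lattice
  · rw [om_of_two_mul_mem L δ hz2, wp'_of_half hz2, map_zero, zero_mul]
  · exact (TH813.Ell.D_wp L δ h2 (g3_of h h2) (two_mul_notMem_of L hz2)).2

theorem vv_δ_wp (h : Nrm L D) (h2 : δ L.g₂ = 0) (z : ℂ) :
    vv L D (aa L) 1 z * δ (℘[L] z) = vv L D (aa L) 1 z * (om L δ z * ℘'[L] z) := by
  by_cases hz2 : 2 * z ∈ L.lattice
  · rw [vv_half D _ _ hz2, zero_mul, zero_mul]
  · rw [(TH813.Ell.D_wp L δ h2 (g3_of h h2) (two_mul_notMem_of L hz2)).1]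

theorem om_D_wp (h : Nrm L D) (δ : Derivation ℚ ℂ ℂ) (z : ℂ) :
    om L δ z * D (℘[L] z) = om L δ z * (-2 * aa L * ℘[L] z + 1 * (L.g₂ / 3 - 2 * ℘[L] z ^ 2) +
      vv L D (aa L) 1 z * ℘'[L] z) := by
  by_cases hz2 : 2 * z ∈ L.lattice
  · rw [om_of_two_mul_mem L δ hz2, zero_mul, zero_mul]
  · rw [(D_wp' D h.D2 h.D3 (two_mul_notMem_of L hz2)).1]

/-- `D (℘ om)` -/
theorem D_wpom (h : Nrm L D) (h2 : δ L.g₂ = 0) (z : ℂ) :
    D (℘[L] z * om L δ z) = ℘[L] z * om L ⁅D, δ⁆ z - aa L * (℘[L] z * om L δ z) -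
      (3 * ℘[L] z ^ 2 - L.g₂ / 3) * om L δ z + vv L D (aa L) 1 z * (om L δ z * ℘'[L] z) +
      ℘[L] z * δ (vv L D (aa L) 1 z) := by
  rw [D_mul, D_om h h2, om_D_wp h]
  ring

theorem D_δ (D δ : Derivation ℚ ℂ ℂ) (x : ℂ) : D (δ x) = ⁅D, δ⁆ x + δ (D x) := by
  rw [Derivation.commutator_apply]; ring

theorem δ_smul (h2 : δ L.g₂ = 0) (z : ℂ) : δ (L.g₂ / 12 * z) = L.g₂ / 12 * δ z := by
  have h2' : L.g₂ ∈ Cst δ := h2
  have : L.g₂ / 12 ∈ Cst δ := div_mem h2' (ofNat_mem _ 12)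
  rw [D_mul, mem_Cst.1 this, mul_zero, add_zero]

theorem δ_aa_mul (h2 : δ L.g₂ = 0) (z : ℂ) : δ (aa L * z) = aa L * δ z := by
  rw [D_mul, δ_aa h2, mul_zero, add_zero]

/-- **flatness**, first component -/
theorem D_A {h : Nrm L D} (h2 : δ L.g₂ = 0) {z : ℂ} (hz : z ∈ Cm h) :
    D (δ z - om L δ z) = (⁅D, δ⁆ z - om L ⁅D, δ⁆ z) + aa L * (δ z - om L δ z) + et L δ z := by
  rw [map_sub, D_δ, D_z hz, D_om h h2, map_add, map_add, δ_aa_mul h2, et]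
  ring

/-- **flatness**, second component -/
theorem D_B {h : Nrm L D} (h2 : δ L.g₂ = 0) {z : ℂ} (hz : z ∈ Cm h) :
    D (et L δ z) = et L ⁅D, δ⁆ z - L.g₂ / 12 * (δ z - om L δ z) - aa L * et L δ z := by
  have e1 : δ (-(aa L) * zt L z) = -(aa L) * δ (zt L z) := by
    rw [neg_mul, map_neg, δ_aa_mul h2, neg_mul]
  have e2 : δ (vv L D (aa L) 1 z * ℘[L] z) =
      vv L D (aa L) 1 z * (om L δ z * ℘'[L] z) + ℘[L] z * δ (vv L D (aa L) 1 z) := by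
    rw [D_mul, vv_δ_wp h h2]
  rw [et, map_add, D_wpom h h2, D_δ, D_zt hz, map_sub, map_sub, map_add, e1, D_half, δ_wp' h h2,
    e2, δ_smul h2, et]
  ring

end Pool.Agent.Y685
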