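import Mathlib
import Pool.Agent.H73.G.R8.Y685.ConstA

/-!
# `τ, η₁, g₂, g₃` are algebraically independent over the constants
-/

set_option autoImplicit false

open Filter UpperHalfPlane
open scoped Topology PeriodPair

noncomputable section

namespace Pool.Agent.Y685

open H667R3 Pool.Agent.W245.EB MvPolynomial
open Pool.Agent.TH813.Ell (D_mul)

/-- algebraic independence over a countable field outside a countable set -/
theorem algInd_yy (k : Subfield ℂ) (hk : (k : Set ℂ).Countable) :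
    ∃ T : Set ℂ, T.Countable ∧ ∀ τ : ℂ, 0 < τ.im → τ ∉ T → AlgebraicIndependent k (yy τ) := by
  have hk' : Countable k := hk.to_subtype
  refine ⟨⋃ P : {P : MvPolynomial (Fin 4) k // P ≠ 0},
    {t : ℂ | 0 < t.im ∧ aeval (yy t) (MvPolynomial.map (algebraMap k ℂ) P.1) = 0}, ?_,
    fun τ hτ hT => ?_⟩
  · have : Countable (MvPolynomial (Fin 4) k) := by
      rw [← Cardinal.mk_le_aleph0_iff]
      refine (MvPolynomial.cardinalMk_le_max).trans ?_
      simp
    refine Set.countable_iUnion (fun P => countable_zeros_poly ?_)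
    intro h0
    apply P.2
    exact MvPolynomial.map_injective _ (algebraMap k ℂ).injective (by rw [h0, map_zero])
  · rw [algebraicIndependent_iff]
    intro P hP
    by_contra hne
    apply hT
    rw [Set.mem_iUnion]
    refine ⟨⟨P, hne⟩, hτ, ?_⟩
    rw [aeval_map_algebraMap]
    exact hP

section

variable {k : Type} [Field k] [Algebra k ℂ] {D : Derivation ℚ ℂ ℂ} {b : k} {τ : ℂ}

/-- the values of a derivation at the functions -/
structure Dy (D : Derivation ℚ ℂ ℂ) (b : k) (τ : ℂ) : Prop where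
  im : 0 < τ.im
  hb : algebraMap k ℂ b = be τ
  hk : ∀ c : k, D (algebraMap k ℂ c) = 0
  hy : ∀ i, D (yy τ i) = aeval (yy τ) (vf b i)
  ai : AlgebraicIndependent k (yy τ)

theorem Dy.stable (h : Dy D b τ) {x : ℂ}
    (hx : x ∈ IntermediateField.adjoin k (Set.range (yy τ))) :
    D x ∈ IntermediateField.adjoin k (Set.range (yy τ)) := by
  have hP : ∀ P : MvPolynomial (Fin 4) k,
      aeval (yy τ) P ∈ IntermediateField.adjoin k (Set.range (yy τ)) := by
    intro P
    rw [IntermediateField.mem_adjoin_range_iff]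
    exact ⟨P, 1, by rw [map_one, div_one]⟩
  obtain ⟨P, Q, rfl⟩ := (IntermediateField.mem_adjoin_range_iff k _ _).1 hx
  rw [Derivation.leibniz_div, D_poly h.hk h.hy, D_poly h.hk h.hy]
  rw [smul_eq_mul, smul_eq_mul, smul_eq_mul]
  exact mul_mem (pow_mem (inv_mem (hP Q)) 2) (sub_mem (mul_mem (hP Q) (hP _))
    (mul_mem (hP P) (hP _)))

/-- **M1** the constants in the field of the functions -/
theorem Dy.const (h : Dy D b τ) {x : ℂ}
    (hx : x ∈ IntermediateField.adjoin k (Set.range (yy τ))) (hD : D x = 0) :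
    ∃ c : k, algebraMap k ℂ c = x := by
  by_cases hx0 : x = 0
  · exact ⟨0, by rw [map_zero, hx0]⟩
  obtain ⟨P, Q, hPQ⟩ := (IntermediateField.mem_adjoin_range_iff k _ _).1 hx
  have hQ : aeval (yy τ) Q ≠ 0 := by
    intro h0
    rw [h0, div_zero] at hPQ
    exact hx0 hPQ
  have hQ0 : Q ≠ 0 := by
    rintro rfl
    rw [map_zero] at hQ
    exact hQ rfl
  have e1 : aeval (yy τ) P = x * aeval (yy τ) Q := by rw [hPQ, div_mul_cancel₀ _ hQ]
  have e2 := congrArg D e1
  rw [D_mul, hD, D_poly h.hk h.hy, D_poly h.hk h.hy, mul_zero, add_zero] at e2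
  have e3 : aeval (yy τ) (dP b P * Q - P * dP b Q) = 0 := by
    rw [map_sub, map_mul, map_mul, e1]
    linear_combination aeval (yy τ) Q * e2
  have e4 : dP b P * Q - P * dP b Q = 0 := (algebraicIndependent_iff.1 h.ai) _ e3
  have hbt : ∀ t ∈ HP, algebraMap k ℂ b = be t := fun t ht => by
    rw [h.hb]
    exact be_const h.im ht
  have hdP : ∀ t ∈ HP, HasDerivAt (fun s => aeval (yy s) P) (aeval (yy t) (dP b P)) t :=
    fun t ht => hasDerivAt_poly ht (hbt t ht) P
  have hdQ : ∀ t ∈ HP, HasDerivAt (fun s => aeval (yy s) Q) (aeval (yy t) (dP b Q)) t :=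
    fun t ht => hasDerivAt_poly ht (hbt t ht) Q
  -- near `τ`
  have h1 : ∀ᶠ t in 𝓝 τ, t ∈ HP ∧ aeval (yy t) Q ≠ 0 :=
    (isOpen_HP.eventually_mem h.im).and ((hdQ τ h.im).continuousAt.eventually_ne hQ)
  obtain ⟨r, hr, hball⟩ := Metric.eventually_nhds_iff_ball.1 h1
  have h2 : ∀ t ∈ Metric.ball τ r, aeval (yy t) P / aeval (yy t) Q = x := by
    intro t ht
    rw [hPQ]
    refine Metric.isOpen_ball.is_const_of_deriv_eq_zero (f := fun s => aeval (yy s) P /
      aeval (yy s) Q) (convex_ball τ r).isPreconnected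
      (fun s hs => ((hdP s (hball s hs).1).div (hdQ s (hball s hs).1)
        (hball s hs).2).differentiableAt.differentiableWithinAt)
      (fun s hs => ?_) ht (Metric.mem_ball_self hr)
    rw [((hdP s (hball s hs).1).fun_div (hdQ s (hball s hs).1) (hball s hs).2).deriv]
    have e5 := congrArg (aeval (yy s)) e4
    rw [map_sub, map_mul, map_mul, map_zero] at e5
    rw [e5, zero_div]
    rfl
  have h3 : (fun t => aeval (yy t) P - x * aeval (yy t) Q) =ᶠ[𝓝 τ] 0 := by
    filter_upwards [Metric.ball_mem_nhds τ hr] with t ht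
    have := h2 t ht
    rw [div_eq_iff (hball t ht).2] at this
    rw [this]
    exact sub_self _
  have hd : DifferentiableOn ℂ (fun t => aeval (yy t) P - x * aeval (yy t) Q) HP := fun t ht =>
    ((hdP t ht).sub ((hdQ t ht).const_mul x)).differentiableAt.differentiableWithinAt
  have h4 := (hd.analyticOnNhd isOpen_HP).eqOn_zero_of_preconnected_of_eventuallyEq_zero
    convex_HP.isPreconnected h.im h3
  have h5 : MvPolynomial.map (algebraMap k ℂ) P - C x * MvPolynomial.map (algebraMap k ℂ) Q = 0 := by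
    by_contra hne
    obtain ⟨s, hs⟩ := Pool.Agent.Y119.MD.task_D _ hne
    apply hs
    have h6 := h4 s.im_pos
    change eval (yy s) _ = 0
    rw [map_sub, map_mul, eval_C, ← aeval_eq_eval]
    have e6 : ∀ R : MvPolynomial (Fin 4) k,
        aeval (yy s) (MvPolynomial.map (algebraMap k ℂ) R) = aeval (yy s) R :=
      fun R => aeval_map_algebraMap ℂ _ _
    rw [e6, e6]
    exact h6
  obtain ⟨m, hm⟩ := MvPolynomial.ne_zero_iff.1 hQ0
  have e7 := congrArg (coeff m) h5
  rw [coeff_sub, coeff_C_mul, coeff_map, coeff_map, coeff_zero] at e7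
  refine ⟨coeff m P / coeff m Q, ?_⟩
  rw [map_div₀, div_eq_iff ((map_ne_zero _).2 hm)]
  linear_combination e7

/-- **M2** the functions are algebraically independent over the constants -/
theorem Dy.algInd (h : Dy D b τ) : AlgebraicIndependent (Cst D) (yy τ) := by
  classical
  rw [algebraicIndependent_iff]
  intro P hP
  by_contra hne
  set F := IntermediateField.adjoin k (Set.range (yy τ)) with hF
  -- the monomials
  let f : P.support → ℂ := fun m => aeval (yy τ) (monomial (m : Fin 4 →₀ ℕ) (1 : k))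
  have hfF : ∀ m, f m ∈ F := fun m => by
    rw [hF, IntermediateField.mem_adjoin_range_iff]
    exact ⟨monomial (m : Fin 4 →₀ ℕ) (1 : k), 1, by rw [map_one (aeval (yy τ)), div_one]⟩
  have hfj : ∀ (j : ℕ) m, (D : ℂ → ℂ)^[j] (f m) ∈ F := by
    intro j
    induction j with
    | zero => exact hfF
    | succ j ih =>
      intro m
      rw [Function.iterate_succ_apply']
      exact h.stable (ih m)
  have hc0 : ∑ m : P.support, ((coeff (m : Fin 4 →₀ ℕ) P : Cst D) : ℂ) * f m = 0 := by
    rw [← hP]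
    conv_rhs => rw [P.as_sum, map_sum]
    rw [← Finset.sum_coe_sort P.support]
    refine Finset.sum_congr rfl (fun m _ => ?_)
    rw [aeval_monomial]
    change _ * aeval (yy τ) (monomial (m : Fin 4 →₀ ℕ) (1 : k)) = _
    rw [aeval_monomial, map_one, one_mul]
    rfl
  have hcj : ∀ j : ℕ, ∑ m : P.support,
      ((coeff (m : Fin 4 →₀ ℕ) P : Cst D) : ℂ) * (D : ℂ → ℂ)^[j] (f m) = 0 := by
    intro j
    induction j with
    | zero => exact hc0
    | succ j ih =>
      have h1 := congrArg D ih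
      rw [map_sum, map_zero] at h1
      rw [← h1]
      refine Finset.sum_congr rfl (fun m _ => ?_)
      rw [Function.iterate_succ_apply', D_mul, mem_Cst.1 (coeff (m : Fin 4 →₀ ℕ) P).2, mul_zero,
        add_zero]
  -- relations over `F`
  let W : Set (P.support → ℂ) := {a | (∀ m, a m ∈ F) ∧
    ∀ j : ℕ, ∑ m, a m * (D : ℂ → ℂ)^[j] (f m) = 0}
  obtain ⟨m₀, hm₀⟩ := MvPolynomial.ne_zero_iff.1 hne
  have hm₀s : m₀ ∈ P.support := mem_support_iff.2 hm₀
  have hm₀' : ((coeff m₀ P : Cst D) : ℂ) ≠ 0 := fun h0 => hm₀ (Subtype.ext h0)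
  obtain ⟨φ, hφ⟩ : ∃ φ : Module.Dual F ℂ, φ ((coeff m₀ P : Cst D) : ℂ) ≠ 0 := by
    by_contra hcon
    push Not at hcon
    exact hm₀' ((Module.forall_dual_apply_eq_zero_iff F _).1 hcon)
  have haW : (fun m : P.support => (φ ((coeff (m : Fin 4 →₀ ℕ) P : Cst D) : ℂ) : ℂ)) ∈ W := by
    refine ⟨fun m => (φ _).2, fun j => ?_⟩
    have h1 := congrArg φ (hcj j)
    rw [map_sum, map_zero] at h1
    have h2 := congrArg (Subtype.val) h1
    rw [ZeroMemClass.coe_zero] at h2
    rw [← h2, IntermediateField.coe_sum]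
    refine Finset.sum_congr rfl (fun m _ => ?_)
    have h3 : ((coeff (m : Fin 4 →₀ ℕ) P : Cst D) : ℂ) * (D : ℂ → ℂ)^[j] (f m) =
        (⟨(D : ℂ → ℂ)^[j] (f m), hfj j m⟩ : F) • ((coeff (m : Fin 4 →₀ ℕ) P : Cst D) : ℂ) := by
      rw [mul_comm]
      rfl
    rw [h3, map_smul, smul_eq_mul, mul_comm]
    rfl
  obtain ⟨c, hcW, hc0', hcD⟩ := exists_const_vec D W (by
    rintro a ⟨ha1, ha2⟩ i hi
    refine ⟨fun m => div_mem (ha1 m) (ha1 i), fun j => ?_⟩
    have h1 : ∑ m, a m / a i * (D : ℂ → ℂ)^[j] (f m) =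
        (∑ m, a m * (D : ℂ → ℂ)^[j] (f m)) / a i := by
      rw [Finset.sum_div]
      exact Finset.sum_congr rfl (fun m _ => by ring)
    rw [h1, ha2 j, zero_div]) (by
    rintro a ⟨ha1, ha2⟩
    refine ⟨fun m => h.stable (ha1 m), fun j => ?_⟩
    have h1 := congrArg D (ha2 j)
    rw [map_sum, map_zero] at h1
    have h2 := ha2 (j + 1)
    have h3 : ∑ m, D (a m * (D : ℂ → ℂ)^[j] (f m)) =
        ∑ m, D (a m) * (D : ℂ → ℂ)^[j] (f m) + ∑ m, a m * (D : ℂ → ℂ)^[j + 1] (f m) := by
      rw [← Finset.sum_add_distrib]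
      refine Finset.sum_congr rfl (fun m _ => ?_)
      rw [D_mul, Function.iterate_succ_apply']
      ring
    rw [h3, h2, add_zero] at h1
    exact h1) haW (by
    intro h0
    have h1 := congrFun h0 ⟨m₀, hm₀s⟩
    apply hφ
    exact Subtype.ext h1)
  -- the coefficients are in `k`
  choose q hq using fun m => h.const (hcW.1 m) (hcD m)
  have h5 : aeval (yy τ) (∑ m : P.support, monomial (m : Fin 4 →₀ ℕ) (q m)) = 0 := by
    have h6 := hcW.2 0
    rw [← h6, map_sum]
    refine Finset.sum_congr rfl (fun m _ => ?_)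
    rw [aeval_monomial, hq, Function.iterate_zero, id]
    change _ = _ * aeval (yy τ) (monomial (m : Fin 4 →₀ ℕ) (1 : k))
    rw [aeval_monomial, map_one, one_mul]
  have h7 := (algebraicIndependent_iff.1 h.ai) _ h5
  apply hc0'
  funext m
  have h8 := congrArg (coeff (m : Fin 4 →₀ ℕ)) h7
  rw [coeff_sum, coeff_zero] at h8
  have h9 : ∑ m' : P.support, coeff (m : Fin 4 →₀ ℕ) (monomial (m' : Fin 4 →₀ ℕ) (q m')) = q m := by
    rw [Finset.sum_eq_single m]
    · rw [coeff_monomial, if_pos rfl]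
    · intro m' _ hmm
      rw [coeff_monomial, if_neg]
      intro h10
      exact hmm (Subtype.ext h10)
    · intro h10
      exact absurd (Finset.mem_univ _) h10
  rw [h9] at h8
  rw [← hq, h8, map_zero]
  rfl

end

end Pool.Agent.Y685
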