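import Mathlib
import Pool.Agent.H73.G.R8.W245.EB.Zt

/-!
# Homogeneity of the elliptic functions in the lattice
-/

set_option autoImplicit false

open Filter
open scoped Topology PeriodPair

noncomputable section

namespace Pool.Agent.Y685

open H667R3 Pool.Agent.W245.EB

/-- `L' = c L` -/
structure Hm (L L' : PeriodPair) (c : ℂ) : Prop where
  c0 : c ≠ 0
  mem : ∀ x, c * x ∈ L'.lattice ↔ x ∈ L.lattice

variable {L L' L'' : PeriodPair} {c c' : ℂ}

/-- the bijection of the lattices -/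
def Hm.equiv (h : Hm L L' c) : L.lattice ≃ L'.lattice where
  toFun := fun l => ⟨c * l, (h.mem _).2 l.2⟩
  invFun := fun l => ⟨c⁻¹ * l, (h.mem _).1 (by rw [mul_inv_cancel_left₀ h.c0]; exact l.2)⟩
  left_inv := fun l => by
    apply Subtype.ext
    exact inv_mul_cancel_left₀ h.c0 _
  right_inv := fun l => by
    apply Subtype.ext
    exact mul_inv_cancel_left₀ h.c0 _

theorem Hm.equiv_apply (h : Hm L L' c) (l : L.lattice) :
    ((h.equiv l : L'.lattice) : ℂ) = c * l := rfl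

theorem Hm.wp (h : Hm L L' c) (z : ℂ) : ℘[L'] (c * z) = ℘[L] z / c ^ 2 := by
  have hc := h.c0
  rw [PeriodPair.weierstrassP, PeriodPair.weierstrassP, ← h.equiv.tsum_eq, ← tsum_div_const]
  refine tsum_congr (fun l => ?_)
  rw [h.equiv_apply, ← mul_sub, mul_pow, mul_pow, sub_div]
  simp only [one_div, mul_inv, div_eq_mul_inv]
  ring

theorem Hm.wp' (h : Hm L L' c) (z : ℂ) : ℘'[L'] (c * z) = ℘'[L] z / c ^ 3 := by
  rw [PeriodPair.derivWeierstrassP, PeriodPair.derivWeierstrassP, ← h.equiv.tsum_eq, neg_div,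
    ← tsum_div_const]
  congr 1
  refine tsum_congr (fun l => ?_)
  rw [h.equiv_apply, ← mul_sub, mul_pow]
  simp only [mul_inv, div_eq_mul_inv]
  ring

theorem Hm.zeta (h : Hm L L' c) (z : ℂ) : H667R3.zeta L' (c * z) = H667R3.zeta L z / c := by
  have hc := h.c0
  rw [H667R3.zeta, H667R3.zeta, ← h.equiv.tsum_eq, ← tsum_div_const]
  refine tsum_congr (fun l => ?_)
  rw [h.equiv_apply, ← mul_sub, mul_pow]
  simp only [one_div, mul_inv, div_eq_mul_inv]
  have : (c ^ 2)⁻¹ * c = c⁻¹ := by field_simp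
  linear_combination (z * ((l : ℂ) ^ 2)⁻¹) * this

theorem Hm.G (h : Hm L L' c) (n : ℕ) : L'.G n = L.G n / c ^ n := by
  rw [PeriodPair.G, PeriodPair.G, ← h.equiv.tsum_eq, ← tsum_div_const]
  refine tsum_congr (fun l => ?_)
  rw [h.equiv_apply, mul_pow, mul_inv, div_eq_mul_inv, mul_comm]

theorem Hm.g₂ (h : Hm L L' c) : L'.g₂ = L.g₂ / c ^ 4 := by
  rw [PeriodPair.g₂, PeriodPair.g₂, h.G, mul_div_assoc]

theorem Hm.g₃ (h : Hm L L' c) : L'.g₃ = L.g₃ / c ^ 6 := by
  rw [PeriodPair.g₃, PeriodPair.g₃, h.G, mul_div_assoc]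

theorem Hm.notMem (h : Hm L L' c) {z : ℂ} : c * z ∉ L'.lattice ↔ z ∉ L.lattice :=
  not_congr (h.mem z)

theorem Hm.eta (h : Hm L L' c) {l : ℂ} (hl : l ∈ L.lattice) :
    H667R3.eta L' (c * l) = H667R3.eta L l / c := by
  have h0 := L.ω₁_div_two_notMem_lattice
  have e1 := zeta_add_coe L h0 hl
  have e2 := zeta_add_coe L' (h.notMem.2 h0) ((h.mem l).2 hl)
  rw [← mul_add, h.zeta, h.zeta, e1] at e2
  linear_combination -e2

theorem Hm.zt (h : Hm L L' c) (z : ℂ) :
    Pool.Agent.W245.EB.zt L' (c * z) = Pool.Agent.W245.EB.zt L z / c := by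
  by_cases hz : z ∈ L.lattice
  · rw [zt_of_mem hz, zt_of_mem ((h.mem z).2 hz), h.eta hz]
  · rw [zt_of_notMem hz, zt_of_notMem (h.notMem.2 hz), h.zeta]

end Pool.Agent.Y685
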