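import Mathlib
import Pool.Agent.H73.G.R8.Y685.StepA

/-!
# From a small rank to a relation between points which are rational over the field of periods
-/

set_option autoImplicit false

open Finset Module
open scoped Topology PeriodPair

noncomputable section

namespace Pool.Agent.Y685

open H667R3 Pool.Agent.W245.EB Pool.Agent.TH813.Ell
open Pool.Agent.TH813.Rel (DF MK)

variable {L : PeriodPair} {D δ : Derivation ℚ ℂ ℂ}

/-- the flat functionals -/
def Pf (L : PeriodPair) (ω η : ℂ) (δ : Derivation ℚ ℂ ℂ) (z : ℂ) : ℂ :=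
  η * (δ z - om L δ z) - ω * et L δ z

theorem D_Pf {h : Nrm L D} (h2 : δ L.g₂ = 0) {z : ℂ} (hz : z ∈ Cm h) {ω η : ℂ}
    (hω : D ω = aa L * ω + η) (hη : D η = -(aa L) * η - L.g₂ / 12 * ω) :
    D (Pf L ω η δ z) = Pf L ω η ⁅D, δ⁆ z := by
  rw [Pf, map_sub, D_mul, D_mul, hω, hη, D_A h2 hz, D_B h2 hz, Pf]
  ring

theorem Pf_add (ω η : ℂ) (δ δ' : Derivation ℚ ℂ ℂ) (z : ℂ) :
    Pf L ω η (δ + δ') z = Pf L ω η δ z + Pf L ω η δ' z := by
  rw [Pf, Pf, Pf, om_add_der, et_add_der, Derivation.add_apply]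
  ring

theorem Pf_smul (ω η c : ℂ) (δ : Derivation ℚ ℂ ℂ) (z : ℂ) :
    Pf L ω η (c • δ) z = c * Pf L ω η δ z := by
  rw [Pf, Pf, om_smul_der, et_smul_der, Derivation.smul_apply, smul_eq_mul]
  ring

/-- the numbers attached to finitely many points -/
def EP (L : PeriodPair) {n : ℕ} (p : Fin n → ℂ) : Set ℂ :=
  Set.range p ∪ (Set.range (fun i => zt L (p i)) ∪ Set.range (fun i => ℘[L] (p i)))

theorem EP_finite {n : ℕ} (p : Fin n → ℂ) : (EP L p).Finite :=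
  (Set.finite_range _).union ((Set.finite_range _).union (Set.finite_range _))

theorem om_of_kill {z : ℂ} (h : δ (℘[L] z) = 0) : om L δ z = 0 := by
  unfold om
  rw [h, zero_div]

theorem Pf_of_kill {z : ℂ} (h : δ (℘[L] z) = 0) (h1 : δ z = 0) (h2 : δ (zt L z) = 0) (ω η : ℂ) :
    Pf L ω η δ z = 0 := by
  unfold Pf et
  rw [om_of_kill h, h1, h2]
  ring

/-- the periods which belong to a vector -/
abbrev Om (L : PeriodPair) (c c' : ℂ) : ℂ := c * L.ω₁ + c' * L.ω₂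
/-- the quasi-periods which belong to a vector -/
abbrev Et (L : PeriodPair) (c c' : ℂ) : ℂ := c * eta L L.ω₁ + c' * eta L L.ω₂

theorem D_Om (h : Nrm L D) {c c' : ℂ} (hc : D c = 0) (hc' : D c' = 0) :
    D (Om L c c') = aa L * Om L c c' + Et L c c' := by
  rw [Om, map_add, D_mul, D_mul, hc, hc', h.hω _ L.ω₁_mem_lattice, h.hω _ L.ω₂_mem_lattice, Et]
  ring

theorem D_Et (h : Nrm L D) {c c' : ℂ} (hc : D c = 0) (hc' : D c' = 0) :
    D (Et L c c') = -(aa L) * Et L c c' - L.g₂ / 12 * Om L c c' := by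
  rw [Et, map_add, D_mul, D_mul, hc, hc', h.hη _ L.ω₁_mem_lattice, h.hη _ L.ω₂_mem_lattice, Om]
  ring

theorem Om_K1 {c c' : ℂ} (hc : c ∈ K1 L D) (hc' : c' ∈ K1 L D) : Om L c c' ∈ K1 L D :=
  add_mem (mul_mem hc ω₁_K1) (mul_mem hc' ω₂_K1)

theorem Et_K1 {c c' : ℂ} (hc : c ∈ K1 L D) (hc' : c' ∈ K1 L D) : Et L c c' ∈ K1 L D :=
  add_mem (mul_mem hc η₁_K1) (mul_mem hc' η₂_K1)

end Pool.Agent.Y685
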