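import Mathlib
import Pool.Agent.H73.G.R8.Y685.StepB

/-!
# From a small rank to a relation between points which are rational over the field of periods
-/

set_option autoImplicit false

open Finset Module
open scoped Topology PeriodPair

noncomputable section

namespace Pool.Agent.Y685

open H667R3 Pool.Agent.W245.EB Pool.Agent.TH813.Ell
open Pool.Agent.TH813.Rel (DF MK)

variable {L : PeriodPair} {D δ : Derivation ℚ ℂ ℂ}

theorem Pf_lin (h2 : δ L.g₂ = 0) (h3 : δ L.g₃ = 0) (ω η : ℂ) {n : ℕ} (q : Fin n → ℚ)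
    (p : Fin n → ℂ) : Pf L ω η δ (∑ j, q j • p j) = ∑ j, (q j : ℂ) * Pf L ω η δ (p j) := by
  have e0 : δ (∑ j, q j • p j) = ∑ j, (q j : ℂ) * δ (p j) := by
    rw [map_sum]
    exact sum_congr rfl (fun j _ => by rw [δ.map_smul, Rat.smul_def])
  unfold Pf
  rw [om_lin δ h2 h3, et_lin δ h2 h3, e0, mul_sub, mul_sum, mul_sum, mul_sum, ← sum_sub_distrib,
    ← sum_sub_distrib]
  exact sum_congr rfl (fun j _ => by ring)

/-- there is a functional which does not vanish at a given number -/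
theorem exists_psi {x : ℂ} (hx : x ≠ 0) : ∃ ψ : ℂ →ₗ[ℚ] ℚ, ψ x ≠ 0 := by
  by_contra hcon
  push Not at hcon
  exact hx ((Module.forall_dual_apply_eq_zero_iff ℚ x).1 hcon)

/-- the tensor of the vectors `c`, `p` lies in a subspace -/
def TR (V : Submodule ℚ ℂ) {ι : Type} [Fintype ι] (p x : ι → ℂ) : Prop :=
  ∀ ψ : ℂ →ₗ[ℚ] ℚ, ∑ i, ψ (x i) • p i ∈ V

theorem TR_comb {V : Submodule ℚ ℂ} {ι : Type} [Fintype ι] {p x y : ι → ℂ} (hx : TR V p x)
    (hy : TR V p y) (a b : ℂ) : TR V p (fun i => a * x i + b * y i) := by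
  intro ψ
  have h1 := hx (ψ ∘ₗ (LinearMap.mulLeft ℚ a))
  have h2 := hy (ψ ∘ₗ (LinearMap.mulLeft ℚ b))
  have h3 := V.add_mem h1 h2
  rw [← sum_add_distrib] at h3
  convert h3 using 1
  refine sum_congr rfl (fun i _ => ?_)
  rw [map_add, add_smul]
  rfl

/-- a relation between points which are rational over the field of periods -/
structure Rln (h : Nrm L D) {ι : Type} [Fintype ι] (v d d' : ι → ℂ) : Prop where
  hC : ∀ a, v a ∈ Cm h
  hV : ∀ a, v a ∈ V1 L D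
  hd : ∀ a, D (d a) = 0
  hd' : ∀ a, D (d' a) = 0
  mem : ∑ a, (Et L (d a) (d' a) * v a - Om L (d a) (d' a) * zt L (v a)) ∈ K1 L D

theorem sum_coord {n d : ℕ} {c : Fin n → ℂ} {e : Fin d → ℂ} {φ : Fin d → (ℂ →ₗ[ℚ] ℚ)}
    (hc : ∀ j, c j = ∑ k, (φ k (c j) : ℂ) * e k) (ψ : ℂ →ₗ[ℚ] ℚ) (j : Fin n) :
    ∑ k, ψ (e k) * φ k (c j) = ψ (c j) := by
  conv_rhs => rw [hc j]
  rw [map_sum]
  refine sum_congr rfl (fun k _ => ?_)
  rw [← Rat.smul_def, map_smul, smul_eq_mul, mul_comm]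

theorem sum_coord' {n d : ℕ} {c : Fin n → ℂ} {e : Fin d → ℂ} {φ : Fin d → (ℂ →ₗ[ℚ] ℚ)}
    (hc : ∀ j, c j = ∑ k, (φ k (c j) : ℂ) * e k) (x : Fin n → ℂ) :
    ∑ k, e k * ∑ j, (φ k (c j) : ℂ) * x j = ∑ j, c j * x j := by
  have h1 : ∀ k, e k * ∑ j, (φ k (c j) : ℂ) * x j = ∑ j, ((φ k (c j) : ℂ) * e k) * x j := by
    intro k
    rw [mul_sum]
    exact sum_congr rfl (fun j _ => by ring)
  rw [sum_congr rfl (fun k _ => h1 k), sum_comm]
  refine sum_congr rfl (fun j _ => ?_)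
  rw [← sum_mul, ← hc j]

theorem tensor_coord {n d : ℕ} {c : Fin n → ℂ} {e : Fin d → ℂ} {φ : Fin d → (ℂ →ₗ[ℚ] ℚ)}
    (hc : ∀ j, c j = ∑ k, (φ k (c j) : ℂ) * e k) (ψ : ℂ →ₗ[ℚ] ℚ) (p : Fin n → ℂ) :
    ∑ k, ψ (e k) • ∑ j, φ k (c j) • p j = ∑ j, ψ (c j) • p j := by
  have h1 : ∀ k, ψ (e k) • ∑ j, φ k (c j) • p j = ∑ j, (ψ (e k) * φ k (c j)) • p j := by
    intro k
    rw [smul_sum]
    exact sum_congr rfl (fun j _ => by rw [smul_smul])
  rw [sum_congr rfl (fun k _ => h1 k), sum_comm]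
  refine sum_congr rfl (fun j _ => ?_)
  rw [← sum_smul, sum_coord hc]

/-- the tensor of `c`, `p` is nonzero modulo a subspace -/
theorem not_TR {V : Submodule ℚ ℂ} {n : ℕ} {p c : Fin n → ℂ}
    (hind : LinearIndependent ℚ (fun i => V.mkQ (p i))) (hc : c ≠ 0) : ¬ TR V p c := by
  intro hT
  obtain ⟨j, hj⟩ := Function.ne_iff.1 hc
  obtain ⟨ψ, hψ⟩ := exists_psi hj
  have h1 := hT ψ
  have h2 : ∑ i, ψ (c i) • V.mkQ (p i) = 0 := by
    have := (Submodule.Quotient.mk_eq_zero V).2 h1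
    rw [← Submodule.mkQ_apply, map_sum] at this
    simpa only [map_smul] using this
  exact hψ (Fintype.linearIndependent_iff.1 hind _ h2 j)

end Pool.Agent.Y685
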