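import Mathlib
import Pool.Agent.H73.G.R8.Y685.ConstB
import Pool.Agent.H73.G.R8.Y685.Scale
import Pool.Agent.H73.G.R8.Y685.StepD

/-!
# The normalized lattice and its derivation
-/

set_option autoImplicit false

open Filter UpperHalfPlane
open scoped Topology PeriodPair

noncomputable section

namespace Pool.Agent.Y685

open H667R3 Pool.Agent.W245.EB MvPolynomial Pool.Agent.TH813.Ell
open Pool.Agent.TH813.Rel (DF MK exists_derF)

/-- the lattice `c L` -/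
def scl (L : PeriodPair) (c : ℂ) (hc : c ≠ 0) : PeriodPair where
  ω₁ := c * L.ω₁
  ω₂ := c * L.ω₂
  indep := by
    have h1 := L.indep.map' (LinearMap.mulLeft ℝ c) (by
      rw [LinearMap.ker_eq_bot]
      exact mul_right_injective₀ hc)
    have h2 : ![c * L.ω₁, c * L.ω₂] = ⇑(LinearMap.mulLeft ℝ c) ∘ ![L.ω₁, L.ω₂] := by
      funext i
      fin_cases i <;> rfl
    rw [h2]
    exact h1

theorem Hm_scl (L : PeriodPair) {c : ℂ} (hc : c ≠ 0) : Hm L (scl L c hc) c where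
  c0 := hc
  mem := fun x => by
    rw [PeriodPair.mem_lattice, PeriodPair.mem_lattice]
    constructor
    · rintro ⟨m, n, h⟩
      refine ⟨m, n, mul_left_cancel₀ hc ?_⟩
      rw [← h]
      change _ = (m : ℂ) * (c * L.ω₁) + n * (c * L.ω₂)
      ring
    · rintro ⟨m, n, h⟩
      refine ⟨m, n, ?_⟩
      rw [← h]
      change (m : ℂ) * (c * L.ω₁) + n * (c * L.ω₂) = _
      ring

/-- a point `τ` with a square root of `g₃/g₂` and a derivation, for which everything is generic -/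
structure Gp (k : Subfield ℂ) (τ l : ℂ) {n : ℕ} (z : Fin n → ℂ) (D : Derivation ℚ ℂ ℂ) : Prop where
  im : 0 < τ.im
  hb : be τ ∈ k
  ai : AlgebraicIndependent k (yy τ)
  cmp : Cmp k τ z D
  hl : l ^ 2 * (LC τ).g₂ = (LC τ).g₃

namespace Gp

variable {k : Subfield ℂ} {τ l : ℂ} {n : ℕ} {z : Fin n → ℂ} {D : Derivation ℚ ℂ ℂ}

theorem g2 (h : Gp k τ l z D) : (LC τ).g₂ ≠ 0 := h.ai.ne_zero 2

theorem g3 (h : Gp k τ l z D) : (LC τ).g₃ ≠ 0 := h.ai.ne_zero 3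

theorem l0 (h : Gp k τ l z D) : l ≠ 0 := by
  intro h0
  apply h.g3
  rw [← h.hl, h0]
  ring

theorem b0 (h : Gp k τ l z D) : be τ ≠ 0 := by
  obtain ⟨-, -, -, -, h5⟩ := H2.task_A4 τ h.im
  unfold be
  exact one_div_ne_zero h5

theorem Dy (h : Gp k τ l z D) : Dy D (⟨be τ, h.hb⟩ : k) τ where
  im := h.im
  hb := rfl
  hk := fun c => h.cmp.hk c c.2
  ai := h.ai
  hy := by
    have hc := h.cmp
    have hbb : algebraMap k ℂ ⟨be τ, h.hb⟩ = be τ := rfl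
    intro i
    fin_cases i
    · simpa [vf, yy] using hc.tau
    · simp [vf, yy, map_ofNat, hc.h, hbb]
      ring
    · simp [vf, yy, map_ofNat, hc.g2, al, hbb]
    · simp [vf, yy, map_ofNat, hc.g3, al, hbb]
      ring

/-- the normalized lattice -/
def Lh (h : Gp k τ l z D) : PeriodPair := scl (LC τ) l h.l0

/-- the normalized derivation -/
def Dh (_ : Gp k τ l z D) : Derivation ℚ ℂ ℂ := (1 / (be τ * l ^ 2)) • D

theorem Dh_apply (h : Gp k τ l z D) (x : ℂ) : h.Dh x = D x / (be τ * l ^ 2) := by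
  rw [Dh, Derivation.smul_apply, smul_eq_mul]
  ring

theorem Cst_Dh (h : Gp k τ l z D) : Cst h.Dh = Cst D := by
  have h1 : be τ * l ^ 2 ≠ 0 := mul_ne_zero h.b0 (pow_ne_zero 2 h.l0)
  ext x
  rw [mem_Cst, mem_Cst, h.Dh_apply, div_eq_zero_iff]
  exact ⟨fun h2 => h2.resolve_right h1, fun h2 => Or.inl h2⟩

theorem Dl (h : Gp k τ l z D) :
    D l = -al τ * l - be τ * (LC τ).g₂ / (6 * l) + 3 * be τ * l ^ 3 := by
  have e1 := congrArg D h.hl
  have hl := h.l0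
  have h2 := h.g2
  rw [D_mul, D_pow, h.cmp.g2, h.cmp.g3, ← h.hl] at e1
  have e2 : l ^ 2 * (-4 * al τ - 6 * be τ * l ^ 2) + 2 * l * D l =
      -6 * al τ * l ^ 2 - be τ * (LC τ).g₂ / 3 := by
    apply mul_left_cancel₀ h2
    norm_num at e1
    linear_combination e1
  field_simp
  linear_combination 3 * e2

theorem hm (h : Gp k τ l z D) : Hm (LC τ) h.Lh l := Hm_scl _ _

theorem mem_Lh (h : Gp k τ l z D) {ω : ℂ} (hω : ω ∈ h.Lh.lattice) :
    ∃ m n : ℤ, ω = l * (m + n * τ) ∧ eta h.Lh ω = (m * h1 τ + n * h2 τ) / l := by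
  obtain ⟨m, n, hmn⟩ := PeriodPair.mem_lattice.1 hω
  have e1 : h.Lh.ω₁ = l := by
    change l * (LC τ).ω₁ = l
    rw [LC_ω₁, mul_one]
  have e2 : h.Lh.ω₂ = l * τ := by
    change l * (LC τ).ω₂ = l * τ
    rw [LC_ω₂ h.im]
  have e3 : ω = l * (m + n * τ) := by
    rw [← hmn, e1, e2]
    ring
  have m1 : (1 : ℂ) ∈ (LC τ).lattice := (mem_LC h.im).2 ⟨1, 0, by simp⟩
  have m2 : τ ∈ (LC τ).lattice := (mem_LC h.im).2 ⟨0, 1, by simp⟩
  have m1' : (m : ℂ) * 1 ∈ (LC τ).lattice := (mem_LC h.im).2 ⟨m, 0, by simp⟩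
  have m2' : (n : ℂ) * τ ∈ (LC τ).lattice := (mem_LC h.im).2 ⟨0, n, by simp⟩
  have m3 : (m : ℂ) + n * τ ∈ (LC τ).lattice := (mem_LC h.im).2 ⟨m, n, rfl⟩
  refine ⟨m, n, e3, ?_⟩
  rw [e3, h.hm.eta m3]
  congr 1
  have e4 : (m : ℂ) + n * τ = m * 1 + n * τ := by ring
  rw [e4, eta_add _ m1' m2', eta_zsmul _ m1, eta_zsmul _ m2]
  rfl

theorem Dh2 (h : Gp k τ l z D) : D (h2 τ) =
    h1 τ + τ * (be τ * h1 τ ^ 2 - be τ * (LC τ).g₂ / 12) := by
  have e1 : h2 τ = Wc τ + τ * h1 τ := by unfold Wc; ring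
  have e2 : D (Wc τ) = 0 := by
    have e3 : Wc τ = (be τ)⁻¹ := by unfold be; rw [one_div, inv_inv]
    rw [e3, Derivation.leibniz_inv, h.cmp.b, smul_zero]
  rw [e1, map_add, e2, D_mul, h.cmp.tau, h.cmp.h]
  ring

theorem W (h : Gp k τ l z D) : be τ * (h2 τ - τ * h1 τ) = 1 := by
  have h5 : Wc τ ≠ 0 := (H2.task_A4 τ h.im).2.2.2.2
  unfold be
  change 1 / Wc τ * Wc τ = 1
  field_simp

theorem gh (h : Gp k τ l z D) : h.Lh.g₂ = (LC τ).g₂ / l ^ 4 := h.hm.g₂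

/-- the normalized data -/
theorem nrm (h : Gp k τ l z D) : Nrm h.Lh h.Dh where
  g0 := by
    rw [h.gh]
    exact div_ne_zero h.g2 (pow_ne_zero 4 h.l0)
  hg := by
    have hl := h.l0
    rw [h.gh, h.hm.g₃, ← h.hl]
    field_simp
  hD := by
    have hl := h.l0
    have hb := h.b0
    have e1 : h.Lh.g₂ * l ^ 4 = (LC τ).g₂ := by
      rw [h.gh]
      field_simp
    have e2 := congrArg D e1
    rw [D_mul, D_pow, h.cmp.g2, ← h.hl, h.Dl] at e2
    rw [h.Dh_apply, div_eq_iff (mul_ne_zero hb (pow_ne_zero 2 hl))]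
    have e3 : D h.Lh.g₂ * l ^ 4 = -(18 - 2 / 3 * h.Lh.g₂) * h.Lh.g₂ * (be τ * l ^ 2) * l ^ 4 := by
      rw [h.gh] at e2 ⊢
      norm_num at e2
      field_simp at e2 ⊢
      linear_combination e2 / 2
    exact mul_right_cancel₀ (pow_ne_zero 4 hl) e3
  hω := by
    intro ω hω
    have hl := h.l0
    have hb := h.b0
    have hW := h.W
    obtain ⟨m, n, e1, e2⟩ := h.mem_Lh hω
    have hm : D (m : ℂ) = 0 := D.map_intCast m
    have hn : D (n : ℂ) = 0 := D.map_intCast n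
    rw [e2, e1, h.Dh_apply, D_mul, map_add, D_mul, hm, hn, h.cmp.tau, h.Dl, aa, h.gh, al]
    field_simp
    linear_combination (-6 * n * l ^ 2) * hW
  hη := by
    intro ω hω
    have hl := h.l0
    have hb := h.b0
    have hW := h.W
    obtain ⟨m, n, e1, e2⟩ := h.mem_Lh hω
    have hm : D (m : ℂ) = 0 := D.map_intCast m
    have hn : D (n : ℂ) = 0 := D.map_intCast n
    have e3 : D ((m * h1 τ + n * h2 τ) / l) = (D (m * h1 τ + n * h2 τ) * l -
        (m * h1 τ + n * h2 τ) * D l) / l ^ 2 := by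
      rw [Derivation.leibniz_div, smul_eq_mul, smul_eq_mul, smul_eq_mul]
      field_simp
    rw [e2, e1, h.Dh_apply, e3, map_add, D_mul, D_mul, hm, hn, h.cmp.h, h.Dh2, h.Dl, aa, h.gh, al]
    field_simp
    linear_combination (-72 * h1 τ * n * l ^ 2) * hW

theorem o1 (h : Gp k τ l z D) : h.Lh.ω₁ = l := by
  change l * (LC τ).ω₁ = l
  rw [LC_ω₁, mul_one]

theorem o2 (h : Gp k τ l z D) : h.Lh.ω₂ = l * τ := by
  change l * (LC τ).ω₂ = l * τ
  rw [LC_ω₂ h.im]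

theorem n1 (h : Gp k τ l z D) : eta h.Lh h.Lh.ω₁ = h1 τ / l := by
  have m1 : (1 : ℂ) ∈ (LC τ).lattice := (mem_LC h.im).2 ⟨1, 0, by simp⟩
  have := h.hm.eta m1
  rw [mul_one] at this
  rw [h.o1, this]
  rfl

theorem n2 (h : Gp k τ l z D) : eta h.Lh h.Lh.ω₂ = h2 τ / l := by
  have m2 : τ ∈ (LC τ).lattice := (mem_LC h.im).2 ⟨0, 1, by simp⟩
  rw [h.o2, h.hm.eta m2]
  rfl

/-- all matrices of trace zero occur -/
theorem exists_X (h : Gp k τ l z D) {x y w : ℂ} (hx : D x = 0) (hy : D y = 0) (hw : D w = 0) :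
    ∃ δ, IsX h.Lh h.Dh x y w δ := by
  have hl := h.l0
  have hg2 := h.g2
  have hD0 : ∀ c, D c = 0 → h.Dh c = 0 := fun c hc => by rw [h.Dh_apply, hc, zero_div]
  have hai := h.Dy.algInd
  obtain ⟨δ, hδ, hv⟩ := exists_derF (Cst D) hai ![y - 2 * x * τ - w * τ ^ 2,
    2 * x * h1 τ + 2 * w * τ * h1 τ + w * Wc τ, 4 * (x + w * τ) * (LC τ).g₂,
    6 * (x + w * τ) * (LC τ).g₃]
  have d0 : δ τ = y - 2 * x * τ - w * τ ^ 2 := hv 0
  have d1 : δ (h1 τ) = 2 * x * h1 τ + 2 * w * τ * h1 τ + w * Wc τ := hv 1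
  have d2 : δ (LC τ).g₂ = 4 * (x + w * τ) * (LC τ).g₂ := hv 2
  have d3 : δ (LC τ).g₃ = 6 * (x + w * τ) * (LC τ).g₃ := hv 3
  have dW : δ (Wc τ) = 0 := by
    apply hδ
    change D (Wc τ) = 0
    have e3 : Wc τ = (be τ)⁻¹ := by unfold be; rw [one_div, inv_inv]
    rw [e3, Derivation.leibniz_inv, h.cmp.b, smul_zero]
  have dl : δ l = (x + w * τ) * l := by
    have e1 := congrArg δ h.hl
    rw [D_mul, D_pow, d2, d3, ← h.hl] at e1
    have h3 : (2 * l * (LC τ).g₂) ≠ 0 := mul_ne_zero (mul_ne_zero two_ne_zero hl) hg2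
    apply mul_left_cancel₀ h3
    norm_num at e1
    linear_combination e1
  have dh2 : δ (h2 τ) = y * h1 τ + w * τ * h2 τ := by
    have e1 : h2 τ = Wc τ + τ * h1 τ := by unfold Wc; ring
    rw [e1, map_add, dW, D_mul, d0, d1]
    ring
  have ddiv : ∀ u : ℂ, δ (u / l) = (δ u - u * (x + w * τ)) / l := by
    intro u
    rw [Derivation.leibniz_div, smul_eq_mul, smul_eq_mul, smul_eq_mul, dl]
    field_simp
  refine ⟨δ, ⟨?_, hD0 x hx, hD0 y hy, hD0 w hw, ?_, ?_, ?_, ?_, ?_⟩⟩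
  · rw [h.Cst_Dh]
    exact hδ
  · have e1 : h.Lh.g₂ * l ^ 4 = (LC τ).g₂ := by
      rw [h.gh]
      field_simp
    have e2 := congrArg δ e1
    rw [D_mul, D_pow, d2, dl, ← e1] at e2
    have e3 : l ^ 4 * δ h.Lh.g₂ = 0 := by
      norm_num at e2
      linear_combination e2
    exact (mul_eq_zero.1 e3).resolve_left (pow_ne_zero 4 hl)
  · rw [h.o1, h.o2, dl]
    ring
  · rw [h.o1, h.o2, D_mul, dl, d0]
    ring
  · rw [h.n1, h.n2, ddiv, d1]
    unfold Wc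
    ring
  · rw [h.n1, h.n2, ddiv, dh2]
    ring

theorem sl2 (h : Gp k τ l z D) : Sl2 h.Lh h.Dh :=
  ⟨h.exists_X (map_zero D) D.map_one_eq_zero (map_zero D),
    h.exists_X (map_zero D) (map_zero D) D.map_one_eq_zero,
    h.exists_X D.map_one_eq_zero (map_zero D) (map_zero D)⟩

/-- the points are compatible -/
theorem mem_Cm' (h : Gp k τ l z D) {i : Fin n} (hi : 2 * z i ∉ (LC τ).lattice) :
    l * z i ∈ Cm h.nrm := by
  have hl := h.l0
  have hb := h.b0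
  have hi1 : z i ∉ (LC τ).lattice := two_mul_notMem_of _ hi
  have hy0 : ℘'[LC τ] (z i) ≠ 0 := wp'_ne_zero _ hi
  have e1 : ℘[h.Lh] (l * z i) = ℘[LC τ] (z i) / l ^ 2 := h.hm.wp _
  have e2 : ℘'[h.Lh] (l * z i) = ℘'[LC τ] (z i) / l ^ 3 := h.hm.wp' _
  have e3 : zt h.Lh (l * z i) = zeta (LC τ) (z i) / l := by
    rw [h.hm.zt, zt_of_notMem hi1]
  have d1 : h.Dh (℘[h.Lh] (l * z i)) = (D (℘[LC τ] (z i)) * l - 2 * ℘[LC τ] (z i) * D l) /
      (be τ * l ^ 5) := by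
    rw [e1, h.Dh_apply, Derivation.leibniz_div, smul_eq_mul, smul_eq_mul, smul_eq_mul, D_pow]
    norm_num
    field_simp
  have d2 : h.Dh (zt h.Lh (l * z i)) = (D (zeta (LC τ) (z i)) * l - zeta (LC τ) (z i) * D l) /
      (be τ * l ^ 4) := by
    rw [e3, h.Dh_apply, Derivation.leibniz_div, smul_eq_mul, smul_eq_mul, smul_eq_mul]
    field_simp
  have d3 : h.Dh (l * z i) = (l * D (z i) + z i * D l) / (be τ * l ^ 2) := by
    rw [h.Dh_apply, D_mul]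
  have hv : vv h.Lh h.Dh (aa h.Lh) 1 (l * z i) = D (z i) / (be τ * l) -
      (al τ * z i + be τ * zeta (LC τ) (z i)) / (be τ * l) := by
    rw [vv, d1, e1, e2, h.cmp.wp, h.Dl, aa, h.gh]
    field_simp
    ring
  rw [mem_Cm, TT, RR, hv, d2, d3, e1, e2, e3, h.cmp.ze, h.Dl, aa, h.gh]
  constructor
  · field_simp
    ring
  · field_simp
    ring

end Gp

end Pool.Agent.Y685
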