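import Mathlib
import Pool.Agent.H73.G.R8.Y685.StepD

/-!
# The cocycle of a relation, and algebraic points
-/

set_option autoImplicit false

open Finset Module
open scoped Topology PeriodPair

noncomputable section

namespace Pool.Agent.Y685

open H667R3 Pool.Agent.W245.EB Pool.Agent.TH813.Ell
open Pool.Agent.TH813.Rel (DF MK)

variable {L : PeriodPair} {D δ ε : Derivation ℚ ℂ ℂ} {x y z : ℂ}

/-- closedness of the form of the first kind -/
theorem om_closed (h : Nrm L D) (h1 : δ L.g₂ = 0) (h2 : ε L.g₂ = 0) (v : ℂ) :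
    δ (om L ε v) - ε (om L δ v) = om L ⁅δ, ε⁆ v := by
  by_cases hv : 2 * v ∈ L.lattice
  · rw [om_of_two_mul_mem L _ hv, om_of_two_mul_mem L _ hv, om_of_two_mul_mem L _ hv]
    simp
  · have hv' := two_mul_notMem_of L hv
    have hy := wp'_ne_zero L hv
    obtain ⟨a1, a2⟩ := TH813.Ell.D_wp L δ h1 (g3_of h h1) hv'
    obtain ⟨b1, b2⟩ := TH813.Ell.D_wp L ε h2 (g3_of h h2) hv'
    have e1 := congrArg δ b1
    have e2 := congrArg ε a1
    rw [D_mul, a2] at e1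
    rw [D_mul, b2] at e2
    have e3 : om L ⁅δ, ε⁆ v * ℘'[L] v = ⁅δ, ε⁆ (℘[L] v) := by
      unfold om
      rw [div_mul_cancel₀ _ hy]
    rw [Derivation.commutator_apply] at e3
    apply mul_right_cancel₀ hy
    linear_combination -e3 - e1 + e2

theorem wpom_closed (h : Nrm L D) (h1 : δ L.g₂ = 0) (h2 : ε L.g₂ = 0) (v : ℂ) :
    δ (℘[L] v * om L ε v) - ε (℘[L] v * om L δ v) = ℘[L] v * om L ⁅δ, ε⁆ v := by
  rw [← om_closed h h1 h2]
  by_cases hv : 2 * v ∈ L.lattice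
  · rw [om_of_two_mul_mem L _ hv, om_of_two_mul_mem L _ hv]
    simp
  · have hv' := two_mul_notMem_of L hv
    obtain ⟨a1, a2⟩ := TH813.Ell.D_wp L δ h1 (g3_of h h1) hv'
    obtain ⟨b1, b2⟩ := TH813.Ell.D_wp L ε h2 (g3_of h h2) hv'
    rw [D_mul, D_mul, a1, b1]
    ring

/-- the forms which belong to a relation -/
def O1 (L : PeriodPair) {ι : Type} [Fintype ι] (v c : ι → ℂ) (δ : Derivation ℚ ℂ ℂ) : ℂ :=
  ∑ a, c a * om L δ (v a)

def O2 (L : PeriodPair) {ι : Type} [Fintype ι] (v c : ι → ℂ) (δ : Derivation ℚ ℂ ℂ) : ℂ :=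
  -∑ a, c a * (℘[L] (v a) * om L δ (v a))

section

variable {ι : Type} [Fintype ι] {v c : ι → ℂ}

theorem O1_add (δ ε : Derivation ℚ ℂ ℂ) : O1 L v c (δ + ε) = O1 L v c δ + O1 L v c ε := by
  unfold O1
  rw [← sum_add_distrib]
  exact sum_congr rfl (fun a _ => by rw [om_add_der]; ring)

theorem O2_add (δ ε : Derivation ℚ ℂ ℂ) : O2 L v c (δ + ε) = O2 L v c δ + O2 L v c ε := by
  unfold O2
  rw [← neg_add, ← sum_add_distrib]
  congr 1
  exact sum_congr rfl (fun a _ => by rw [om_add_der]; ring)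

theorem O1_smul (k : ℂ) (δ : Derivation ℚ ℂ ℂ) : O1 L v c (k • δ) = k * O1 L v c δ := by
  unfold O1
  rw [mul_sum]
  exact sum_congr rfl (fun a _ => by rw [om_smul_der]; ring)

theorem O2_smul (k : ℂ) (δ : Derivation ℚ ℂ ℂ) : O2 L v c (k • δ) = k * O2 L v c δ := by
  unfold O2
  rw [mul_neg, mul_sum]
  congr 1
  exact sum_congr rfl (fun a _ => by rw [om_smul_der]; ring)

theorem O_zero (h : Nrm L D) (hv : ∀ a, v a ∈ V1 L D) (hδ : δ ∈ DF (K1 L D)) :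
    O1 L v c δ = 0 ∧ O2 L v c δ = 0 := by
  have h0 : ∀ a, om L δ (v a) = 0 := fun a => V1_om h (hv a) hδ
  unfold O1 O2
  simp [h0]

theorem O_closed (h : Nrm L D) (hc : ∀ a, D (c a) = 0) (hδ : δ ∈ DF (Cst D)) (hε : ε ∈ DF (Cst D))
    (h1 : δ L.g₂ = 0) (h2 : ε L.g₂ = 0) :
    δ (O1 L v c ε) - ε (O1 L v c δ) = O1 L v c ⁅δ, ε⁆ ∧
      δ (O2 L v c ε) - ε (O2 L v c δ) = O2 L v c ⁅δ, ε⁆ := by
  constructor
  · unfold O1
    rw [map_sum, map_sum, ← sum_sub_distrib]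
    refine sum_congr rfl (fun a _ => ?_)
    rw [D_mul, D_mul, hδ _ (hc a), hε _ (hc a), ← om_closed h h1 h2]
    ring
  · unfold O2
    rw [map_neg, map_neg, map_sum, map_sum, sub_neg_eq_add, neg_add_eq_sub, ← sum_sub_distrib,
      ← sum_neg_distrib]
    refine sum_congr rfl (fun a _ => ?_)
    rw [D_mul ε (c a), D_mul δ (c a), hδ _ (hc a), hε _ (hc a), ← wpom_closed h h1 h2]
    ring

theorem solve2 {a b A B : ℂ} (h1 : a * L.ω₁ + b * L.ω₂ = A)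
    (h2 : a * eta L L.ω₁ + b * eta L L.ω₂ = B) :
    a * Lg L = A * eta L L.ω₂ - B * L.ω₂ ∧ b * Lg L = L.ω₁ * B - eta L L.ω₁ * A := by
  rw [← h1, ← h2]
  unfold Lg
  constructor <;> ring

theorem exists_sol (L : PeriodPair) (A B : ℂ) : ∃ a b : ℂ, a * L.ω₁ + b * L.ω₂ = A ∧
    a * eta L L.ω₁ + b * eta L L.ω₂ = B := by
  have := Lg_ne (L := L)
  refine ⟨(A * eta L L.ω₂ - B * L.ω₂) / Lg L, (L.ω₁ * B - eta L L.ω₁ * A) / Lg L, ?_, ?_⟩
  · field_simp
    unfold Lg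
    ring
  · field_simp
    unfold Lg
    ring

theorem sol_unique {a b : ℂ} (h1 : a * L.ω₁ + b * L.ω₂ = 0)
    (h2 : a * eta L L.ω₁ + b * eta L L.ω₂ = 0) : a = 0 ∧ b = 0 := by
  obtain ⟨h3, h4⟩ := solve2 h1 h2
  rw [zero_mul, zero_mul, sub_zero] at h3
  rw [mul_zero, mul_zero, sub_zero] at h4
  exact ⟨(mul_eq_zero.1 h3).resolve_right Lg_ne, (mul_eq_zero.1 h4).resolve_right Lg_ne⟩

variable {U1 U2 : ℂ}

/-- the derivative of the vector of a relation is the form up to a period -/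
theorem exists_tau (h : Nrm L D) (hX : IsX L D x y z δ) (hC : ∀ a, v a ∈ Cm h)
    (hV : ∀ a, v a ∈ V1 L D) (hc : ∀ a, D (c a) = 0) (hU1 : U1 = ∑ a, c a * v a)
    (hU2 : U2 = ∑ a, c a * zt L (v a)) (hK1 : U1 ∈ K1 L D) (hK2 : U2 ∈ K1 L D) :
    ∃ t1 t2 : ℂ, D t1 = 0 ∧ D t2 = 0 ∧ δ U1 = O1 L v c δ + (t1 * L.ω₁ + t2 * L.ω₂) ∧
      δ U2 = O2 L v c δ + (t1 * eta L L.ω₁ + t2 * eta L L.ω₂) := by
  obtain ⟨t1, t2, ht1, ht2⟩ := exists_sol L (δ U1 - O1 L v c δ) (δ U2 - O2 L v c δ)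
  have h0 : ∀ a, om L ⁅D, δ⁆ (v a) = 0 := fun a => V1_om h (hV a) (hX.br h)
  have hcomm : ∀ u ∈ K1 L D, D (δ u) = δ (D u) := by
    intro u hu
    have := hX.br h u hu
    rw [Derivation.commutator_apply] at this
    linear_combination this
  set S : ℂ := ∑ a, c a * vv L D (aa L) 1 (v a) with hS
  set S' : ℂ := ∑ a, c a * (vv L D (aa L) 1 (v a) * ℘[L] (v a) - ℘'[L] (v a) / 2) with hS'
  have hDU1 : D U1 = aa L * U1 + U2 + S := by
    rw [hU1, hU2, hS, map_sum, mul_sum, ← sum_add_distrib, ← sum_add_distrib]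
    refine sum_congr rfl (fun a _ => ?_)
    rw [D_mul, hc a, D_z (hC a)]
    ring
  have hDU2 : D U2 = -(aa L) * U2 - L.g₂ / 12 * U1 - S' := by
    rw [hU1, hU2, hS', map_sum, mul_sum, mul_sum, ← sum_sub_distrib, ← sum_sub_distrib]
    refine sum_congr rfl (fun a _ => ?_)
    rw [D_mul, hc a, D_zt (hC a)]
    ring
  have hδS : δ S = ∑ a, c a * δ (vv L D (aa L) 1 (v a)) := by
    rw [hS, map_sum]
    refine sum_congr rfl (fun a _ => ?_)
    rw [D_mul, hX.hC _ (hc a)]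
    ring
  have hδS' : δ S' = ∑ a, c a * δ (vv L D (aa L) 1 (v a) * ℘[L] (v a) - ℘'[L] (v a) / 2) := by
    rw [hS', map_sum]
    refine sum_congr rfl (fun a _ => ?_)
    rw [D_mul, hX.hC _ (hc a)]
    ring
  have hDO1 : D (O1 L v c δ) = aa L * O1 L v c δ + O2 L v c δ + δ S := by
    rw [hδS, O1, O2, map_sum, mul_sum, ← sub_eq_add_neg, ← sum_sub_distrib, ← sum_add_distrib]
    refine sum_congr rfl (fun a _ => ?_)
    rw [D_mul, hc a, D_om h hX.g, h0]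
    ring
  have hDO2 : D (O2 L v c δ) = -(aa L) * O2 L v c δ - L.g₂ / 12 * O1 L v c δ - δ S' := by
    rw [hδS', O1, O2, map_neg, map_sum, mul_neg, neg_mul, neg_neg, mul_sum, mul_sum,
      ← sum_sub_distrib, ← sum_sub_distrib, ← sum_neg_distrib]
    refine sum_congr rfl (fun a _ => ?_)
    rw [D_mul, hc a, D_wpom h hX.g, h0, δ_vw h hX.g]
    ring
  have hDA : D (δ U1 - O1 L v c δ) = aa L * (δ U1 - O1 L v c δ) + (δ U2 - O2 L v c δ) := by
    rw [map_sub, hcomm _ hK1, hDU1, map_add, map_add, δ_aa_mul hX.g, hDO1]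
    ring
  have hDB : D (δ U2 - O2 L v c δ) = -(aa L) * (δ U2 - O2 L v c δ) -
      L.g₂ / 12 * (δ U1 - O1 L v c δ) := by
    rw [map_sub, hcomm _ hK2, hDU2, map_sub, map_sub, neg_mul, map_neg, δ_aa_mul hX.g,
      δ_smul hX.g, hDO2]
    ring
  obtain ⟨h3, h4⟩ := solve2 ht1 ht2
  have hD1 : D t1 * Lg L = 0 := by
    have := congrArg D h3
    rw [D_mul, D_Lg h, map_sub, D_mul, D_mul, hDA, hDB, h.hω _ L.ω₂_mem_lattice,
      h.hη _ L.ω₂_mem_lattice] at this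
    linear_combination this
  have hD2 : D t2 * Lg L = 0 := by
    have := congrArg D h4
    rw [D_mul, D_Lg h, map_sub, D_mul, D_mul, hDA, hDB, h.hω _ L.ω₁_mem_lattice,
      h.hη _ L.ω₁_mem_lattice] at this
    linear_combination this
  refine ⟨t1, t2, (mul_eq_zero.1 hD1).resolve_right Lg_ne,
    (mul_eq_zero.1 hD2).resolve_right Lg_ne, ?_, ?_⟩
  · rw [ht1]; ring
  · rw [ht2]; ring

end

end Pool.Agent.Y685
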