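import Mathlib
import Pool.Agent.H73.G.R8.Y685.StepE

/-!
# The cocycle of a relation is a coboundary
-/

set_option autoImplicit false

open Finset Module
open scoped Topology PeriodPair

noncomputable section

namespace Pool.Agent.Y685

open H667R3 Pool.Agent.W245.EB Pool.Agent.TH813.Ell
open Pool.Agent.TH813.Rel (DF MK)

variable {L : PeriodPair} {D δ ε : Derivation ℚ ℂ ℂ} {x y z : ℂ}

section

variable {ι : Type} [Fintype ι] {v c : ι → ℂ} {U1 U2 : ℂ}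

/-- brackets of derivations which act by matrices -/
theorem br_X (h : Nrm L D) {x' y' z' : ℂ} (hX : IsX L D x y z δ) (hX' : IsX L D x' y' z' ε)
    {k : ℂ} {ρ : Derivation ℚ ℂ ℂ} (hρ : ρ ∈ DF (Cst D)) (hρg : ρ L.g₂ = 0)
    (w1 : k * ρ L.ω₁ = (y * z' - z * y') * L.ω₁ + 2 * (z * x' - x * z') * L.ω₂)
    (w2 : k * ρ L.ω₂ = 2 * (x * y' - y * x') * L.ω₁ - (y * z' - z * y') * L.ω₂)
    (e1 : k * ρ (eta L L.ω₁) =
      (y * z' - z * y') * eta L L.ω₁ + 2 * (z * x' - x * z') * eta L L.ω₂)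
    (e2 : k * ρ (eta L L.ω₂) =
      2 * (x * y' - y * x') * eta L L.ω₁ - (y * z' - z * y') * eta L L.ω₂) :
    ⁅δ, ε⁆ - k • ρ ∈ DF (K1 L D) := by
  have hx := hX.hC _ hX'.x0
  have hy := hX.hC _ hX'.y0
  have hz := hX.hC _ hX'.z0
  have hx' := hX'.hC _ hX.x0
  have hy' := hX'.hC _ hX.y0
  have hz' := hX'.hC _ hX.z0
  rw [mem_DF_clo]
  refine ⟨fun u hu => ?_, fun s hs => ?_⟩
  · rw [Derivation.sub_apply, Derivation.smul_apply, Derivation.commutator_apply, hX.hC u hu,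
      hX'.hC u hu, hρ u hu, map_zero, map_zero, smul_zero]
    ring
  · rw [Derivation.sub_apply, Derivation.smul_apply, Derivation.commutator_apply, smul_eq_mul]
    rcases hs with rfl | rfl | rfl | rfl | rfl
    · rw [hX.g, hX'.g, hρg, map_zero, map_zero]; ring
    · rw [w1, hX.w1, hX'.w1, map_add, map_add, D_mul, D_mul, D_mul, D_mul, hx, hz, hx', hz',
        hX.w1, hX.w2, hX'.w1, hX'.w2]
      ring
    · rw [w2, hX.w2, hX'.w2, map_sub, map_sub, D_mul, D_mul, D_mul, D_mul, hx, hy, hx', hy',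
        hX.w1, hX.w2, hX'.w1, hX'.w2]
      ring
    · rw [e1, hX.e1, hX'.e1, map_add, map_add, D_mul, D_mul, D_mul, D_mul, hx, hz, hx', hz',
        hX.e1, hX.e2, hX'.e1, hX'.e2]
      ring
    · rw [e2, hX.e2, hX'.e2, map_sub, map_sub, D_mul, D_mul, D_mul, D_mul, hx, hy, hx', hy',
        hX.e1, hX.e2, hX'.e1, hX'.e2]
      ring

theorem O_br (h : Nrm L D) (hV : ∀ a, v a ∈ V1 L D) {k : ℂ} {ρ : Derivation ℚ ℂ ℂ}
    (hbr : ⁅δ, ε⁆ - k • ρ ∈ DF (K1 L D)) : O1 L v c ⁅δ, ε⁆ = k * O1 L v c ρ ∧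
      O2 L v c ⁅δ, ε⁆ = k * O2 L v c ρ := by
  have h0 := O_zero (c := c) h hV hbr
  have e : ⁅δ, ε⁆ = (⁅δ, ε⁆ - k • ρ) + k • ρ := by abel
  constructor
  · rw [e, O1_add, O1_smul, h0.1, zero_add]
  · rw [e, O2_add, O2_smul, h0.2, zero_add]

/-- **Step 4** -/
theorem step4 (h : Nrm L D) (hS : Sl2 L D) (hC : ∀ a, v a ∈ Cm h)
    (hV : ∀ a, v a ∈ V1 L D) (hc : ∀ a, D (c a) = 0) (hU1 : U1 = ∑ a, c a * v a)
    (hU2 : U2 = ∑ a, c a * zt L (v a)) (hK1 : U1 ∈ K1 L D) (hK2 : U2 ∈ K1 L D) :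
    ∃ t1 t2 : ℂ, D t1 = 0 ∧ D t2 = 0 ∧ ∀ ε ∈ DF (K0 L D),
      ε (U1 - Om L t1 t2) = O1 L v c ε ∧ ε (U2 - Et L t1 t2) = O2 L v c ε := by
  obtain ⟨δE, hE⟩ := hS.E
  obtain ⟨δF, hF⟩ := hS.F
  obtain ⟨δH, hH⟩ := hS.H
  obtain ⟨a1, a2, ha1, ha2, hEU1, hEU2⟩ := exists_tau h hE hC hV hc hU1 hU2 hK1 hK2
  obtain ⟨b1, b2, hb1, hb2, hFU1, hFU2⟩ := exists_tau h hF hC hV hc hU1 hU2 hK1 hK2
  obtain ⟨t1, t2, ht1, ht2, hHU1, hHU2⟩ := exists_tau h hH hC hV hc hU1 hU2 hK1 hK2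
  have hEw1 := hE.w1
  have hEw2 := hE.w2
  have hEe1 := hE.e1
  have hEe2 := hE.e2
  have hFw1 := hF.w1
  have hFw2 := hF.w2
  have hFe1 := hF.e1
  have hFe2 := hF.e2
  have hHw1 := hH.w1
  have hHw2 := hH.w2
  have hHe1 := hH.e1
  have hHe2 := hH.e2
  have brE : ⁅δH, δE⁆ - (2 : ℂ) • δE ∈ DF (K1 L D) := br_X h hH hE hE.hC hE.g
    (by rw [hEw1]; ring) (by rw [hEw2]; ring) (by rw [hEe1]; ring) (by rw [hEe2]; ring)
  have brF : ⁅δH, δF⁆ - (-2 : ℂ) • δF ∈ DF (K1 L D) := br_X h hH hF hF.hC hF.g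
    (by rw [hFw1]; ring) (by rw [hFw2]; ring) (by rw [hFe1]; ring) (by rw [hFe2]; ring)
  -- the cocycle relations
  have cE : a1 = -t2 ∧ a2 = 0 := by
    obtain ⟨o1, o2⟩ := O_br (c := c) h hV brE
    obtain ⟨c1, c2⟩ := O_closed (v := v) h hc hH.hC hE.hC hH.g hE.g
    have k1 := brE _ hK1
    have k2 := brE _ hK2
    rw [Derivation.sub_apply, Derivation.smul_apply, Derivation.commutator_apply, smul_eq_mul,
      hEU1, hHU1, map_add, map_add, map_add, map_add, D_mul, D_mul, D_mul, D_mul, hHw1, hHw2, hEw1,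
      hEw2, hH.hC _ ha1, hH.hC _ ha2, hE.hC _ ht1, hE.hC _ ht2] at k1
    rw [Derivation.sub_apply, Derivation.smul_apply, Derivation.commutator_apply, smul_eq_mul,
      hEU2, hHU2, map_add, map_add, map_add, map_add, D_mul, D_mul, D_mul, D_mul, hHe1, hHe2, hEe1,
      hEe2, hH.hC _ ha1, hH.hC _ ha2, hE.hC _ ht1, hE.hC _ ht2] at k2
    rw [o1] at c1
    rw [o2] at c2
    have s1 : (-a1 - t2) * L.ω₁ + (-3 * a2) * L.ω₂ = 0 := by linear_combination k1 - c1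
    have s2 : (-a1 - t2) * eta L L.ω₁ + (-3 * a2) * eta L L.ω₂ = 0 := by
      linear_combination k2 - c2
    obtain ⟨s3, s4⟩ := sol_unique s1 s2
    exact ⟨by linear_combination -s3, by linear_combination -s4 / 3⟩
  have cF : b1 = 0 ∧ b2 = t1 := by
    obtain ⟨o1, o2⟩ := O_br (c := c) h hV brF
    obtain ⟨c1, c2⟩ := O_closed (v := v) h hc hH.hC hF.hC hH.g hF.g
    have k1 := brF _ hK1
    have k2 := brF _ hK2
    rw [Derivation.sub_apply, Derivation.smul_apply, Derivation.commutator_apply, smul_eq_mul,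
      hFU1, hHU1, map_add, map_add, map_add, map_add, D_mul, D_mul, D_mul, D_mul, hHw1, hHw2, hFw1,
      hFw2, hH.hC _ hb1, hH.hC _ hb2, hF.hC _ ht1, hF.hC _ ht2] at k1
    rw [Derivation.sub_apply, Derivation.smul_apply, Derivation.commutator_apply, smul_eq_mul,
      hFU2, hHU2, map_add, map_add, map_add, map_add, D_mul, D_mul, D_mul, D_mul, hHe1, hHe2, hFe1,
      hFe2, hH.hC _ hb1, hH.hC _ hb2, hF.hC _ ht1, hF.hC _ ht2] at k2
    rw [o1] at c1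
    rw [o2] at c2
    have s1 : (3 * b1) * L.ω₁ + (b2 - t1) * L.ω₂ = 0 := by linear_combination k1 - c1
    have s2 : (3 * b1) * eta L L.ω₁ + (b2 - t1) * eta L L.ω₂ = 0 := by
      linear_combination k2 - c2
    obtain ⟨s3, s4⟩ := sol_unique s1 s2
    exact ⟨by linear_combination s3 / 3, by linear_combination s4⟩
  obtain ⟨rfl, rfl⟩ := cE
  obtain ⟨rfl, rfl⟩ := cF
  have hmt2 : D (-t2) = 0 := by rw [map_neg, ht2, neg_zero]
  refine ⟨b2, -t2, ht1, hmt2, fun ε hε => ?_⟩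
  obtain ⟨hεC, hεg⟩ := mem_DF_clo.1 hε
  have hεg := hεg _ rfl
  set V1' := U1 - Om L b2 (-t2) with hV1'
  set V2' := U2 - Et L b2 (-t2) with hV2'
  have hVK1 : V1' ∈ K1 L D := sub_mem hK1 (Om_K1 (cst_K1 ht1) (cst_K1 hmt2))
  have hVK2 : V2' ∈ K1 L D := sub_mem hK2 (Et_K1 (cst_K1 ht1) (cst_K1 hmt2))
  have rE1 : δE V1' = O1 L v c δE := by
    rw [hV1', map_sub, hEU1, hE.d_Om ht1 hmt2]
    unfold Om
    ring
  have rE2 : δE V2' = O2 L v c δE := by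
    rw [hV2', map_sub, hEU2, hE.d_Et ht1 hmt2]
    unfold Et
    ring
  have rF1 : δF V1' = O1 L v c δF := by
    rw [hV1', map_sub, hFU1, hF.d_Om ht1 hmt2]
    unfold Om
    ring
  have rF2 : δF V2' = O2 L v c δF := by
    rw [hV2', map_sub, hFU2, hF.d_Et ht1 hmt2]
    unfold Et
    ring
  have rH1 : δH V1' = O1 L v c δH := by
    rw [hV1', map_sub, hHU1, hH.d_Om ht1 hmt2]
    unfold Om
    ring
  have rH2 : δH V2' = O2 L v c δH := by
    rw [hV2', map_sub, hHU2, hH.d_Et ht1 hmt2]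
    unfold Et
    ring
  -- the coordinates of `ε`
  obtain ⟨p1, p2, hp1, hp2⟩ := exists_sol L (ε L.ω₁) (ε (eta L L.ω₁))
  obtain ⟨q1, q2, hq1, hq2⟩ := exists_sol L (ε L.ω₂) (ε (eta L L.ω₂))
  have htr : p1 + q2 = 0 := by
    have h1 : ε (Lg L) = 0 := hεC _ (D_Lg h)
    have h2 : ε (Lg L) = (p1 + q2) * Lg L := by
      unfold Lg
      rw [map_sub, D_mul, D_mul, ← hp1, ← hp2, ← hq1, ← hq2]
      ring
    rw [h2] at h1
    exact (mul_eq_zero.1 h1).resolve_right Lg_ne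
  have hq2' : q2 = -p1 := by linear_combination htr
  rw [hq2'] at hq1 hq2
  set ε' : Derivation ℚ ℂ ℂ := p1 • δH + (q1 • δE + p2 • δF) with hε'
  have happ : ∀ u, ε' u = p1 * δH u + (q1 * δE u + p2 * δF u) := fun u => rfl
  have hε'C : ε' ∈ DF (Cst D) := (DF (Cst D)).add_mem ((DF _).smul_mem _ hH.hC)
    ((DF _).add_mem ((DF _).smul_mem _ hE.hC) ((DF _).smul_mem _ hF.hC))
  have heq : ∀ s ∈ Gen L, ε s = ε' s := by
    intro s hs
    rw [happ]
    rcases hs with rfl | rfl | rfl | rfl | rfl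
    · rw [hεg, hH.g, hE.g, hF.g]; ring
    · rw [← hp1, hHw1, hEw1, hFw1]; ring
    · rw [← hq1, hHw2, hEw2, hFw2]; ring
    · rw [← hp2, hHe1, hEe1, hFe1]; ring
    · rw [← hq2, hHe2, hEe2, hFe2]; ring
  have hdiff : ε - ε' ∈ DF (K1 L D) := by
    intro u hu
    rw [Derivation.sub_apply, der_ext hεC hε'C heq hu, sub_self]
  have hO := O_zero (c := c) h hV hdiff
  have e0 : ε = (ε - ε') + ε' := by abel
  constructor
  · rw [der_ext hεC hε'C heq hVK1, happ, rE1, rF1, rH1]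
    conv_rhs => rw [e0, O1_add, hO.1, hε', O1_add, O1_add, O1_smul, O1_smul, O1_smul]
    ring
  · rw [der_ext hεC hε'C heq hVK2, happ, rE2, rF2, rH2]
    conv_rhs => rw [e0, O2_add, hO.2, hε', O2_add, O2_add, O2_smul, O2_smul, O2_smul]
    ring

end

/-- coordinates with respect to a basis of the rational span -/
theorem exists_coordI {K : IntermediateField ℚ ℂ} {ι : Type} [Fintype ι] (c : ι → ℂ)
    (hc : ∀ j, c j ∈ K) :
    ∃ (d : ℕ) (e : Fin d → ℂ) (φ : Fin d → (ℂ →ₗ[ℚ] ℚ)), LinearIndependent ℚ e ∧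
      (∀ k, e k ∈ K) ∧ ∀ j, c j = ∑ k, (φ k (c j) : ℂ) * e k := by
  classical
  let S := Submodule.span ℚ (Set.range c)
  have : FiniteDimensional ℚ S := FiniteDimensional.span_of_finite ℚ (Set.finite_range c)
  let B := finBasis ℚ S
  obtain ⟨g, hg⟩ := LinearMap.exists_leftInverse_of_injective S.subtype (Submodule.ker_subtype _)
  have hgS : ∀ x (hx : x ∈ S), g x = ⟨x, hx⟩ := fun x hx =>
    LinearMap.congr_fun hg ⟨x, hx⟩
  have hSK : S ≤ Subalgebra.toSubmodule K.toSubalgebra := by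
    rw [Submodule.span_le]
    rintro _ ⟨j, rfl⟩
    exact hc j
  refine ⟨finrank ℚ S, fun k => (B k : ℂ), fun k => B.coord k ∘ₗ g, ?_, fun k => hSK (B k).2,
    fun j => ?_⟩
  · exact B.linearIndependent.map' S.subtype (Submodule.ker_subtype _)
  have hj : c j ∈ S := Submodule.subset_span ⟨j, rfl⟩
  have h1 := congrArg (fun t : S => (t : ℂ)) (B.sum_repr ⟨c j, hj⟩)
  simp only [Submodule.coe_sum, Submodule.coe_smul] at h1
  rw [← h1]
  refine sum_congr rfl (fun k _ => ?_)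
  rw [Rat.smul_def]
  congr 2
  rw [h1]
  change _ = B.repr (g (c j)) k
  rw [hgS _ hj]

end Pool.Agent.Y685
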