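import Mathlib
import Pool.Agent.H73.G.R8.Y685.StepF

/-!
# A small rank gives algebraic points with algebraic combinations of logarithms
-/

set_option autoImplicit false

open Finset Module
open scoped Topology PeriodPair

noncomputable section

namespace Pool.Agent.Y685

open H667R3 Pool.Agent.W245.EB Pool.Agent.TH813.Ell
open Pool.Agent.TH813.Rel (DF MK)

variable {L : PeriodPair} {D δ ε : Derivation ℚ ℂ ℂ} {x y z : ℂ}

theorem om_linI (h : Nrm L D) (h2 : δ L.g₂ = 0) {ι : Type} [Fintype ι] (q : ι → ℚ) (v : ι → ℂ) :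
    om L δ (∑ j, q j • v j) = ∑ j, (q j : ℂ) * om L δ (v j) := by
  rw [← omL_apply δ h2 (g3_of h h2), map_sum]
  refine sum_congr rfl (fun j _ => ?_)
  rw [map_smul, omL_apply, Rat.smul_def]

theorem et_linI (h : Nrm L D) (h2 : δ L.g₂ = 0) {ι : Type} [Fintype ι] (q : ι → ℚ) (v : ι → ℂ) :
    et L δ (∑ j, q j • v j) = ∑ j, (q j : ℂ) * et L δ (v j) := by
  rw [← etL_apply δ h2 (g3_of h h2), map_sum]
  refine sum_congr rfl (fun j _ => ?_)
  rw [map_smul, etL_apply, Rat.smul_def]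

theorem sum_coordI {ι : Type} [Fintype ι] {d : ℕ} {c : ι → ℂ} {e : Fin d → ℂ}
    {φ : Fin d → (ℂ →ₗ[ℚ] ℚ)} (hc : ∀ j, c j = ∑ k, (φ k (c j) : ℂ) * e k) (x : ι → ℂ) :
    ∑ k, e k * ∑ j, (φ k (c j) : ℂ) * x j = ∑ j, c j * x j := by
  have h1 : ∀ k, e k * ∑ j, (φ k (c j) : ℂ) * x j = ∑ j, ((φ k (c j) : ℂ) * e k) * x j := by
    intro k
    rw [mul_sum]
    exact sum_congr rfl (fun j _ => by ring)
  rw [sum_congr rfl (fun k _ => h1 k), sum_comm]
  refine sum_congr rfl (fun j _ => ?_)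
  rw [← sum_mul, ← hc j]

/-- a combination of logarithms of algebraic points which is algebraic up to periods -/
structure Bad (h : Nrm L D) {s : ℕ} (e w : Fin s → ℂ) (a b : ℂ) : Prop where
  ind : LinearIndependent ℚ e
  he : ∀ k, D (e k) = 0
  ha : D a = 0
  hb : D b = 0
  hC : ∀ k, w k ∈ Cm h
  hom : ∀ k, ∀ ε ∈ DF (K0 L D), om L ε (w k) = 0
  hw : ∃ k, w k ∉ PQ L
  m1 : ∑ k, e k * w k - Om L a b ∈ K0 L D
  m2 : ∑ k, e k * zt L (w k) - Et L a b ∈ K0 L D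

/-- Rosenlicht's theorem for an arbitrary finite index set -/
theorem rosI (h : Nrm L D) {ι : Type} [Fintype ι] {v c : ι → ℂ} (hc : ∀ a, D (c a) = 0) (u : ℂ)
    (hu : ∀ ε ∈ DF (K0 L D), ε u = O1 L v c ε) (ψ : ℂ →ₗ[ℚ] ℚ) :
    ∀ ε ∈ DF (K0 L D), ∑ a, (ψ (c a) : ℂ) * om L ε (v a) = 0 := by
  classical
  intro ε hε
  let E := Fintype.equivFin ι
  have hros := ros (L := L) (noCM h) (K0 L D) g_K0 (by rw [h.hg]; exact g_K0)
    (fun _ : Fin 0 => (0 : ℂ)) (fun _ : Fin 0 => (1 : ℂ)) (fun j => j.elim0) (fun j => j.elim0)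
    (fun i => c (E.symm i)) (fun _ => 0) (fun i => v (E.symm i))
    (fun i => cst_K0 (hc _)) (fun i => zero_mem _) u (by
      intro δ hδ
      simp only [zero_mul, sum_const_zero, zero_add, add_zero]
      rw [hu δ hδ, O1]
      exact (E.symm.sum_comp (fun a => c a * om L δ (v a))).symm) ψ ε hε
  rw [← hros.2.1]
  exact (E.symm.sum_comp (fun a => (ψ (c a) : ℂ) * om L ε (v a))).symm

end Pool.Agent.Y685
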