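import Mathlib
import Pool.Agent.H73.G.R8.Y685.E1A
import Pool.Agent.H73.G.R8.Y685.Stm3

/-!
# The ring of algebraic functions which belongs to a relation
-/

set_option autoImplicit false

open Finset Module
open scoped Topology PeriodPair

noncomputable section

namespace Pool.Agent.Y685

open H667R3 Pool.Agent.W245.EB Pool.Agent.TH813.Ell
open Pool.Agent.TH813.Rel (DF MK mem_cl)

variable {L : PeriodPair} {D : Derivation ℚ ℂ ℂ}

theorem two_notMem {w : ℂ} (hw : w ∉ PQ L) : 2 * w ∉ L.lattice := by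
  intro h
  apply hw
  obtain ⟨m, n, hmn⟩ := PeriodPair.mem_lattice.1 h
  rw [mem_PQ_iff]
  refine ⟨m / 2, n / 2, ?_⟩
  rw [Om]
  push_cast
  linear_combination -hmn / 2

/-- the discriminant -/
theorem g_ne_27 (h : Nrm L D) : L.g₂ ≠ 27 := by
  intro h27
  obtain ⟨u, hu, hu2⟩ := exists_wp_eq L (-3 / 2)
  have e1 := L.derivWeierstrassP_sq u hu
  rw [hu2, h.hg, h27] at e1
  have e2 : ℘'[L] u = 0 := by
    have : ℘'[L] u ^ 2 = 0 := by rw [e1]; norm_num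
    exact pow_eq_zero_iff two_ne_zero |>.1 this
  have e3 : 2 * u ∈ L.lattice := by
    by_contra h3
    exact wp'_ne_zero L h3 e2
  apply simple_root L hu e3
  rw [hu2, h27]
  norm_num

theorem transc_g (h : Nrm L D) : Transcendental (Cst D) L.g₂ := by
  intro halg
  have h1 : L.g₂ ∈ clo (Cst D) ∅ := by
    rw [mem_clo_iff, mem_cl]
    exact halg.extendScalars
      (algebraMap (Cst D) (Algebra.adjoin (Cst D) (∅ : Set ℂ))).injective
  have h2 : D L.g₂ = 0 := h1 D D_DF (fun s hs => absurd hs (Set.notMem_empty s))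
  rw [h.hD] at h2
  rcases mul_eq_zero.1 h2 with h3 | h3
  · apply g_ne_27 h
    linear_combination (3 / 2 : ℂ) * h3
  · exact h.g0 h3

/-- the polynomial which gives the derivative of `g₂` -/
def EE (D : Derivation ℚ ℂ ℂ) : Polynomial (Cst D) :=
  Polynomial.C (algebraMap ℚ (Cst D) (-18)) * Polynomial.X + Polynomial.C (algebraMap ℚ (Cst D) (2 / 3)) *
    Polynomial.X ^ 2

theorem aeval_EE (z : ℂ) : (Polynomial.aeval z (EE D) : ℂ) = -(18 - 2 / 3 * z) * z := by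
  have h1 : algebraMap (Cst D) ℂ (algebraMap ℚ (Cst D) (2 / 3)) = 2 / 3 := by
    rw [← IsScalarTower.algebraMap_apply]
    simp
  have h2 : algebraMap (Cst D) ℂ (algebraMap ℚ (Cst D) (-18)) = -18 := by
    rw [← IsScalarTower.algebraMap_apply]
    simp
  rw [EE, map_add, map_mul, map_mul, map_pow, Polynomial.aeval_X, Polynomial.aeval_C,
    Polynomial.aeval_C, h1, h2]
  ring

theorem isAlg_of_K0 {x : ℂ} (hx : x ∈ K0 L D) :
    IsAlgebraic (IntermediateField.adjoin (Cst D) {L.g₂}) x := by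
  rw [IntermediateField.isAlgebraic_adjoin_iff]
  exact mem_cl.1 (mem_clo_iff.1 hx)

variable {s : ℕ} {e w : Fin (s + 1) → ℂ} {a b : ℂ} {ψ : ℂ →ₗ[ℚ] ℚ} {h : Nrm L D}

/-- the algebraic numbers which occur in a relation -/
def ZZ (L : PeriodPair) (e w : Fin (s + 1) → ℂ) (a b : ℂ) : Set ℂ :=
  Set.range (fun i => ℘[L] (w i)) ∪ (Set.range (fun i => ℘'[L] (w i)) ∪
    (Set.range (fun i => (℘'[L] (w i))⁻¹) ∪
      {∑ k, e k * w k - Om L a b, ∑ k, e k * zt L (w k) - Et L a b}))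

theorem ZZ_finite : (ZZ L e w a b).Finite :=
  (Set.finite_range _).union ((Set.finite_range _).union ((Set.finite_range _).union
    (Set.toFinite _)))

theorem Bd.ZZ_K0 (B : Bd h e w a b ψ) {x : ℂ} (hx : x ∈ ZZ L e w a b) : x ∈ K0 L D := by
  have key : ∀ i, ℘[L] (w i) ∈ K0 L D ∧ ℘'[L] (w i) ∈ K0 L D := by
    intro i
    have h1 : ∀ ε ∈ DF (K0 L D), ε (℘[L] (w i)) = 0 ∧ ε (℘'[L] (w i)) = 0 := by
      intro ε hε
      have h2 : ε L.g₂ = 0 := hε _ g_K0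
      exact wp_killed h2 (g3_of h h2) (B.hom i ε hε) (two_mul_notMem_of L (two_notMem (B.hw i)))
    exact ⟨fun ε hC hS => (h1 ε (mem_DF_clo.2 ⟨hC, hS⟩)).1,
      fun ε hC hS => (h1 ε (mem_DF_clo.2 ⟨hC, hS⟩)).2⟩
  rcases hx with ⟨i, rfl⟩ | ⟨i, rfl⟩ | ⟨i, rfl⟩ | hx | hx
  · exact (key i).1
  · exact (key i).2
  · exact inv_mem (key i).2
  · rw [hx]; exact B.m1
  · rw [hx]; exact B.m2

theorem Bd.exists_Plc (hP : S_P) (B : Bd h e w a b ψ) :
    Nonempty (Plc (Cst D) L.g₂ D (EE D) (ZZ L e w a b)) :=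
  hP _ _ _ _ _ (transc_g h) (fun c hc => hc) (by rw [h.hD, aeval_EE]) ZZ_finite
    (fun z hz => isAlg_of_K0 (B.ZZ_K0 hz))

namespace Plc

variable {C : IntermediateField ℚ ℂ} {g₀ : ℂ} {E : Polynomial C} {Z : Set ℂ}
  (pl : Plc C g₀ D E Z) {g θ : ℂ}

/-- evaluation as a homomorphism -/
def hom (hg : pl.H.eval g ≠ 0) (hθ : θ ∈ pl.Rt g) : pl.R →+* ℂ where
  toFun := fun x => pl.ev g θ x
  map_one' := pl.hc g hg θ hθ 1 (one_mem C)
  map_mul' := fun x y => pl.hmul g hg θ hθ x x.2 y y.2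
  map_zero' := pl.hc g hg θ hθ 0 (zero_mem C)
  map_add' := fun x y => pl.hadd g hg θ hθ x x.2 y y.2

/-- rational numbers as elements of the ring -/
def q (r : ℚ) : pl.R := ⟨(r : ℂ), pl.hC (C.algebraMap_mem r)⟩

theorem hom_q (hg : pl.H.eval g ≠ 0) (hθ : θ ∈ pl.Rt g) (r : ℚ) : pl.hom hg hθ (pl.q r) = r :=
  pl.hc g hg θ hθ _ (C.algebraMap_mem r)

theorem q_coe (r : ℚ) : ((pl.q r : pl.R) : ℂ) = r := rfl

end Plc

/-- the relations between the values -/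
structure Rels {s : ℕ} (g : ℂ) (e X Y V DX : Fin (s + 1) → ℂ) (K₁ K₂ DK₁ DK₂ : ℂ) : Prop where
  Y2 : ∀ i, Y i ^ 2 = 4 * X i ^ 3 - g * X i - g
  Y0 : ∀ i, Y i ≠ 0
  dX : ∀ i, DX i = -2 * (3 - g / 6) * X i + (g / 3 - 2 * X i ^ 2) + V i * Y i
  dK₁ : DK₁ = (3 - g / 6) * K₁ + K₂ + ∑ i, e i * V i
  dK₂ : DK₂ = -(3 - g / 6) * K₂ - g / 12 * K₁ + ∑ i, e i * (Y i / 2 - V i * X i)

theorem Bd.rels_base (B : Bd h e w a b ψ) :
    Rels L.g₂ e (fun i => ℘[L] (w i)) (fun i => ℘'[L] (w i)) (fun i => vv L D (aa L) 1 (w i))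
      (fun i => D (℘[L] (w i))) (∑ k, e k * w k - Om L a b) (∑ k, e k * zt L (w k) - Et L a b)
      (D (∑ k, e k * w k - Om L a b)) (D (∑ k, e k * zt L (w k) - Et L a b)) where
  Y2 := fun i => by
    have h1 := L.derivWeierstrassP_sq (w i) (two_mul_notMem_of L (two_notMem (B.hw i)))
    rw [h.hg] at h1
    exact h1
  Y0 := fun i => wp'_ne_zero L (two_notMem (B.hw i))
  dX := fun i => by
    have h1 := (D_wp' D h.D2 h.D3 (two_mul_notMem_of L (two_notMem (B.hw i)))).1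
    have ha : aa L = 3 - L.g₂ / 6 := rfl
    linear_combination h1 - 2 * ℘[L] (w i) * ha
  dK₁ := by
    have h1 : ∀ i, D (e i * w i) =
        e i * (aa L * w i + vv L D (aa L) 1 (w i) + zt L (w i)) := fun i => by
      rw [D_mul, B.he, D_z (B.hC i)]
      ring
    rw [map_sub, map_sum, D_Om h B.ha B.hb, sum_congr rfl (fun i _ => h1 i)]
    have h2 : ∑ i, e i * (aa L * w i + vv L D (aa L) 1 (w i) + zt L (w i)) =
        aa L * ∑ i, e i * w i + ∑ i, e i * vv L D (aa L) 1 (w i) + ∑ i, e i * zt L (w i) := by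
      rw [mul_sum, ← sum_add_distrib, ← sum_add_distrib]
      exact sum_congr rfl (fun i _ => by ring)
    rw [h2, aa]
    ring
  dK₂ := by
    have h1 : ∀ i, D (e i * zt L (w i)) = e i * (-(aa L) * zt L (w i) + ℘'[L] (w i) / 2 -
        vv L D (aa L) 1 (w i) * ℘[L] (w i) - L.g₂ / 12 * w i) := fun i => by
      rw [D_mul, B.he, D_zt (B.hC i)]
      ring
    rw [map_sub, map_sum, D_Et h B.ha B.hb, sum_congr rfl (fun i _ => h1 i)]
    have h2 : ∑ i, e i * (-(aa L) * zt L (w i) + ℘'[L] (w i) / 2 -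
        vv L D (aa L) 1 (w i) * ℘[L] (w i) - L.g₂ / 12 * w i) =
        -(aa L) * ∑ i, e i * zt L (w i) - L.g₂ / 12 * ∑ i, e i * w i +
          ∑ i, e i * (℘'[L] (w i) / 2 - vv L D (aa L) 1 (w i) * ℘[L] (w i)) := by
      rw [mul_sum, mul_sum, ← sum_sub_distrib, ← sum_add_distrib]
      exact sum_congr rfl (fun i _ => by ring)
    rw [h2, aa]
    ring

variable (pl : Plc (Cst D) L.g₂ D (EE D) (ZZ L e w a b))

theorem Plc.mX (i : Fin (s + 1)) : ℘[L] (w i) ∈ pl.R := pl.hZ (Or.inl ⟨i, rfl⟩)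
theorem Plc.mY (i : Fin (s + 1)) : ℘'[L] (w i) ∈ pl.R := pl.hZ (Or.inr (Or.inl ⟨i, rfl⟩))
theorem Plc.mYi (i : Fin (s + 1)) : (℘'[L] (w i))⁻¹ ∈ pl.R :=
  pl.hZ (Or.inr (Or.inr (Or.inl ⟨i, rfl⟩)))
theorem Plc.mK₁ : ∑ k, e k * w k - Om L a b ∈ pl.R :=
  pl.hZ (Or.inr (Or.inr (Or.inr (Or.inl rfl))))
theorem Plc.mK₂ : ∑ k, e k * zt L (w k) - Et L a b ∈ pl.R :=
  pl.hZ (Or.inr (Or.inr (Or.inr (Or.inr rfl))))

theorem Plc.mV (i : Fin (s + 1)) : vv L D (aa L) 1 (w i) ∈ pl.R := by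
  have h1 : vv L D (aa L) 1 (w i) = (D (℘[L] (w i)) + ((2 : ℚ) : ℂ) *
      (((3 : ℚ) : ℂ) - L.g₂ * ((1 / 6 : ℚ) : ℂ)) * ℘[L] (w i) -
      (L.g₂ * ((1 / 3 : ℚ) : ℂ) - ((2 : ℚ) : ℂ) * ℘[L] (w i) ^ 2)) * (℘'[L] (w i))⁻¹ := by
    rw [vv, aa, div_eq_mul_inv]
    push_cast
    ring
  rw [h1]
  have hq : ∀ r : ℚ, (r : ℂ) ∈ pl.R := fun r => pl.hC ((Cst D).algebraMap_mem r)
  exact mul_mem (sub_mem (add_mem (pl.hD _ (pl.mX i)) (mul_mem (mul_mem (hq 2)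
    (sub_mem (hq 3) (mul_mem pl.hg (hq _)))) (pl.mX i))) (sub_mem (mul_mem pl.hg (hq _))
      (mul_mem (hq 2) (pow_mem (pl.mX i) 2)))) (pl.mYi i)

/-- the relations between the values -/
theorem Bd.rels (B : Bd h e w a b ψ) {g θ : ℂ} (hg : pl.H.eval g ≠ 0) (hθ : θ ∈ pl.Rt g) :
    Rels g e (fun i => pl.ev g θ (℘[L] (w i))) (fun i => pl.ev g θ (℘'[L] (w i)))
      (fun i => pl.ev g θ (vv L D (aa L) 1 (w i)))
      (fun i => pl.ev g θ (D (℘[L] (w i)))) (pl.ev g θ (∑ k, e k * w k - Om L a b))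
      (pl.ev g θ (∑ k, e k * zt L (w k) - Et L a b))
      (pl.ev g θ (D (∑ k, e k * w k - Om L a b)))
      (pl.ev g θ (D (∑ k, e k * zt L (w k) - Et L a b))) := by
  have hb := B.rels_base
  let X : Fin (s + 1) → pl.R := fun i => ⟨_, pl.mX i⟩
  let Y : Fin (s + 1) → pl.R := fun i => ⟨_, pl.mY i⟩
  let Yi : Fin (s + 1) → pl.R := fun i => ⟨_, pl.mYi i⟩
  let V : Fin (s + 1) → pl.R := fun i => ⟨_, pl.mV i⟩
  let DX : Fin (s + 1) → pl.R := fun i => ⟨_, pl.hD _ (pl.mX i)⟩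
  let e' : Fin (s + 1) → pl.R := fun i => ⟨e i, pl.hC (B.he i)⟩
  let K₁ : pl.R := ⟨_, pl.mK₁⟩
  let K₂ : pl.R := ⟨_, pl.mK₂⟩
  let DK₁ : pl.R := ⟨_, pl.hD _ pl.mK₁⟩
  let DK₂ : pl.R := ⟨_, pl.hD _ pl.mK₂⟩
  let G : pl.R := ⟨L.g₂, pl.hg⟩
  have hG : pl.hom hg hθ G = g := pl.hg₀ g hg θ hθ
  have he' : ∀ i, pl.hom hg hθ (e' i) = e i := fun i => pl.hc g hg θ hθ _ (B.he i)
  have r1 : ∀ i, Y i ^ 2 = pl.q 4 * X i ^ 3 - G * X i - G := fun i => Subtype.ext (by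
    have := hb.Y2 i
    push_cast
    rw [pl.q_coe]
    push_cast
    exact this)
  have r2 : ∀ i, Y i * Yi i = 1 := fun i => Subtype.ext (by
    push_cast
    exact mul_inv_cancel₀ (hb.Y0 i))
  have r3 : ∀ i, DX i = -pl.q 2 * (pl.q 3 - G * pl.q (1 / 6)) * X i +
      (G * pl.q (1 / 3) - pl.q 2 * X i ^ 2) + V i * Y i := fun i => Subtype.ext (by
    have := hb.dX i
    push_cast
    rw [pl.q_coe, pl.q_coe, pl.q_coe, pl.q_coe]
    push_cast
    linear_combination this)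
  have r4 : DK₁ = (pl.q 3 - G * pl.q (1 / 6)) * K₁ + K₂ + ∑ i, e' i * V i := Subtype.ext (by
    have := hb.dK₁
    push_cast
    rw [pl.q_coe, pl.q_coe]
    push_cast
    linear_combination this)
  have r5 : DK₂ = -(pl.q 3 - G * pl.q (1 / 6)) * K₂ - G * pl.q (1 / 12) * K₁ +
      ∑ i, e' i * (Y i * pl.q (1 / 2) - V i * X i) := Subtype.ext (by
    have := hb.dK₂
    have h3 : ∑ i, e i * (℘'[L] (w i) * (1 / 2) - vv L D (aa L) 1 (w i) * ℘[L] (w i)) =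
        ∑ i, e i * (℘'[L] (w i) / 2 - vv L D (aa L) 1 (w i) * ℘[L] (w i)) :=
      sum_congr rfl (fun i _ => by ring)
    push_cast
    rw [pl.q_coe, pl.q_coe, pl.q_coe, pl.q_coe]
    push_cast
    rw [h3]
    linear_combination this)
  have s1 := fun i => congrArg (pl.hom hg hθ) (r1 i)
  have s2 := fun i => congrArg (pl.hom hg hθ) (r2 i)
  have s3 := fun i => congrArg (pl.hom hg hθ) (r3 i)
  have s4 := congrArg (pl.hom hg hθ) r4
  have s5 := congrArg (pl.hom hg hθ) r5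
  simp only [map_pow, map_sub, map_mul, map_add, map_neg, map_one, map_sum, pl.hom_q, hG, he']
    at s1 s2 s3 s4 s5
  refine ⟨fun i => ?_, fun i => ?_, fun i => ?_, ?_, ?_⟩
  · have := s1 i
    push_cast at this
    exact this
  · exact left_ne_zero_of_mul_eq_one (s2 i)
  · have := s3 i
    push_cast at this
    change pl.hom hg hθ (DX i) = -2 * (3 - g / 6) * pl.hom hg hθ (X i) +
      (g / 3 - 2 * pl.hom hg hθ (X i) ^ 2) + pl.hom hg hθ (V i) * pl.hom hg hθ (Y i)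
    linear_combination this
  · push_cast at s4
    change pl.hom hg hθ DK₁ = (3 - g / 6) * pl.hom hg hθ K₁ + pl.hom hg hθ K₂ +
      ∑ i, e i * pl.hom hg hθ (V i)
    linear_combination s4
  · push_cast at s5
    have h3 : ∑ i, e i * (pl.hom hg hθ (Y i) * (1 / 2) - pl.hom hg hθ (V i) * pl.hom hg hθ (X i)) =
        ∑ i, e i * (pl.hom hg hθ (Y i) / 2 - pl.hom hg hθ (V i) * pl.hom hg hθ (X i)) :=
      sum_congr rfl (fun i _ => by ring)
    rw [h3] at s5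
    change pl.hom hg hθ DK₂ = -(3 - g / 6) * pl.hom hg hθ K₂ - g / 12 * pl.hom hg hθ K₁ +
      ∑ i, e i * (pl.hom hg hθ (Y i) / 2 - pl.hom hg hθ (V i) * pl.hom hg hθ (X i))
    linear_combination s5

end Pool.Agent.Y685
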