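import Mathlib
import Pool.Agent.H73.G.R8.Y685.Scale
import Pool.Agent.H73.G.R8.Y685.TauC

/-!
# The multivalued function which belongs to a relation
-/

set_option autoImplicit false

open Finset
open scoped Topology PeriodPair

noncomputable section

namespace Pool.Agent.Y685

open H667R3 Pool.Agent.W245.EB

variable {s : ℕ} {e X Y u u' : Fin (s + 1) → ℂ} {K₁ K₂ l l' A A' B B' t t' f f' Z Z' : ℂ}
  {ψ : ℂ →ₗ[ℚ] ℚ}

/-- a choice of a square root `l` of `g₃/g₂`, of logarithms `u` of the points `(l² X, l³ Y)` and the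
coordinates `A, B` of the vector -/
structure Ch (t : ℂ) (e X Y : Fin (s + 1) → ℂ) (K₁ K₂ l : ℂ) (u : Fin (s + 1) → ℂ) (A B : ℂ) :
    Prop where
  hl : l ^ 2 * (LC t).g₂ = (LC t).g₃
  hu : ∀ i, u i ∉ (LC t).lattice
  hX : ∀ i, ℘[LC t] (u i) = l ^ 2 * X i
  hY : ∀ i, ℘'[LC t] (u i) = l ^ 3 * Y i
  hA : ∑ i, e i * u i - K₁ / l = A + B * t
  hB : ∑ i, e i * zeta (LC t) (u i) - l * K₂ = A * h1 t + B * h2 t

theorem Wc_ne' (ht : 0 < t.im) : Wc t ≠ 0 := (H2.task_A4 t ht).2.2.2.2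

/-- the linear system -/
theorem exists_AB (ht : 0 < t.im) (x y : ℂ) :
    ∃ A B : ℂ, x = A + B * t ∧ y = A * h1 t + B * h2 t := by
  have hW := Wc_ne' ht
  have hW' : h2 t - t * h1 t ≠ 0 := hW
  refine ⟨(x * h2 t - t * y) / (h2 t - t * h1 t), (y - h1 t * x) / (h2 t - t * h1 t), ?_, ?_⟩
  · field_simp
    ring
  · field_simp
    ring

theorem AB_unique (ht : 0 < t.im) (h1' : A + B * t = A' + B' * t)
    (h2' : A * h1 t + B * h2 t = A' * h1 t + B' * h2 t) : A = A' ∧ B = B' := by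
  have hW := Wc_ne' ht
  have e1 : (B - B') * Wc t = 0 := by
    unfold Wc
    linear_combination h2' - h1 t * h1'
  have e2 : B = B' := by
    rcases mul_eq_zero.1 e1 with h | h
    · linear_combination h
    · exact absurd h hW
  refine ⟨?_, e2⟩
  rw [e2] at h1'
  linear_combination h1'

/-- existence of choices -/
theorem Ch.exists (ht : 0 < t.im) (g2 : (LC t).g₂ ≠ 0) (g3 : (LC t).g₃ ≠ 0)
    (hXY : ∀ i, Y i ^ 2 = 4 * X i ^ 3 - (LC t).g₂ ^ 3 / (LC t).g₃ ^ 2 * X i -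
      (LC t).g₂ ^ 3 / (LC t).g₃ ^ 2) (e : Fin (s + 1) → ℂ) (K₁ K₂ : ℂ) :
    ∃ l u A B, Ch t e X Y K₁ K₂ l u A B := by
  obtain ⟨l, hl⟩ := IsAlgClosed.exists_pow_nat_eq ((LC t).g₃ / (LC t).g₂) two_pos
  have hl' : l ^ 2 * (LC t).g₂ = (LC t).g₃ := by rw [hl, div_mul_cancel₀ _ g2]
  have key : ∀ i, ∃ v, v ∉ (LC t).lattice ∧ ℘[LC t] v = l ^ 2 * X i ∧
      ℘'[LC t] v = l ^ 3 * Y i := by
    intro i
    obtain ⟨v, hv, hvX⟩ := exists_wp_eq (LC t) (l ^ 2 * X i)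
    have e1 := (LC t).derivWeierstrassP_sq v hv
    rw [hvX] at e1
    have e2 : ℘'[LC t] v ^ 2 = (l ^ 3 * Y i) ^ 2 := by
      have e3 : (l ^ 3 * Y i) ^ 2 = l ^ 6 * Y i ^ 2 := by ring
      have hl0 : l ≠ 0 := by
        rintro rfl
        apply g3
        rw [← hl']
        ring
      rw [e1, e3, hXY i, ← hl']
      field_simp
    rcases sq_eq_sq_iff_eq_or_eq_neg.1 e2 with h | h
    · exact ⟨v, hv, hvX, h⟩
    · refine ⟨-v, fun h3 => hv (by simpa using neg_mem h3), ?_, ?_⟩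
      · rw [PeriodPair.weierstrassP_neg, hvX]
      · rw [PeriodPair.derivWeierstrassP_neg, h, neg_neg]
  choose u hu hX hY using key
  obtain ⟨A, B, hA, hB⟩ := exists_AB ht (∑ i, e i * u i - K₁ / l)
    (∑ i, e i * zeta (LC t) (u i) - l * K₂)
  exact ⟨l, u, A, B, hl', hu, hX, hY, hA, hB⟩

/-- points with the same coordinates -/
theorem sub_mem_of_wp {L : PeriodPair} {u v : ℂ} (hu : u ∉ L.lattice) (hv : v ∉ L.lattice)
    (h : ℘[L] u = ℘[L] v) (h' : ℘'[L] u = ℘'[L] v) (h0 : ℘'[L] u ≠ 0) : u - v ∈ L.lattice := by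
  rcases (wp_eq_iff L hu hv).1 h with h1 | h1
  · exfalso
    have e1 : ℘'[L] u = ℘'[L] (-v) := by
      have e2 : u = -v + (u + v) := by ring
      conv_lhs => rw [e2]
      exact L.derivWeierstrassP_add_coe (-v) ⟨u + v, h1⟩
    rw [PeriodPair.derivWeierstrassP_neg, ← h'] at e1
    apply h0
    linear_combination e1 / 2
  · exact h1

theorem zeta_shift (ht : 0 < t.im) {v : ℂ} (hv : v ∉ (LC t).lattice) (m n : ℤ) :
    zeta (LC t) (v + (m + n * t)) = zeta (LC t) v + (m * h1 t + n * h2 t) := by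
  have m1 : (1 : ℂ) ∈ (LC t).lattice := (mem_LC ht).2 ⟨1, 0, by simp⟩
  have m2 : t ∈ (LC t).lattice := (mem_LC ht).2 ⟨0, 1, by simp⟩
  have m1' : (m : ℂ) * 1 ∈ (LC t).lattice := (mem_LC ht).2 ⟨m, 0, by simp⟩
  have m2' : (n : ℂ) * t ∈ (LC t).lattice := (mem_LC ht).2 ⟨0, n, by simp⟩
  have m3 : (m : ℂ) + n * t ∈ (LC t).lattice := (mem_LC ht).2 ⟨m, n, rfl⟩
  rw [zeta_add_coe _ hv m3]
  congr 1
  have e4 : (m : ℂ) + n * t = m * 1 + n * t := by ring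
  rw [e4, eta_add _ m1' m2', eta_zsmul _ m1, eta_zsmul _ m2]
  rfl

/-- uniqueness of choices -/
theorem Ch.unique (ht : 0 < t.im) (g3 : (LC t).g₃ ≠ 0) (hY0 : ∀ i, Y i ≠ 0)
    (h : Ch t e X Y K₁ K₂ l u A B) (h' : Ch t e X Y K₁ K₂ l' u' A' B') :
    ∃ (ε : ℤ) (m n : Fin (s + 1) → ℤ), ε ^ 2 = 1 ∧ (∀ i, u' i = ε * u i + (m i + n i * t)) ∧
      (∀ i, zeta (LC t) (u' i) = ε * zeta (LC t) (u i) + (m i * h1 t + n i * h2 t)) ∧
      A' = ε * A + ∑ i, e i * m i ∧ B' = ε * B + ∑ i, e i * n i := by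
  have g2 : (LC t).g₂ ≠ 0 := by
    intro h0
    apply g3
    rw [← h.hl, h0, mul_zero]
  have hl0 : l ≠ 0 := by
    rintro rfl
    apply g3
    rw [← h.hl]
    ring
  have hll : l' ^ 2 = l ^ 2 := mul_right_cancel₀ g2 (h'.hl.trans h.hl.symm)
  obtain ⟨ε, hε, hlε⟩ : ∃ ε : ℤ, (ε = 1 ∨ ε = -1) ∧ l' = ε * l := by
    rcases sq_eq_sq_iff_eq_or_eq_neg.1 hll with h1 | h1
    · exact ⟨1, Or.inl rfl, by rw [h1]; push_cast; ring⟩
    · exact ⟨-1, Or.inr rfl, by rw [h1]; push_cast; ring⟩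
  have hε2 : ε ^ 2 = 1 := by rcases hε with rfl | rfl <;> norm_num
  have hεC : (ε : ℂ) ^ 2 = 1 := by exact_mod_cast hε2
  have hε0 : (ε : ℂ) ≠ 0 := by
    rcases hε with rfl | rfl <;> norm_num
  -- the points
  have hεu : ∀ i, ε * u i ∉ (LC t).lattice ∧ ℘[LC t] (ε * u i) = ℘[LC t] (u i) ∧
      ℘'[LC t] (ε * u i) = ε * ℘'[LC t] (u i) ∧
      zeta (LC t) (ε * u i) = ε * zeta (LC t) (u i) := by
    intro i
    rcases hε with rfl | rfl
    · push_cast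
      simp only [one_mul]
      exact ⟨h.hu i, trivial, trivial, trivial⟩
    · push_cast
      simp only [neg_mul, one_mul]
      exact ⟨fun h3 => h.hu i (by simpa using neg_mem h3), PeriodPair.weierstrassP_neg _ _,
        PeriodPair.derivWeierstrassP_neg _ _, zeta_neg _ _⟩
  have hmem : ∀ i, u' i - ε * u i ∈ (LC t).lattice := by
    intro i
    obtain ⟨a1, a2, a3, -⟩ := hεu i
    apply sub_mem_of_wp (h'.hu i) a1
    · rw [a2, h'.hX, h.hX, hll]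
    · rw [a3, h'.hY, h.hY, hlε]
      linear_combination (ε * l ^ 3 * Y i) * hεC
    · rw [h'.hY, hlε]
      exact mul_ne_zero (pow_ne_zero 3 (mul_ne_zero hε0 hl0)) (hY0 i)
  choose m n hmn using fun i => (mem_LC ht).1 (hmem i)
  have hu' : ∀ i, u' i = ε * u i + (m i + n i * t) := fun i => by
    rw [hmn i]
    ring
  have hz' : ∀ i, zeta (LC t) (u' i) = ε * zeta (LC t) (u i) + (m i * h1 t + n i * h2 t) := by
    intro i
    rw [hu' i, zeta_shift ht (hεu i).1, (hεu i).2.2.2]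
  refine ⟨ε, m, n, hε2, hu', hz', ?_⟩
  have hinv : (1 : ℂ) / (ε * l) = ε * (1 / l) := by
    field_simp
    linear_combination -hεC
  have e1 : A' + B' * t = (ε * A + ∑ i, e i * m i) + (ε * B + ∑ i, e i * n i) * t := by
    rw [← h'.hA, hlε]
    have e2 : ∑ i, e i * u' i = ε * ∑ i, e i * u i + (∑ i, e i * m i + (∑ i, e i * n i) * t) := by
      rw [mul_sum, sum_mul, ← sum_add_distrib, ← sum_add_distrib]
      refine sum_congr rfl (fun i _ => ?_)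
      rw [hu' i]
      ring
    rw [e2]
    have e3 : K₁ / (ε * l) = ε * (K₁ / l) := by
      linear_combination K₁ * hinv
    rw [e3]
    linear_combination ε * h.hA
  have e2 : A' * h1 t + B' * h2 t = (ε * A + ∑ i, e i * m i) * h1 t +
      (ε * B + ∑ i, e i * n i) * h2 t := by
    rw [← h'.hB, hlε]
    have e2 : ∑ i, e i * zeta (LC t) (u' i) = ε * ∑ i, e i * zeta (LC t) (u i) +
        ((∑ i, e i * m i) * h1 t + (∑ i, e i * n i) * h2 t) := by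
      rw [mul_sum, sum_mul, sum_mul, ← sum_add_distrib, ← sum_add_distrib]
      refine sum_congr rfl (fun i _ => ?_)
      rw [hz' i]
      ring
    rw [e2]
    linear_combination ε * h.hB
  exact AB_unique ht e1 e2

/-- integrality of the coordinates -/
def Iz (ψ : ℂ →ₗ[ℚ] ℚ) (A B : ℂ) : Prop := (∃ m : ℤ, ψ A = m) ∧ ∃ m : ℤ, ψ B = m

/-- the values of the multivalued function -/
def Val (ψ : ℂ →ₗ[ℚ] ℚ) (t : ℂ) (e X Y : Fin (s + 1) → ℂ) (K₁ K₂ f Z : ℂ) : Prop :=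
  ∃ l u A B, Ch t e X Y K₁ K₂ l u A B ∧
    ((Iz ψ A B ∧ f = u 0 - ψ A - ψ B * t ∧ Z = zeta (LC t) (u 0) - ψ A * h1 t - ψ B * h2 t) ∨
      (¬ Iz ψ A B ∧ f = 0 ∧ Z = 0))

theorem Ch.val (h : Ch t e X Y K₁ K₂ l u A B) (ψ : ℂ →ₗ[ℚ] ℚ) :
    ∃ f Z, Val ψ t e X Y K₁ K₂ f Z := by
  by_cases hI : Iz ψ A B
  · exact ⟨_, _, l, u, A, B, h, Or.inl ⟨hI, rfl, rfl⟩⟩
  · exact ⟨_, _, l, u, A, B, h, Or.inr ⟨hI, rfl, rfl⟩⟩

theorem psi_sum (h0 : ψ (e 0) = 1) (hs : ∀ i : Fin s, ψ (e i.succ) = 0)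
    (m : Fin (s + 1) → ℤ) : ψ (∑ i, e i * m i) = m 0 := by
  have h1 : ∀ i, ψ (e i * m i) = m i * ψ (e i) := by
    intro i
    have : e i * (m i : ℂ) = (m i : ℤ) • e i := by
      rw [zsmul_eq_mul]
      ring
    rw [this, map_zsmul, zsmul_eq_mul]
  rw [map_sum, Fin.sum_univ_succ, h1, h0, mul_one, sum_eq_zero, add_zero]
  intro i _
  rw [h1, hs, mul_zero]

theorem psi_int (ψ : ℂ →ₗ[ℚ] ℚ) (n : ℤ) (x : ℂ) : ψ (n * x) = n * ψ x := by
  have : (n : ℂ) * x = n • x := by rw [zsmul_eq_mul]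
  rw [this, map_zsmul, zsmul_eq_mul]

/-- uniqueness of the values up to the sign -/
theorem Val.unique (ht : 0 < t.im) (g3 : (LC t).g₃ ≠ 0) (hY0 : ∀ i, Y i ≠ 0)
    (h0 : ψ (e 0) = 1) (hs : ∀ i : Fin s, ψ (e i.succ) = 0)
    (h : Val ψ t e X Y K₁ K₂ f Z) (h' : Val ψ t e X Y K₁ K₂ f' Z') :
    f' ^ 2 = f ^ 2 ∧ ‖f'‖ = ‖f‖ ∧ ‖Z'‖ = ‖Z‖ := by
  obtain ⟨l, u, A, B, hc, hv⟩ := h
  obtain ⟨l', u', A', B', hc', hv'⟩ := h'
  obtain ⟨ε, m, n, hε, hu, hz, hA, hB⟩ := hc.unique ht g3 hY0 hc'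
  have hψA : ψ A' = ε * ψ A + m 0 := by rw [hA, map_add, psi_int, psi_sum h0 hs]
  have hψB : ψ B' = ε * ψ B + n 0 := by rw [hB, map_add, psi_int, psi_sum h0 hs]
  have hI : Iz ψ A' B' ↔ Iz ψ A B := by
    have hεQ : (ε : ℚ) ^ 2 = 1 := by exact_mod_cast hε
    constructor
    · rintro ⟨⟨p, hp⟩, ⟨q, hq⟩⟩
      refine ⟨⟨ε * (p - m 0), ?_⟩, ⟨ε * (q - n 0), ?_⟩⟩
      · push_cast
        rw [hψA] at hp
        linear_combination ε * hp - (ψ A) * hεQ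
      · push_cast
        rw [hψB] at hq
        linear_combination ε * hq - (ψ B) * hεQ
    · rintro ⟨⟨p, hp⟩, ⟨q, hq⟩⟩
      exact ⟨⟨ε * p + m 0, by rw [hψA, hp]; push_cast; ring⟩,
        ⟨ε * q + n 0, by rw [hψB, hq]; push_cast; ring⟩⟩
  have hεC : (ε : ℂ) ^ 2 = 1 := by exact_mod_cast hε
  have hεn : ‖(ε : ℂ)‖ = 1 := by
    have h3 : ‖(ε : ℂ)‖ ^ 2 = 1 := by rw [← norm_pow, hεC, norm_one]
    nlinarith [norm_nonneg (ε : ℂ)]
  have key : f' = ε * f ∧ Z' = ε * Z := by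
    rcases hv with ⟨hI1, hf, hZ⟩ | ⟨hI1, hf, hZ⟩
    · rcases hv' with ⟨_, hf', hZ'⟩ | ⟨hI2, _, _⟩
      · rw [hf', hZ', hf, hZ, hz 0, hu 0, hψA, hψB]
        push_cast
        constructor <;> ring
      · exact absurd (hI.2 hI1) hI2
    · rcases hv' with ⟨hI2, _, _⟩ | ⟨_, hf', hZ'⟩
      · exact absurd (hI.1 hI2) hI1
      · rw [hf', hZ', hf, hZ]
        simp
  refine ⟨?_, ?_, ?_⟩
  · rw [key.1]
    linear_combination f ^ 2 * hεC
  · rw [key.1, norm_mul, hεn, one_mul]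
  · rw [key.2, norm_mul, hεn, one_mul]

/-- a change of the basis of the lattice -/
structure Mob (t t' c₀ : ℂ) (a b c d : ℤ) : Prop where
  ht : 0 < t.im
  ht' : 0 < t'.im
  det : a * d - b * c = 1
  hc : c₀ * (c * t + d) = 1
  ht2 : t' = c₀ * (a * t + b)

variable {c₀ : ℂ} {a b c d : ℤ}

theorem Mob.c0 (h : Mob t t' c₀ a b c d) : c₀ ≠ 0 := by
  intro h0
  have := h.hc
  rw [h0, zero_mul] at this
  exact zero_ne_one this

theorem Mob.hm (h : Mob t t' c₀ a b c d) : Hm (LC t) (LC t') c₀ where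
  c0 := h.c0
  mem := fun x => by
    have hd : (a : ℂ) * d - b * c = 1 := by exact_mod_cast h.det
    rw [mem_LC h.ht', mem_LC h.ht]
    constructor
    · rintro ⟨m, n, hmn⟩
      refine ⟨m * d + n * b, m * c + n * a, mul_left_cancel₀ h.c0 ?_⟩
      rw [← hmn, h.ht2]
      push_cast
      linear_combination m * h.hc
    · rintro ⟨m, n, hmn⟩
      refine ⟨m * a - n * b, n * d - m * c, ?_⟩
      rw [← hmn, h.ht2]
      push_cast
      linear_combination (-(m * a - n * b : ℂ)) * h.hc + c₀ * (m + n * t) * hd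

theorem Mob.g2 (h : Mob t t' c₀ a b c d) : (LC t').g₂ = (LC t).g₂ / c₀ ^ 4 := h.hm.g₂

theorem Mob.g3 (h : Mob t t' c₀ a b c d) : (LC t').g₃ = (LC t).g₃ / c₀ ^ 6 := h.hm.g₃

theorem eta_lin' (ht : 0 < t.im) (m n : ℤ) : eta (LC t) (m + n * t) = m * h1 t + n * h2 t := by
  have m1 : (1 : ℂ) ∈ (LC t).lattice := (mem_LC ht).2 ⟨1, 0, by simp⟩
  have m2 : t ∈ (LC t).lattice := (mem_LC ht).2 ⟨0, 1, by simp⟩
  have m1' : (m : ℂ) * 1 ∈ (LC t).lattice := (mem_LC ht).2 ⟨m, 0, by simp⟩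
  have m2' : (n : ℂ) * t ∈ (LC t).lattice := (mem_LC ht).2 ⟨0, n, by simp⟩
  have e4 : (m : ℂ) + n * t = m * 1 + n * t := by ring
  rw [e4, eta_add _ m1' m2', eta_zsmul _ m1, eta_zsmul _ m2]
  rfl

theorem Mob.h1 (h : Mob t t' c₀ a b c d) : h1 t' = (d * Y685.h1 t + c * h2 t) / c₀ := by
  have m3 : (d : ℂ) + c * t ∈ (LC t).lattice := (mem_LC h.ht).2 ⟨d, c, rfl⟩
  have e1 := h.hm.eta m3
  rw [eta_lin' h.ht] at e1
  rw [← e1]
  unfold Y685.h1
  congr 1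
  linear_combination -h.hc

theorem Mob.h2 (h : Mob t t' c₀ a b c d) : h2 t' = (b * Y685.h1 t + a * h2 t) / c₀ := by
  have m3 : (b : ℂ) + a * t ∈ (LC t).lattice := (mem_LC h.ht).2 ⟨b, a, rfl⟩
  have e1 := h.hm.eta m3
  rw [eta_lin' h.ht] at e1
  rw [← e1]
  unfold Y685.h2
  congr 1
  rw [h.ht2]
  ring

/-- choices at equivalent points -/
theorem Ch.mob (g3 : (LC t).g₃ ≠ 0) (M : Mob t t' c₀ a b c d) (h : Ch t e X Y K₁ K₂ l u A B) :
    Ch t' e X Y K₁ K₂ (l / c₀) (fun i => c₀ * u i) (a * A - b * B) (d * B - c * A) where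
  hl := by
    have hc := M.c0
    rw [M.g2, M.g3, ← h.hl]
    field_simp
  hu := fun i => M.hm.notMem.2 (h.hu i)
  hX := fun i => by
    rw [M.hm.wp, h.hX]
    ring
  hY := fun i => by
    rw [M.hm.wp', h.hY]
    ring
  hA := by
    have hc := M.c0
    have hd : (a : ℂ) * d - b * c = 1 := by exact_mod_cast M.det
    have hl0 : l ≠ 0 := by
      rintro rfl
      apply g3
      rw [← h.hl]
      ring
    have e1 : ∑ i, e i * (c₀ * u i) - K₁ / (l / c₀) = c₀ * (∑ i, e i * u i - K₁ / l) := by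
      rw [mul_sub, mul_sum]
      congr 1
      · exact sum_congr rfl (fun i _ => by ring)
      · field_simp
    rw [e1, h.hA, M.ht2]
    linear_combination (a * A - b * B) * M.hc - c₀ * (A + B * t) * hd
  hB := by
    have hc := M.c0
    have hd : (a : ℂ) * d - b * c = 1 := by exact_mod_cast M.det
    have e1 : ∑ i, e i * zeta (LC t') (c₀ * u i) - l / c₀ * K₂ =
        (∑ i, e i * zeta (LC t) (u i) - l * K₂) / c₀ := by
      rw [sub_div, sum_div]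
      congr 1
      · refine sum_congr rfl (fun i _ => ?_)
        rw [M.hm.zeta]
        ring
      · ring
    rw [e1, h.hB, M.h1, M.h2]
    field_simp
    linear_combination (-(A * Y685.h1 t + B * Y685.h2 t)) * hd

/-- values at equivalent points -/
theorem Val.mob (g3 : (LC t).g₃ ≠ 0) (M : Mob t t' c₀ a b c d)
    (h : Val ψ t e X Y K₁ K₂ f Z) : Val ψ t' e X Y K₁ K₂ (c₀ * f) (Z / c₀) := by
  obtain ⟨l, u, A, B, hc, hv⟩ := h
  refine ⟨_, _, _, _, hc.mob g3 M, ?_⟩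
  have hc0 := M.c0
  have hd : (a : ℂ) * d - b * c = 1 := by exact_mod_cast M.det
  have hdQ : (a : ℚ) * d - b * c = 1 := by exact_mod_cast M.det
  have hψA : ψ (a * A - b * B) = a * ψ A - b * ψ B := by rw [map_sub, psi_int, psi_int]
  have hψB : ψ (d * B - c * A) = d * ψ B - c * ψ A := by rw [map_sub, psi_int, psi_int]
  have hI : Iz ψ (a * A - b * B) (d * B - c * A) ↔ Iz ψ A B := by
    rw [Iz, hψA, hψB]
    constructor
    · rintro ⟨⟨p, hp⟩, ⟨q, hq⟩⟩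
      refine ⟨⟨d * p + b * q, ?_⟩, ⟨c * p + a * q, ?_⟩⟩
      · push_cast
        linear_combination d * hp + b * hq - ψ A * hdQ
      · push_cast
        linear_combination c * hp + a * hq - ψ B * hdQ
    · rintro ⟨⟨p, hp⟩, ⟨q, hq⟩⟩
      exact ⟨⟨a * p - b * q, by rw [hp, hq]; push_cast; ring⟩,
        ⟨d * q - c * p, by rw [hp, hq]; push_cast; ring⟩⟩
  rcases hv with ⟨hI1, hf, hZ⟩ | ⟨hI1, hf, hZ⟩
  · refine Or.inl ⟨hI.2 hI1, ?_, ?_⟩
    · rw [hψA, hψB, hf, M.ht2]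
      push_cast
      linear_combination (-(a * ψ A - b * ψ B : ℂ)) * M.hc + c₀ * (ψ A + ψ B * t) * hd
    · rw [hψA, hψB, hZ, M.h1, M.h2, M.hm.zeta]
      push_cast
      field_simp
      linear_combination (ψ A * Y685.h1 t + ψ B * Y685.h2 t) * hd
  · refine Or.inr ⟨fun h3 => hI1 (hI.1 h3), ?_, ?_⟩
    · rw [hf, mul_zero]
    · rw [hZ, zero_div]

/-- the omitted values -/
theorem Val.omit (ht : 0 < t.im) (h : Val ψ t e X Y K₁ K₂ f Z) {M : ℕ} (hM : 0 < M) :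
    f ^ 2 ≠ (M : ℂ) ^ 2 := by
  intro hcon
  obtain ⟨l, u, A, B, hc, hv⟩ := h
  rcases hv with ⟨⟨⟨p, hp⟩, ⟨q, hq⟩⟩, hf, -⟩ | ⟨-, hf, -⟩
  · apply hc.hu 0
    rw [mem_LC ht]
    rcases sq_eq_sq_iff_eq_or_eq_neg.1 hcon with h1 | h1
    · refine ⟨p + M, q, ?_⟩
      rw [hf, hp, hq] at h1
      push_cast at h1 ⊢
      linear_combination -h1
    · refine ⟨p - M, q, ?_⟩
      rw [hf, hp, hq] at h1
      push_cast at h1 ⊢
      linear_combination -h1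
  · rw [hf] at hcon
    have h1 : (M : ℂ) ^ 2 = 0 := by rw [← hcon]; ring
    have h2 : (M : ℂ) = 0 := pow_eq_zero_iff (two_ne_zero) |>.1 h1
    have h3 : M = 0 := by exact_mod_cast h2
    omega

end Pool.Agent.Y685
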