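import Mathlib
import Pool.Agent.H73.G.R8.Y119.IC.Imp
import Pool.Agent.H73.G.R8.Y685.ConstA
import Pool.Agent.H73.G.R8.Y685.E1B
import Pool.Agent.H73.G.R8.Y685.E1D

/-!
# Local branches
-/

set_option autoImplicit false

open Finset Filter
open scoped Topology PeriodPair

noncomputable section

namespace Pool.Agent.Y685

open H667R3 Pool.Agent.W245.EB

/-- the invariant of the normalized lattice -/
def gh (t : ℂ) : ℂ := (LC t).g₂ ^ 3 / (LC t).g₃ ^ 2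

theorem dgh {t : ℂ} (ht : 0 < t.im) (g2 : (LC t).g₂ ≠ 0) (g3 : (LC t).g₃ ≠ 0) :
    HasDerivAt gh (be t * ((LC t).g₃ / (LC t).g₂) * (-(18 - 2 / 3 * gh t) * gh t)) t := by
  obtain ⟨-, a2, a3, -, -⟩ := H2.task_A4 t ht
  have e1 := (a2.pow 3).div (a3.pow 2) (pow_ne_zero 2 g3)
  refine e1.congr_deriv ?_
  simp only [Pi.pow_apply, gh]
  norm_num
  field_simp
  ring

theorem an_g2 {t : ℂ} (ht : 0 < t.im) : AnalyticAt ℂ (fun s => (LC s).g₂) t := by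
  have h1 : DifferentiableOn ℂ (fun s => (LC s).g₂) HP := fun s hs =>
    (H2.task_A4 s hs).2.1.differentiableAt.differentiableWithinAt
  exact h1.analyticAt (isOpen_HP.mem_nhds ht)

theorem an_g3 {t : ℂ} (ht : 0 < t.im) : AnalyticAt ℂ (fun s => (LC s).g₃) t := by
  have h1 : DifferentiableOn ℂ (fun s => (LC s).g₃) HP := fun s hs =>
    (H2.task_A4 s hs).2.2.1.differentiableAt.differentiableWithinAt
  exact h1.analyticAt (isOpen_HP.mem_nhds ht)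

theorem an_h1 {t : ℂ} (ht : 0 < t.im) : AnalyticAt ℂ h1 t := by
  have h1 : DifferentiableOn ℂ h1 HP := fun s hs =>
    (H2.task_A4 s hs).1.differentiableAt.differentiableWithinAt
  exact h1.analyticAt (isOpen_HP.mem_nhds ht)

theorem an_gh {t : ℂ} (ht : 0 < t.im) (g3 : (LC t).g₃ ≠ 0) : AnalyticAt ℂ gh t :=
  ((an_g2 ht).pow 3).div ((an_g3 ht).pow 2) (pow_ne_zero 2 g3)

/-- local square roots -/
theorem exists_sqrt {r : ℂ → ℂ} {t₁ : ℂ} (hr : AnalyticAt ℂ r t₁) (h0 : r t₁ ≠ 0) :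
    ∃ l : ℂ → ℂ, AnalyticAt ℂ l t₁ ∧ ∀ᶠ t in 𝓝 t₁, l t ^ 2 = r t := by
  obtain ⟨l₁, hl₁⟩ := IsAlgClosed.exists_pow_nat_eq (r t₁) two_pos
  have h1 : AnalyticAt ℂ (fun t => r t / r t₁) t₁ := hr.div analyticAt_const h0
  have h2 : r t₁ / r t₁ ∈ Complex.slitPlane := by
    rw [div_self h0]
    exact Complex.one_mem_slitPlane
  refine ⟨fun t => l₁ * Complex.exp (Complex.log (r t / r t₁) / 2), ?_, ?_⟩
  · exact analyticAt_const.mul (((h1.clog h2).div analyticAt_const two_ne_zero).cexp)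
  · filter_upwards [hr.continuousAt.eventually_ne h0] with t ht
    rw [mul_pow, hl₁, ← Complex.exp_nat_mul]
    push_cast
    rw [mul_div_cancel₀ _ two_ne_zero, Complex.exp_log (div_ne_zero ht h0)]
    field_simp

/-- local logarithms -/
theorem exists_log {c : ℂ → ℂ} {t₁ u₁ : ℂ} (ht : 0 < t₁.im) (hc : AnalyticAt ℂ c t₁)
    (hu : u₁ ∉ (LC t₁).lattice) (h1 : ℘[LC t₁] u₁ = c t₁) (h2 : ℘'[LC t₁] u₁ ≠ 0) :
    ∃ u : ℂ → ℂ, u t₁ = u₁ ∧ AnalyticAt ℂ u t₁ ∧ ∀ᶠ t in 𝓝 t₁, ℘[LC t] (u t) = c t := by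
  have hSH : H2.SH (fun t z => ℘[LC t] z - c t) (t₁, u₁) := by
    have h3 := H2.SH_wp ht hu
    have h4 : ∀ᶠ q : ℂ × ℂ in 𝓝 (t₁, u₁), AnalyticAt ℂ c q.1 :=
      (continuous_fst.tendsto (t₁, u₁)).eventually hc.eventually_analyticAt
    filter_upwards [h3, h4] with q hq1 hq2
    refine ⟨?_, ?_, ?_⟩
    · have h5 : ContinuousAt (fun r : ℂ × ℂ => c r.1) q :=
        ContinuousAt.comp (f := Prod.fst) hq2.continuousAt continuous_fst.continuousAt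
      exact hq1.1.sub h5
    · exact hq1.2.1.sub hq2.differentiableAt
    · exact hq1.2.2.sub_const _
  obtain ⟨u, hu1, hu2, hu3, -⟩ := Pool.Agent.Y119.IC.task_I _ _ hSH
    (by change ℘[LC t₁] u₁ - c t₁ = 0; rw [h1, sub_self])
    (by
      change deriv (fun z => ℘[LC t₁] z - c t₁) u₁ ≠ 0
      rw [deriv_sub_const, (LC t₁).deriv_weierstrassP]
      exact h2)
  refine ⟨u, hu1, hu2, ?_⟩
  filter_upwards [hu3] with t ht
  exact sub_eq_zero.1 ht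

variable {L : PeriodPair} {D : Derivation ℚ ℂ ℂ}
variable {s : ℕ} {e w : Fin (s + 1) → ℂ} {a b : ℂ} {ψ : ℂ →ₗ[ℚ] ℚ} {h : Nrm L D}
variable (pl : Plc (Cst D) L.g₂ D (EE D) (ZZ L e w a b))

/-- the points over which everything is regular -/
structure Good (t : ℂ) : Prop where
  im : 0 < t.im
  g2 : (LC t).g₂ ≠ 0
  g3 : (LC t).g₃ ≠ 0
  H : pl.H.eval (gh t) ≠ 0

variable {pl}

theorem Good.ev {t₁ : ℂ} (G : Good pl t₁) : ∀ᶠ t in 𝓝 t₁, Good pl t := by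
  have h1 : ContinuousAt (fun t => pl.H.eval (gh t)) t₁ :=
    ContinuousAt.comp (f := gh) pl.H.continuous.continuousAt (an_gh G.im G.g3).continuousAt
  filter_upwards [isOpen_HP.eventually_mem G.im, (an_g2 G.im).continuousAt.eventually_ne G.g2,
    (an_g3 G.im).continuousAt.eventually_ne G.g3, h1.eventually_ne G.H] with t a1 a2 a3 a4
  exact ⟨a1, a2, a3, a4⟩

/-- the value of an element along a branch of the roots -/
def vl (pl : Plc (Cst D) L.g₂ D (EE D) (ZZ L e w a b)) (φ : ℂ → ℂ) (x t : ℂ) : ℂ :=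
  pl.ev (gh t) (φ t) x

theorem vl_an {φ : ℂ → ℂ} {t₁ : ℂ} (G : Good pl t₁) (hφ : AnalyticAt ℂ φ t₁)
    (hR : ∀ᶠ t in 𝓝 t₁, φ t ∈ pl.Rt (gh t)) {x : ℂ} (hx : x ∈ pl.R) :
    AnalyticAt ℂ (vl pl φ x) t₁ :=
  pl.han gh φ t₁ (an_gh G.im G.g3) hφ G.H hR x hx

theorem vl_der {φ : ℂ → ℂ} {t₁ : ℂ} (G : Good pl t₁) (hφ : AnalyticAt ℂ φ t₁)
    (hR : ∀ᶠ t in 𝓝 t₁, φ t ∈ pl.Rt (gh t)) {x : ℂ} (hx : x ∈ pl.R) :
    HasDerivAt (vl pl φ x) (be t₁ * ((LC t₁).g₃ / (LC t₁).g₂) * vl pl φ (D x) t₁) t₁ := by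
  have h1 := pl.hder gh φ t₁ (be t₁ * ((LC t₁).g₃ / (LC t₁).g₂)) (an_gh G.im G.g3) hφ G.H hR (by
    rw [(dgh G.im G.g2 G.g3).deriv, aeval_EE]) x hx
  have h2 := (vl_an G hφ hR hx).differentiableAt.hasDerivAt
  rw [show deriv (vl pl φ x) t₁ = _ from h1] at h2
  exact h2

/-- **local branches** -/
theorem Bd.branch (B : Bd h e w a b ψ) {t₁ : ℂ} (G : Good pl t₁) {φ : ℂ → ℂ}
    (hφ : AnalyticAt ℂ φ t₁) (hR : ∀ᶠ t in 𝓝 t₁, φ t ∈ pl.Rt (gh t)) :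
    ∃ r > 0, ∃ (l : ℂ → ℂ) (u : Fin (s + 1) → ℂ → ℂ),
      Flow (Metric.ball t₁ r) e l (fun i => vl pl φ (℘[L] (w i))) (fun i => vl pl φ (℘'[L] (w i)))
        (fun i => vl pl φ (vv L D (aa L) 1 (w i))) u (vl pl φ (∑ k, e k * w k - Om L a b))
        (vl pl φ (∑ k, e k * zt L (w k) - Et L a b)) ∧
      ∀ t ∈ Metric.ball t₁ r, Good pl t ∧ φ t ∈ pl.Rt (gh t) := by
  have ht₁ := G.im
  -- the square root
  obtain ⟨l, hl, hl2⟩ := exists_sqrt ((an_g3 ht₁).div (an_g2 ht₁) G.g2) (div_ne_zero G.g3 G.g2)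
  have hl2' : l t₁ ^ 2 = (LC t₁).g₃ / (LC t₁).g₂ := hl2.self_of_nhds
  have hl0 : l t₁ ≠ 0 := by
    intro h0
    rw [h0] at hl2'
    exact div_ne_zero G.g3 G.g2 (by rw [← hl2']; ring)
  have hφ₁ : φ t₁ ∈ pl.Rt (gh t₁) := hR.self_of_nhds
  have hrel := B.rels pl G.H hφ₁
  have hghl : ∀ t, Good pl t → l t ^ 2 = (LC t).g₃ / (LC t).g₂ → gh t = (LC t).g₂ / l t ^ 4 := by
    intro t Gt h1
    have h2 : l t ^ 4 = (l t ^ 2) ^ 2 := by ring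
    rw [h2, h1, gh]
    have := Gt.g2
    have := Gt.g3
    field_simp
  -- the logarithms
  have key : ∀ i, ∃ u : ℂ → ℂ, AnalyticAt ℂ u t₁ ∧ ∀ᶠ t in 𝓝 t₁, u t ∉ (LC t).lattice ∧
      ℘[LC t] (u t) = l t ^ 2 * vl pl φ (℘[L] (w i)) t ∧
      ℘'[LC t] (u t) = l t ^ 3 * vl pl φ (℘'[L] (w i)) t := by
    intro i
    have hXa := vl_an G hφ hR (pl.mX i)
    have hYa := vl_an G hφ hR (pl.mY i)
    have hY0 : vl pl φ (℘'[L] (w i)) t₁ ≠ 0 := hrel.Y0 i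
    have hc : AnalyticAt ℂ (fun t => l t ^ 2 * vl pl φ (℘[L] (w i)) t) t₁ := (hl.pow 2).mul hXa
    -- the relation between the coordinates
    have hcur : ∀ t, Good pl t → φ t ∈ pl.Rt (gh t) → l t ^ 2 = (LC t).g₃ / (LC t).g₂ →
        (l t ^ 3 * vl pl φ (℘'[L] (w i)) t) ^ 2 = 4 * (l t ^ 2 * vl pl φ (℘[L] (w i)) t) ^ 3 -
          (LC t).g₂ * (l t ^ 2 * vl pl φ (℘[L] (w i)) t) - (LC t).g₃ := by
      intro t Gt hRt h1
      have h2 := (B.rels pl Gt.H hRt).Y2 i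
      have h3 := hghl t Gt h1
      have h4 : l t ≠ 0 := by
        intro h0
        rw [h0] at h1
        exact div_ne_zero Gt.g3 Gt.g2 (by rw [← h1]; ring)
      have h5 : (LC t).g₃ = l t ^ 2 * (LC t).g₂ := by
        rw [h1, div_mul_cancel₀ _ Gt.g2]
      have h6 : (l t ^ 3 * vl pl φ (℘'[L] (w i)) t) ^ 2 =
        l t ^ 6 * vl pl φ (℘'[L] (w i)) t ^ 2 := by ring
      have h7 : vl pl φ (℘'[L] (w i)) t ^ 2 = 4 * vl pl φ (℘[L] (w i)) t ^ 3 -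
        (LC t).g₂ / l t ^ 4 * vl pl φ (℘[L] (w i)) t - (LC t).g₂ / l t ^ 4 := by
        rw [← h3]
        exact h2
      rw [h6, h7, h5]
      field_simp
    obtain ⟨v, hv, hvX⟩ := exists_wp_eq (LC t₁) (l t₁ ^ 2 * vl pl φ (℘[L] (w i)) t₁)
    obtain ⟨u₁, hu₁, hu₁X, hu₁Y⟩ : ∃ u₁, u₁ ∉ (LC t₁).lattice ∧
        ℘[LC t₁] u₁ = l t₁ ^ 2 * vl pl φ (℘[L] (w i)) t₁ ∧
        ℘'[LC t₁] u₁ = l t₁ ^ 3 * vl pl φ (℘'[L] (w i)) t₁ := by
      have e1 := (LC t₁).derivWeierstrassP_sq v hv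
      rw [hvX] at e1
      have e2 : ℘'[LC t₁] v ^ 2 = (l t₁ ^ 3 * vl pl φ (℘'[L] (w i)) t₁) ^ 2 := by
        rw [e1, hcur t₁ G hφ₁ hl2']
      rcases sq_eq_sq_iff_eq_or_eq_neg.1 e2 with h1 | h1
      · exact ⟨v, hv, hvX, h1⟩
      · refine ⟨-v, fun h3 => hv (by simpa using neg_mem h3), ?_, ?_⟩
        · rw [PeriodPair.weierstrassP_neg, hvX]
        · rw [PeriodPair.derivWeierstrassP_neg, h1, neg_neg]
    have hne : l t₁ ^ 3 * vl pl φ (℘'[L] (w i)) t₁ ≠ 0 := mul_ne_zero (pow_ne_zero 3 hl0) hY0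
    obtain ⟨u, hut, hua, hue⟩ := exists_log ht₁ hc hu₁ hu₁X (by rw [hu₁Y]; exact hne)
    refine ⟨u, hua, ?_⟩
    have hcu : ContinuousAt (fun t => ((t, u t) : ℂ × ℂ)) t₁ :=
      continuousAt_id.prodMk hua.continuousAt
    have hnm : ∀ᶠ t in 𝓝 t₁, 0 < t.im ∧ u t ∉ (LC t).lattice := by
      refine hcu.eventually (p := fun q : ℂ × ℂ => 0 < q.1.im ∧ q.2 ∉ (LC q.1).lattice) ?_
      change ∀ᶠ y : ℂ × ℂ in 𝓝 (t₁, u t₁), _
      rw [hut]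
      exact H2.eventually_notMem ht₁ hu₁
    have hP : ContinuousAt (fun t => ℘'[LC t] (u t)) t₁ := by
      have h3 := (H2.task_A3 t₁ (u t₁) ht₁ (by rw [hut]; exact hu₁)).continuousAt
      exact ContinuousAt.comp (f := fun t => ((t, u t) : ℂ × ℂ)) h3 hcu
    have hQ : ContinuousAt (fun t => l t ^ 3 * vl pl φ (℘'[L] (w i)) t) t₁ :=
      ((hl.pow 3).mul hYa).continuousAt
    have hsum : ∀ᶠ t in 𝓝 t₁, ℘'[LC t] (u t) + l t ^ 3 * vl pl φ (℘'[L] (w i)) t ≠ 0 := by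
      refine (hP.add hQ).eventually_ne ?_
      change ℘'[LC t₁] (u t₁) + l t₁ ^ 3 * vl pl φ (℘'[L] (w i)) t₁ ≠ 0
      rw [hut, hu₁Y]
      intro h0
      apply hne
      linear_combination h0 / 2
    filter_upwards [hnm, hue, hsum, G.ev, hR, hl2] with t a1 a2 a3 a4 a5 a6
    refine ⟨a1.2, a2, ?_⟩
    have e1 := (LC t).derivWeierstrassP_sq (u t) a1.2
    rw [a2] at e1
    have e2 : ℘'[LC t] (u t) ^ 2 = (l t ^ 3 * vl pl φ (℘'[L] (w i)) t) ^ 2 := by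
      rw [e1, hcur t a4 a5 a6]
    rcases sq_eq_sq_iff_eq_or_eq_neg.1 e2 with h1 | h1
    · exact h1
    · exact absurd (by rw [h1]; ring) a3
  choose u hua hue using key
  have hall : ∀ᶠ t in 𝓝 t₁, (Good pl t ∧ AnalyticAt ℂ φ t ∧ (∀ᶠ r in 𝓝 t, φ r ∈ pl.Rt (gh r)) ∧
      φ t ∈ pl.Rt (gh t) ∧
      AnalyticAt ℂ l t ∧ l t ^ 2 = (LC t).g₃ / (LC t).g₂) ∧
      ∀ i, AnalyticAt ℂ (u i) t ∧ u i t ∉ (LC t).lattice ∧
        ℘[LC t] (u i t) = l t ^ 2 * vl pl φ (℘[L] (w i)) t ∧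
        ℘'[LC t] (u i t) = l t ^ 3 * vl pl φ (℘'[L] (w i)) t := by
    refine Eventually.and ?_ (eventually_all.2 (fun i => ?_))
    · filter_upwards [G.ev, hφ.eventually_analyticAt, eventually_eventually_nhds.2 hR, hR,
        hl.eventually_analyticAt, hl2] with t a1 a2 a3 a4 a5 a6
      exact ⟨a1, a2, a3, a4, a5, a6⟩
    · filter_upwards [(hua i).eventually_analyticAt, hue i] with t a1 a2
      exact ⟨a1, a2⟩
  obtain ⟨r, hr, hb⟩ := Metric.eventually_nhds_iff_ball.1 hall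
  have hlr : ∀ t ∈ Metric.ball t₁ r, l t ^ 2 * (LC t).g₂ = (LC t).g₃ := fun t ht => by
    rw [(hb t ht).1.2.2.2.2.2, div_mul_cancel₀ _ (hb t ht).1.1.g2]
  refine ⟨r, hr, l, u, ⟨Metric.isOpen_ball, fun t ht => (hb t ht).1.1.im, fun t ht => ?_,
    fun t ht => (hb t ht).1.1.g2, hlr,
    fun t ht => (hb t ht).1.2.2.2.2.1.differentiableAt,
    fun t ht i => ((hb t ht).2 i).1.differentiableAt, fun t ht i => ((hb t ht).2 i).2.1,
    fun t ht i => ((hb t ht).2 i).2.2.1, fun t ht i => ((hb t ht).2 i).2.2.2,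
    fun t ht i => (B.rels pl (hb t ht).1.1.H (hb t ht).1.2.2.2.1).Y0 i,
    fun t ht i => ?_, fun t ht => ?_, fun t ht => ?_⟩, fun t ht => ⟨(hb t ht).1.1,
      (hb t ht).1.2.2.2.1⟩⟩
  · intro h0
    have := hlr t ht
    rw [h0] at this
    exact (hb t ht).1.1.g3 (by rw [← this]; ring)
  · obtain ⟨⟨a1, a2, a3, a4, a5, a6⟩, -⟩ := hb t ht
    have h1 := vl_der a1 a2 a3 (pl.mX i)
    rw [← a6] at h1
    refine h1.congr_deriv ?_
    congr 1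
    rw [← hghl t a1 a6]
    exact (B.rels pl a1.H a4).dX i
  · obtain ⟨⟨a1, a2, a3, a4, a5, a6⟩, -⟩ := hb t ht
    have h1 := vl_der a1 a2 a3 pl.mK₁
    rw [← a6] at h1
    refine h1.congr_deriv ?_
    congr 1
    rw [← hghl t a1 a6]
    exact (B.rels pl a1.H a4).dK₁
  · obtain ⟨⟨a1, a2, a3, a4, a5, a6⟩, -⟩ := hb t ht
    have h1 := vl_der a1 a2 a3 pl.mK₂
    rw [← a6] at h1
    refine h1.congr_deriv ?_
    congr 1
    rw [← hghl t a1 a6]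
    exact (B.rels pl a1.H a4).dK₂

end Pool.Agent.Y685
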