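import Mathlib
import Pool.Agent.H73.G.R8.Y685.E1G

/-!
# The function on the upper half plane
-/

set_option autoImplicit false

open Finset Filter
open scoped Topology PeriodPair

noncomputable section

namespace Pool.Agent.Y685

open H667R3 Pool.Agent.W245.EB

variable {L : PeriodPair} {D : Derivation ℚ ℂ ℂ}
variable {s : ℕ} {e w : Fin (s + 1) → ℂ} {a b : ℂ} {ψ : ℂ →ₗ[ℚ] ℚ} {h : Nrm L D}
variable {pl : Plc (Cst D) L.g₂ D (EE D) (ZZ L e w a b)} {t : ℂ}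

theorem Good.exists_EN (G : Good pl t) :
    ∃ E : Fin pl.d → ℂ, Function.Injective E ∧ pl.Rt (gh t) = Set.range E := by
  obtain ⟨φ, -, hφ⟩ := pl.hbr gh t (an_gh G.im G.g3) G.H
  exact ⟨_, hφ.self_of_nhds⟩

open Classical in
/-- an enumeration of the roots -/
def EN (pl : Plc (Cst D) L.g₂ D (EE D) (ZZ L e w a b)) (t : ℂ) : Fin pl.d → ℂ :=
  if h : ∃ E : Fin pl.d → ℂ, Function.Injective E ∧ pl.Rt (gh t) = Set.range E then h.choose
  else fun _ => 0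

theorem EN_spec (G : Good pl t) :
    Function.Injective (EN pl t) ∧ pl.Rt (gh t) = Set.range (EN pl t) := by
  unfold EN
  rw [dif_pos G.exists_EN]
  exact G.exists_EN.choose_spec

theorem EN_mem (G : Good pl t) (i : Fin pl.d) : EN pl t i ∈ pl.Rt (gh t) := by
  rw [(EN_spec G).2]
  exact ⟨i, rfl⟩

open Classical in
/-- chosen values -/
def pv (pl : Plc (Cst D) L.g₂ D (EE D) (ZZ L e w a b)) (ψ : ℂ →ₗ[ℚ] ℚ) (t θ : ℂ) : ℂ × ℂ :=
  if h : ∃ p : ℂ × ℂ, VV pl ψ t θ p.1 p.2 then h.choose else 0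

theorem pv_spec (B : Bd h e w a b ψ) (G : Good pl t) {θ : ℂ} (hθ : θ ∈ pl.Rt (gh t)) :
    VV pl ψ t θ (pv pl ψ t θ).1 (pv pl ψ t θ).2 := by
  have h1 := VV.exists B G hθ
  unfold pv
  rw [dif_pos h1]
  exact h1.choose_spec

open Classical in
/-- the sum of the squares -/
def SS (pl : Plc (Cst D) L.g₂ D (EE D) (ZZ L e w a b)) (ψ : ℂ →ₗ[ℚ] ℚ) (t : ℂ) : ℝ :=
  if Good pl t then ∑ i, (‖(pv pl ψ t (EN pl t i)).1‖ ^ 2 + ‖(pv pl ψ t (EN pl t i)).2‖ ^ 2)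
  else 0

/-- comparison of enumerations -/
theorem exists_perm (G : Good pl t) {E : Fin pl.d → ℂ} (hE : Function.Injective E)
    (hR : pl.Rt (gh t) = Set.range E) : ∃ σ : Equiv.Perm (Fin pl.d), ∀ i, EN pl t (σ i) = E i := by
  have h1 := EN_spec G
  have h2 : Set.range E = Set.range (EN pl t) := by rw [← hR, h1.2]
  let σ : Equiv.Perm (Fin pl.d) := (Equiv.ofInjective E hE).trans
    ((Equiv.setCongr h2).trans (Equiv.ofInjective (EN pl t) h1.1).symm)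
  refine ⟨σ, fun i => ?_⟩
  have h3 : Equiv.ofInjective (EN pl t) h1.1 (σ i) = Equiv.setCongr h2 (Equiv.ofInjective E hE i) :=
    Equiv.apply_symm_apply _ _
  exact congrArg Subtype.val h3

theorem F_perm (B : Bd h e w a b ψ) (G : Good pl t) {E f Z : Fin pl.d → ℂ}
    (hE : Function.Injective E) (hR : pl.Rt (gh t) = Set.range E)
    (hV : ∀ i, VV pl ψ t (E i) (f i) (Z i)) :
    (∃ σ : Equiv.Perm (Fin pl.d), ∀ i, (pv pl ψ t (EN pl t (σ i))).1 ^ 2 = f i ^ 2) ∧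
      SS pl ψ t = ∑ i, (‖f i‖ ^ 2 + ‖Z i‖ ^ 2) := by
  obtain ⟨σ, hσ⟩ := exists_perm G hE hR
  have h1 : ∀ i, (pv pl ψ t (EN pl t (σ i))).1 ^ 2 = f i ^ 2 ∧
      ‖(pv pl ψ t (EN pl t (σ i))).1‖ = ‖f i‖ ∧ ‖(pv pl ψ t (EN pl t (σ i))).2‖ = ‖Z i‖ := by
    intro i
    have h2 : E i ∈ pl.Rt (gh t) := by rw [hR]; exact ⟨i, rfl⟩
    have h3 := pv_spec B G h2
    rw [hσ i]
    exact VV.unique B G h2 (hV i) h3
  refine ⟨⟨σ, fun i => (h1 i).1⟩, ?_⟩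
  unfold SS
  rw [if_pos G, ← Equiv.sum_comp σ]
  refine sum_congr rfl (fun i _ => ?_)
  rw [(h1 i).2.1, (h1 i).2.2]

/-- all branches near a point -/
theorem all_branches (B : Bd h e w a b ψ) (pl : Plc (Cst D) L.g₂ D (EE D) (ZZ L e w a b)) :
    ∃ (c : ℝ) (m : ℕ), 0 ≤ c ∧ ∀ t₁, Good pl t₁ → ∃ φ f Z : Fin pl.d → ℂ → ℂ,
      (∀ i, AnalyticAt ℂ (f i) t₁) ∧ (∀ i, AnalyticAt ℂ (Z i) t₁) ∧
      (∀ᶠ t in 𝓝 t₁, Good pl t ∧ Function.Injective (fun i => φ i t) ∧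
        pl.Rt (gh t) = Set.range (fun i => φ i t) ∧ ∀ i, VV pl ψ t (φ i t) (f i t) (Z i t)) ∧
      ∀ i, ‖deriv (f i) t₁‖ ≤ c * Mf pl.H t₁ * (‖f i t₁‖ + ‖Z i t₁‖) + c * Nf pl.H t₁ ^ m ∧
        ‖deriv (Z i) t₁‖ ≤ c * Mf pl.H t₁ * (‖f i t₁‖ + ‖Z i t₁‖) + c * Nf pl.H t₁ ^ m := by
  obtain ⟨c, m, hc, H⟩ := B.exists_branch pl
  refine ⟨c, m, hc, fun t₁ G => ?_⟩
  obtain ⟨φ, hφ, hφ2⟩ := pl.hbr gh t₁ (an_gh G.im G.g3) G.H
  have h1 : ∀ i, ∀ᶠ t in 𝓝 t₁, φ i t ∈ pl.Rt (gh t) := fun i => by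
    filter_upwards [hφ2] with t ht
    rw [ht.2]
    exact ⟨i, rfl⟩
  choose f Z hf hZ hV hb1 hb2 using fun i => H t₁ G (φ i) (hφ i) (h1 i)
  refine ⟨φ, f, Z, hf, hZ, ?_, fun i => ⟨hb1 i, hb2 i⟩⟩
  filter_upwards [G.ev, hφ2, eventually_all.2 hV] with t a1 a2 a3
  exact ⟨a1, a2.1, a2.2, a3⟩

/-- the hypotheses of the growth lemma -/
theorem SS_local (B : Bd h e w a b ψ) (pl : Plc (Cst D) L.g₂ D (EE D) (ZZ L e w a b)) :
    ∃ (c : ℝ) (m : ℕ), 0 ≤ c ∧ ∀ t₁ : ℂ, 0 < t₁.im → Psi pl.H t₁ ≠ 0 →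
      ∃ (n : ℕ) (A : Fin n → ℂ → ℂ), (∀ i, AnalyticAt ℂ (A i) t₁) ∧
        (∀ᶠ t in 𝓝 t₁, SS pl ψ t = ∑ i, ‖A i t‖ ^ 2) ∧
        ∑ i, ‖deriv (A i) t₁‖ * ‖A i t₁‖ ≤ (c * Mf pl.H t₁ ^ (2 * m + 1 + 2 * m)) *
          (SS pl ψ t₁ + ‖Psi pl.H t₁‖⁻¹ ^ (2 * m)) := by
  obtain ⟨c, m, hc, H⟩ := all_branches B pl
  refine ⟨5 * c + 2 * c * pl.d, m, by positivity, fun t₁ ht₁ hΨ => ?_⟩
  have G : Good pl t₁ := (good_iff ht₁).2 hΨ
  obtain ⟨φ, f, Z, hf, hZ, hev, hb⟩ := H t₁ G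
  have hS : ∀ᶠ t in 𝓝 t₁, SS pl ψ t = ∑ i, (‖f i t‖ ^ 2 + ‖Z i t‖ ^ 2) := by
    filter_upwards [hev] with t ht
    exact (F_perm B ht.1 ht.2.1 ht.2.2.1 ht.2.2.2).2
  refine ⟨pl.d + pl.d, Fin.append f Z, fun i => ?_, ?_, ?_⟩
  · refine Fin.addCases (fun j => ?_) (fun j => ?_) i
    · rw [Fin.append_left]; exact hf j
    · rw [Fin.append_right]; exact hZ j
  · filter_upwards [hS] with t ht
    rw [ht, Fin.sum_univ_add, sum_add_distrib]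
    simp only [Fin.append_left, Fin.append_right]
  · rw [Fin.sum_univ_add]
    simp only [Fin.append_left, Fin.append_right]
    rw [← sum_add_distrib, hS.self_of_nhds]
    obtain ⟨n1, n2, n3⟩ := Nf_ge pl.H hΨ
    obtain ⟨m1, -⟩ := Mf_ge pl.H t₁
    have hN : Nf pl.H t₁ = Mf pl.H t₁ ^ 2 * ‖Psi pl.H t₁‖⁻¹ := rfl
    set M := Mf pl.H t₁
    set N := Nf pl.H t₁
    set J := ‖Psi pl.H t₁‖⁻¹
    have hJ : 0 ≤ J := inv_nonneg.2 (norm_nonneg _)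
    have key : ∀ i, ‖deriv (f i) t₁‖ * ‖f i t₁‖ + ‖deriv (Z i) t₁‖ * ‖Z i t₁‖ ≤
        5 * c * M * (‖f i t₁‖ ^ 2 + ‖Z i t₁‖ ^ 2) + 2 * c * N ^ (2 * m) := by
      intro i
      obtain ⟨b1, b2⟩ := hb i
      have x0 : 0 ≤ ‖f i t₁‖ := norm_nonneg _
      have y0 : 0 ≤ ‖Z i t₁‖ := norm_nonneg _
      set x := ‖f i t₁‖
      set y := ‖Z i t₁‖
      have h1 := mul_le_mul_of_nonneg_right b1 x0
      have h2 := mul_le_mul_of_nonneg_right b2 y0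
      have hP : N ^ (2 * m) = (N ^ m) ^ 2 := by rw [← pow_mul, mul_comm]
      set P := N ^ m
      rw [hP]
      have h3 : (c * M * (x + y) + c * P) * x + (c * M * (x + y) + c * P) * y ≤
          5 * c * M * (x ^ 2 + y ^ 2) + 2 * c * P ^ 2 := by
        have hcM : c ≤ c * M := le_mul_of_one_le_right hc m1
        have hcM0 : 0 ≤ c * M := hc.trans hcM
        have q1 : c * M * (x + y) ^ 2 ≤ c * M * (2 * (x ^ 2 + y ^ 2)) := by
          apply mul_le_mul_of_nonneg_left _ hcM0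
          nlinarith [sq_nonneg (x - y)]
        have q2 : c * (P * (x + y)) ≤ c * (P ^ 2 + (x ^ 2 + y ^ 2)) := by
          apply mul_le_mul_of_nonneg_left _ hc
          nlinarith [sq_nonneg (P - x), sq_nonneg (P - y), sq_nonneg (x - y), sq_nonneg P]
        have q3 : c * (x ^ 2 + y ^ 2) ≤ c * M * (x ^ 2 + y ^ 2) :=
          mul_le_mul_of_nonneg_right hcM (by positivity)
        have q4 : 0 ≤ c * M * (x ^ 2 + y ^ 2) := by positivity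
        have q5 : 0 ≤ c * P ^ 2 := by positivity
        nlinarith
      linarith
    refine (sum_le_sum (fun i _ => key i)).trans ?_
    rw [sum_add_distrib, ← mul_sum, sum_const, card_univ, Fintype.card_fin, nsmul_eq_mul]
    set S := ∑ i, (‖f i t₁‖ ^ 2 + ‖Z i t₁‖ ^ 2)
    have hS0 : 0 ≤ S := sum_nonneg (fun i _ => by positivity)
    have hM0 : 0 ≤ M := by linarith
    have hNm : N ^ (2 * m) = M ^ (2 * m + 2 * m) * J ^ (2 * m) := by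
      rw [hN, mul_pow, ← pow_mul]
      ring
    rw [hNm]
    have p1 : M ≤ M ^ (2 * m + 1 + 2 * m) := by
      calc M = M ^ 1 := (pow_one M).symm
        _ ≤ _ := pow_le_pow_right₀ m1 (by omega)
    have p2 : M ^ (2 * m + 2 * m) ≤ M ^ (2 * m + 1 + 2 * m) := pow_le_pow_right₀ m1 (by omega)
    set P := M ^ (2 * m + 1 + 2 * m)
    have hP0 : 0 ≤ P := by positivity
    have hJm : 0 ≤ J ^ (2 * m) := by positivity
    have hd : (0 : ℝ) ≤ pl.d := Nat.cast_nonneg _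
    calc 5 * c * M * S + pl.d * (2 * c * (M ^ (2 * m + 2 * m) * J ^ (2 * m)))
        ≤ 5 * c * P * S + pl.d * (2 * c * (P * J ^ (2 * m))) := by gcongr
      _ ≤ (5 * c + 2 * c * pl.d) * P * (S + J ^ (2 * m)) := by
          have r1 : 0 ≤ 2 * c * pl.d * P * S := by positivity
          have r2 : 0 ≤ 5 * c * P * J ^ (2 * m) := by positivity
          nlinarith

theorem SS_T (B : Bd h e w a b ψ) {t : ℂ} (ht : 0 < t.im) :
    SS pl ψ (t + 1) = SS pl ψ t := by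
  have M := Mob_T ht
  by_cases G : Good pl t
  · have G' : Good pl (t + 1) := by
      rw [good_iff M.ht', Psi_T _ ht]
      exact G.psi
    obtain ⟨hE, hR⟩ := EN_spec G
    have h1 : ∀ i, VV pl ψ (t + 1) (EN pl t i) (1 * (pv pl ψ t (EN pl t i)).1)
        ((pv pl ψ t (EN pl t i)).2 / 1) := fun i => VV.mob G M (pv_spec B G (EN_mem G i))
    have h2 := (F_perm B G' hE (by rw [gh_mob M, hR]) h1).2
    rw [h2]
    unfold SS
    rw [if_pos G]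
    refine sum_congr rfl (fun i _ => ?_)
    rw [one_mul, div_one]
  · have G' : ¬ Good pl (t + 1) := by
      rw [good_iff M.ht', Psi_T _ ht]
      rwa [good_iff ht] at G
    unfold SS
    rw [if_neg G, if_neg G']

theorem pv_le (G : Good pl t) (i : Fin pl.d) :
    ‖(pv pl ψ t (EN pl t i)).1 ^ 2‖ ≤ SS pl ψ t := by
  unfold SS
  rw [if_pos G, norm_pow]
  have h1 := single_le_sum (f := fun i => ‖(pv pl ψ t (EN pl t i)).1‖ ^ 2 +
    ‖(pv pl ψ t (EN pl t i)).2‖ ^ 2) (fun i _ => by positivity) (mem_univ i)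
  refine le_trans ?_ h1
  have : 0 ≤ ‖(pv pl ψ t (EN pl t i)).2‖ ^ 2 := by positivity
  linarith

end Pool.Agent.Y685
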